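import Pool.Agent.Lib.MP_4b1e7e_an.T3.Defs

/-!
# Block T3: the automorphisms `TT z₀ e` of the disc
-/

set_option autoImplicit false

namespace Pool.Agent.MobConv.T3

open Metric ComplexConjugate

variable {z₀ e ζ : ℂ}

theorem TT_zero (z₀ e : ℂ) : TT z₀ e 0 = z₀ := by
  simp [TT]

theorem TT_den (hz₀ : z₀ ∈ ball (0 : ℂ) 1) (he : ‖e‖ = 1) (hζ : ζ ∈ ball (0 : ℂ) 1) :
    1 + conj z₀ * (e * ζ) ≠ 0 := by
  intro h
  rw [mem_ball_zero_iff] at hz₀ hζ
  have h1 : conj z₀ * (e * ζ) = -1 := by linear_combination h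
  have h2 : ‖conj z₀ * (e * ζ)‖ = 1 := by rw [h1]; simp
  rw [norm_mul, norm_mul, he, Complex.norm_conj, one_mul] at h2
  have := norm_nonneg z₀
  have := norm_nonneg ζ
  nlinarith

private lemma normSq_id (z w : ℂ) : ‖1 + conj z * w‖ ^ 2 - ‖w + z‖ ^ 2 =
    (1 - ‖z‖ ^ 2) * (1 - ‖w‖ ^ 2) := by
  rw [Complex.sq_norm, Complex.sq_norm, Complex.sq_norm, Complex.sq_norm]
  simp only [Complex.normSq_apply, Complex.add_re, Complex.add_im, Complex.mul_re, Complex.mul_im,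
    Complex.conj_re, Complex.conj_im, Complex.one_re, Complex.one_im]
  ring

theorem pp_TT (hz₀ : z₀ ∈ ball (0 : ℂ) 1) (he : ‖e‖ = 1) (hζ : ζ ∈ ball (0 : ℂ) 1) :
    pp (TT z₀ e ζ) = pp z₀ * pp ζ / ‖1 + conj z₀ * (e * ζ)‖ ^ 2 := by
  have hd := TT_den hz₀ he hζ
  have hn : 0 < ‖1 + conj z₀ * (e * ζ)‖ := norm_pos_iff.mpr hd
  have h1 := normSq_id z₀ (e * ζ)
  have h2 : ‖e * ζ‖ = ‖ζ‖ := by rw [norm_mul, he, one_mul]
  unfold pp TT
  rw [h2] at h1
  rw [norm_div, div_pow, ← h1, one_sub_div (pow_pos hn 2).ne']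

theorem TT_mem (hz₀ : z₀ ∈ ball (0 : ℂ) 1) (he : ‖e‖ = 1) (hζ : ζ ∈ ball (0 : ℂ) 1) :
    TT z₀ e ζ ∈ ball (0 : ℂ) 1 := by
  have hd := TT_den hz₀ he hζ
  have hn : 0 < ‖1 + conj z₀ * (e * ζ)‖ := norm_pos_iff.mpr hd
  have h : 0 < pp (TT z₀ e ζ) := by
    rw [pp_TT hz₀ he hζ]
    have := pp_pos hz₀
    have := pp_pos hζ
    positivity
  rw [mem_ball_zero_iff]
  unfold pp at h
  have := norm_nonneg (TT z₀ e ζ)
  nlinarith

private lemma pp_conj (z : ℂ) : ((pp z : ℝ) : ℂ) = 1 - conj z * z := by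
  unfold pp
  push_cast
  rw [Complex.conj_mul']

theorem hasDerivAt_TT (hz₀ : z₀ ∈ ball (0 : ℂ) 1) (he : ‖e‖ = 1) (hζ : ζ ∈ ball (0 : ℂ) 1) :
    HasDerivAt (TT z₀ e) ((pp z₀ : ℂ) * e / (1 + conj z₀ * (e * ζ)) ^ 2) ζ := by
  have hd := TT_den hz₀ he hζ
  have h1 : HasDerivAt (fun ζ : ℂ => e * ζ + z₀) e ζ := by
    simpa using ((hasDerivAt_id ζ).const_mul e).add_const z₀
  have h2 : HasDerivAt (fun ζ : ℂ => 1 + conj z₀ * (e * ζ)) (conj z₀ * e) ζ := by
    simpa using (((hasDerivAt_id ζ).const_mul e).const_mul (conj z₀)).const_add 1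
  have h3 : HasDerivAt (TT z₀ e) _ ζ := h1.div h2 hd
  refine h3.congr_deriv ?_
  rw [pp_conj]
  congr 1
  ring

theorem TT_inj (hz₀ : z₀ ∈ ball (0 : ℂ) 1) (he : ‖e‖ = 1) :
    Set.InjOn (TT z₀ e) (ball (0 : ℂ) 1) := by
  intro a ha b hb hab
  have hda := TT_den hz₀ he ha
  have hdb := TT_den hz₀ he hb
  unfold TT at hab
  rw [div_eq_div_iff hda hdb] at hab
  have hp : ((pp z₀ : ℝ) : ℂ) ≠ 0 := by
    exact_mod_cast (pp_pos hz₀).ne'
  rw [pp_conj] at hp
  have he0 : e ≠ 0 := by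
    intro h
    rw [h, norm_zero] at he
    exact zero_ne_one he
  have h1 : (e * (1 - conj z₀ * z₀)) * (a - b) = 0 := by linear_combination hab
  rcases mul_eq_zero.mp h1 with h2 | h2
  · exact absurd h2 (mul_ne_zero he0 hp)
  · exact sub_eq_zero.mp h2

theorem TT_image (hz₀ : z₀ ∈ ball (0 : ℂ) 1) (he : ‖e‖ = 1) :
    TT z₀ e '' ball (0 : ℂ) 1 = ball (0 : ℂ) 1 := by
  apply Set.Subset.antisymm
  · rintro _ ⟨ζ, hζ, rfl⟩
    exact TT_mem hz₀ he hζ
  · intro w hw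
    have he0 : e ≠ 0 := by
      intro h
      rw [h, norm_zero] at he
      exact zero_ne_one he
    have hce : conj e * e = 1 := by
      rw [Complex.conj_mul', he]
      simp
    have he' : ‖conj e‖ = 1 := by rw [Complex.norm_conj, he]
    have hz' : -(conj e * z₀) ∈ ball (0 : ℂ) 1 := by
      rw [mem_ball_zero_iff] at hz₀ ⊢
      rw [norm_neg, norm_mul, he', one_mul]
      exact hz₀
    have hm := TT_mem hz' he' hw
    refine ⟨_, hm, ?_⟩
    have hd1 := TT_den hz' he' hw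
    have hd2 := TT_den hz₀ he hm
    have hd : 1 - conj z₀ * w ≠ 0 := by
      intro h
      apply hd1
      simp only [map_neg, map_mul, Complex.conj_conj]
      linear_combination h - conj z₀ * w * hce
    have hT : TT (-(conj e * z₀)) (conj e) w = conj e * (w - z₀) / (1 - conj z₀ * w) := by
      unfold TT
      congr 1
      · ring
      · simp only [map_neg, map_mul, Complex.conj_conj]
        linear_combination (-(conj z₀ * w)) * hce
    have hX : e * (conj e * (w - z₀) / (1 - conj z₀ * w)) = (w - z₀) / (1 - conj z₀ * w) := by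
      rw [← mul_div_assoc, ← mul_assoc, mul_comm e, hce, one_mul]
    rw [hT] at hd2 ⊢
    unfold TT
    rw [div_eq_iff hd2, hX]
    have hXd : (w - z₀) / (1 - conj z₀ * w) * (1 - conj z₀ * w) = w - z₀ :=
      div_mul_cancel₀ _ hd
    linear_combination hXd

end Pool.Agent.MobConv.T3
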