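import Pool.Agent.Lib.MP_4b1e7e_an.T3.AxDer

/-!
# Block T3: the function `AA` is concave
-/

set_option autoImplicit false

namespace Pool.Agent.MobConv.T3

open Metric ComplexConjugate

private theorem sin_sub_nonneg {ξ : ℝ} (h0 : 0 ≤ ξ) (h1 : ξ ≤ Real.pi) :
    0 ≤ Real.sin ξ - ξ * Real.cos ξ := by
  have hd : ∀ x : ℝ, HasDerivAt (fun x : ℝ => Real.sin x - x * Real.cos x)
      (x * Real.sin x) x := by
    intro x
    have h := (Real.hasDerivAt_sin x).sub ((hasDerivAt_id' x).mul (Real.hasDerivAt_cos x))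
    exact h.congr_deriv (by ring)
  have hm : MonotoneOn (fun x : ℝ => Real.sin x - x * Real.cos x) (Set.Icc 0 Real.pi) := by
    apply monotoneOn_of_deriv_nonneg (convex_Icc 0 Real.pi)
    · exact fun x _ => (hd x).continuousAt.continuousWithinAt
    · exact fun x _ => (hd x).differentiableAt.differentiableWithinAt
    · intro x hx
      rw [interior_Icc] at hx
      rw [(hd x).deriv]
      exact mul_nonneg hx.1.le (Real.sin_nonneg_of_nonneg_of_le_pi hx.1.le hx.2.le)
  have h := hm ⟨le_refl 0, Real.pi_pos.le⟩ ⟨h0, h1⟩ h0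
  simpa using h

private theorem trig_deriv_nonneg {v : ℝ} (h0 : 0 ≤ v) (h1 : v ≤ 2 * Real.pi) :
    0 ≤ 2 * v - 3 * Real.sin v + v * Real.cos v := by
  have hd : ∀ x : ℝ, HasDerivAt (fun x : ℝ => 2 * x - 3 * Real.sin x + x * Real.cos x)
      (2 - 2 * Real.cos x - x * Real.sin x) x := by
    intro x
    have h := (((hasDerivAt_id' x).const_mul 2).sub ((Real.hasDerivAt_sin x).const_mul 3)).add
      ((hasDerivAt_id' x).mul (Real.hasDerivAt_cos x))
    exact h.congr_deriv (by ring)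
  have hm : MonotoneOn (fun x : ℝ => 2 * x - 3 * Real.sin x + x * Real.cos x)
      (Set.Icc 0 (2 * Real.pi)) := by
    apply monotoneOn_of_deriv_nonneg (convex_Icc 0 (2 * Real.pi))
    · exact fun x _ => (hd x).continuousAt.continuousWithinAt
    · exact fun x _ => (hd x).differentiableAt.differentiableWithinAt
    · intro x hx
      rw [interior_Icc] at hx
      rw [(hd x).deriv]
      have e : x = 2 * (x / 2) := by ring
      have hy0 : 0 ≤ x / 2 := by linarith [hx.1]
      have hy1 : x / 2 ≤ Real.pi := by linarith [hx.2]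
      have hs := Real.sin_nonneg_of_nonneg_of_le_pi hy0 hy1
      have hk := sin_sub_nonneg hy0 hy1
      have hc : Real.cos x = 1 - 2 * Real.sin (x / 2) ^ 2 := by
        rw [e, Real.cos_two_mul, mul_div_cancel_left₀ _ (two_ne_zero)]
        linarith [Real.sin_sq_add_cos_sq (x / 2)]
      have hsn : Real.sin x = 2 * Real.sin (x / 2) * Real.cos (x / 2) := by
        rw [e, Real.sin_two_mul, mul_div_cancel_left₀ _ (two_ne_zero)]
      rw [hc, hsn]
      have : 2 - 2 * (1 - 2 * Real.sin (x / 2) ^ 2) -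
          x * (2 * Real.sin (x / 2) * Real.cos (x / 2)) =
          4 * Real.sin (x / 2) * (Real.sin (x / 2) - x / 2 * Real.cos (x / 2)) := by ring
      rw [this]
      positivity
  have h := hm ⟨le_refl 0, Real.two_pi_pos.le⟩ ⟨h0, h1⟩ h0
  simpa using h

/-- `v² + v sin v + 4 cos v - 4 ≥ 0` on `[0, 2π]`: the second derivative is
`4 sin ξ (sin ξ - ξ cos ξ)`, `v = 2 ξ`. -/
theorem trig_ineq {v : ℝ} (h0 : 0 ≤ v) (h1 : v ≤ 2 * Real.pi) :
    0 ≤ v ^ 2 + v * Real.sin v + 4 * Real.cos v - 4 := by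
  have hd : ∀ x : ℝ, HasDerivAt (fun x : ℝ => x ^ 2 + x * Real.sin x + 4 * Real.cos x - 4)
      (2 * x - 3 * Real.sin x + x * Real.cos x) x := by
    intro x
    have h := (((hasDerivAt_pow 2 x).add ((hasDerivAt_id' x).mul (Real.hasDerivAt_sin x))).add
      ((Real.hasDerivAt_cos x).const_mul 4)).sub_const 4
    exact h.congr_deriv (by simp; ring)
  have hm : MonotoneOn (fun x : ℝ => x ^ 2 + x * Real.sin x + 4 * Real.cos x - 4)
      (Set.Icc 0 (2 * Real.pi)) := by
    apply monotoneOn_of_deriv_nonneg (convex_Icc 0 (2 * Real.pi))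
    · exact fun x _ => (hd x).continuousAt.continuousWithinAt
    · exact fun x _ => (hd x).differentiableAt.differentiableWithinAt
    · intro x hx
      rw [interior_Icc] at hx
      rw [(hd x).deriv]
      exact trig_deriv_nonneg hx.1.le hx.2.le
  have h := hm ⟨le_refl 0, Real.two_pi_pos.le⟩ ⟨h0, h1⟩ h0
  simpa using h

/-- `A - x ≥ 0` and `A (A - x) ≤ 2`. -/
private theorem AA_bounds {x : ℝ} (h1 : -1 < x) (h2 : x < 1) :
    0 ≤ AA x - x ∧ AA x * (AA x - x) ≤ 2 := by
  set ξ := Real.arccos (-x) with hξ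
  have hx : x = -Real.cos ξ := by
    rw [hξ, Real.cos_arccos (by linarith) (by linarith), neg_neg]
  have h0 : 0 < ξ := Real.arccos_pos.2 (by linarith)
  have hp : ξ ≤ Real.pi := Real.arccos_le_pi _
  have hA := AA_cos h0 hp
  rw [hx, hA]
  have hs := Real.sin_nonneg_of_nonneg_of_le_pi h0.le hp
  have e : 2 * Real.sin ξ / ξ - Real.cos ξ - -Real.cos ξ = 2 * Real.sin ξ / ξ := by ring
  rw [e]
  refine ⟨by positivity, ?_⟩
  have ht := trig_ineq (v := 2 * ξ) (by positivity) (by linarith)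
  rw [Real.sin_two_mul, Real.cos_two_mul] at ht
  have hsc := Real.sin_sq_add_cos_sq ξ
  have e2 : (2 * Real.sin ξ / ξ - Real.cos ξ) * (2 * Real.sin ξ / ξ) =
      (4 * Real.sin ξ ^ 2 - 2 * ξ * Real.sin ξ * Real.cos ξ) / ξ ^ 2 := by
    field_simp
    ring
  rw [e2, div_le_iff₀ (by positivity)]
  nlinarith

/-- Proof. `AA' = 1 - h / 2`, `h = (A² - x²) / D`, `D = 1 - x²`, and
`D h' = 2 (A - x) - h (A - 2 x)`, which is `≥ 0` if and only if `A (A - x) ≤ 2`; for `x = -cos ξ`
this is `trig_ineq` for `v = 2 ξ`. So `AA'` is antitone on `(-1, 1)`. -/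
theorem AA_concave : ConcaveOn ℝ (Set.Icc (-1) 1) AA := by
  apply concaveOn_of_hasDerivWithinAt2_nonpos (convex_Icc (-1) 1)
    (f' := fun x => (2 - AA x ^ 2 - x ^ 2) / (2 * (1 - x ^ 2)))
    (f'' := fun x => -((AA x - x) * (2 - AA x * (AA x - x))) / (2 * (1 - x ^ 2) ^ 2))
    AA_cont.continuousOn
  · intro x hx
    rw [interior_Icc] at hx
    exact (hasDerivAt_AA hx.1 hx.2).hasDerivWithinAt
  · intro x hx
    rw [interior_Icc] at hx
    have hD : 0 < 1 - x ^ 2 := by nlinarith [hx.1, hx.2]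
    have hA := hasDerivAt_AA hx.1 hx.2
    have h := (((hA.pow 2).const_sub 2).sub (hasDerivAt_pow 2 x)).div
      (((hasDerivAt_pow 2 x).const_sub 1).const_mul 2) (by positivity)
    apply HasDerivAt.hasDerivWithinAt
    refine h.congr_deriv ?_
    simp only [Pi.sub_apply, Pi.pow_apply, Nat.cast_ofNat]
    field_simp
    ring
  · intro x hx
    rw [interior_Icc] at hx
    have hD : 0 < 1 - x ^ 2 := by nlinarith [hx.1, hx.2]
    obtain ⟨h1, h2⟩ := AA_bounds hx.1 hx.2
    apply div_nonpos_of_nonpos_of_nonneg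
    · have := mul_nonneg h1 (sub_nonneg.2 h2)
      linarith
    · positivity

/-- A concave function lies below its tangents. -/
theorem AA_tangent {t x : ℝ} (ht : -1 < t) (ht1 : t < 1) (hx : x ∈ Set.Icc (-1 : ℝ) 1) :
    AA x ≤ AA t + (2 - AA t ^ 2 - t ^ 2) / (2 * (1 - t ^ 2)) * (x - t) := by
  have hc := AA_concave
  have ht' : t ∈ Set.Icc (-1 : ℝ) 1 := ⟨ht.le, ht1.le⟩
  have hd := hasDerivAt_AA ht ht1
  rcases lt_trichotomy x t with h | h | h
  · have h3 := hc.le_slope_of_hasDerivAt hx ht' h hd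
    rw [slope_def_field, le_div_iff₀ (by linarith)] at h3
    linarith
  · subst h
    simp
  · have h3 := hc.slope_le_of_hasDerivAt ht' hx h hd
    rw [slope_def_field, div_le_iff₀ (by linarith)] at h3
    linarith

end Pool.Agent.MobConv.T3
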