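import Pool.Agent.Lib.MP_4b1e7e_an.T3.Defs

/-!
# Block T3: the function `AA`: continuity, values, derivative
-/

set_option autoImplicit false

namespace Pool.Agent.MobConv.T3

open Metric ComplexConjugate

theorem AA_cont : Continuous AA := by
  unfold AA
  exact continuous_id.add (continuous_const.mul
    (Real.continuous_sinc.comp (Real.continuous_arccos.comp continuous_neg)))

theorem AA_one : AA 1 = 1 := by
  unfold AA
  rw [Real.arccos_neg_one, Real.sinc_of_ne_zero Real.pi_ne_zero, Real.sin_pi]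
  simp

theorem AA_neg_one : AA (-1) = 1 := by
  unfold AA
  rw [neg_neg, Real.arccos_one, Real.sinc_zero]
  norm_num

theorem AA_cos {ξ : ℝ} (h0 : 0 < ξ) (h1 : ξ ≤ Real.pi) :
    AA (-Real.cos ξ) = 2 * Real.sin ξ / ξ - Real.cos ξ := by
  unfold AA
  rw [neg_neg, Real.arccos_cos h0.le h1, Real.sinc_of_ne_zero h0.ne']
  ring

/-- With `x = -cos ξ`: `AA x = x + 2 sin ξ / ξ`, `dξ/dx = 1 / sin ξ`, and for `k = 2 sin ξ / ξ`
`AA' = 1 - k x / (1 - x²) - k² / (2 (1 - x²))`. -/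
theorem hasDerivAt_AA {x : ℝ} (h1 : -1 < x) (h2 : x < 1) :
    HasDerivAt AA ((2 - AA x ^ 2 - x ^ 2) / (2 * (1 - x ^ 2))) x := by
  have hs0 : 0 < 1 - x ^ 2 := by nlinarith
  set u : ℝ := Real.arccos (-x) with hu
  have hu0 : 0 < u := Real.arccos_pos.2 (by linarith)
  have hcos : Real.cos u = -x := Real.cos_arccos (by linarith) (by linarith)
  have hsin : Real.sin u = √(1 - x ^ 2) := by rw [hu, Real.sin_arccos, neg_sq]
  have hsq : √(1 - x ^ 2) ^ 2 = 1 - x ^ 2 := Real.sq_sqrt hs0.le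
  have hsp : 0 < √(1 - x ^ 2) := Real.sqrt_pos.2 hs0
  -- the derivative of the angle
  have h3 : HasDerivAt (fun y : ℝ => Real.arccos (-y)) (1 / √(1 - x ^ 2)) x := by
    have h4 := (Real.hasDerivAt_arccos (x := -x) (by linarith) (by linarith)).comp x
      (hasDerivAt_neg x)
    rw [neg_sq] at h4
    have h4' : HasDerivAt (fun y : ℝ => Real.arccos (-y)) (-(1 / √(1 - x ^ 2)) * -1) x := h4
    exact h4'.congr_deriv (by ring)
  have h5 : HasDerivAt (fun y : ℝ => Real.sin y / y)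
      ((Real.cos u * u - Real.sin u * 1) / u ^ 2) u :=
    (Real.hasDerivAt_sin u).div (hasDerivAt_id u) hu0.ne'
  have h6 : HasDerivAt Real.sinc ((Real.cos u * u - Real.sin u * 1) / u ^ 2) u := by
    refine h5.congr_of_eventuallyEq ?_
    filter_upwards [eventually_ne_nhds hu0.ne'] with y hy
    exact Real.sinc_of_ne_zero hy
  have h7 := h6.comp x h3
  have h8 := (hasDerivAt_id x).add (h7.const_mul 2)
  have hAA : AA x = x + 2 * (Real.sin u / u) := by
    unfold AA
    rw [← hu, Real.sinc_of_ne_zero hu0.ne']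
  have h9 : HasDerivAt AA (1 + 2 * ((Real.cos u * u - Real.sin u * 1) / u ^ 2 *
      (1 / √(1 - x ^ 2)))) x := h8
  convert h9 using 1
  rw [hAA, hcos, hsin]
  set s : ℝ := √(1 - x ^ 2) with hs
  have hx : x ^ 2 = 1 - s ^ 2 := by rw [hsq]; ring
  have e1 : (2 - (x + 2 * (s / u)) ^ 2 - x ^ 2) / (2 * (1 - x ^ 2)) =
      (2 - (2 * x ^ 2 + 4 * x * (s / u) + 4 * (s / u) ^ 2)) / (2 * (1 - x ^ 2)) := by ring
  rw [e1, hx]
  have e2 : (1 : ℝ) - (1 - s ^ 2) = s ^ 2 := by ring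
  rw [e2]
  field_simp
  ring

end Pool.Agent.MobConv.T3
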