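import Pool.Agent.Lib.MP_4b1e7e_an.T3.AxConc

/-!
# Block T3: enclosures of the function `AA`
-/

set_option autoImplicit false

namespace Pool.Agent.MobConv.T3

open Metric ComplexConjugate

private theorem sin_sub_nonneg' {ξ : ℝ} (h0 : 0 ≤ ξ) (h1 : ξ ≤ Real.pi) :
    0 ≤ Real.sin ξ - ξ * Real.cos ξ := by
  have hd : ∀ x : ℝ, HasDerivAt (fun x : ℝ => Real.sin x - x * Real.cos x)
      (x * Real.sin x) x := by
    intro x
    have h := (Real.hasDerivAt_sin x).sub ((hasDerivAt_id' x).mul (Real.hasDerivAt_cos x))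
    exact h.congr_deriv (by ring)
  have hm : MonotoneOn (fun x : ℝ => Real.sin x - x * Real.cos x) (Set.Icc 0 Real.pi) := by
    apply monotoneOn_of_deriv_nonneg (convex_Icc 0 Real.pi)
    · exact fun x _ => (hd x).continuousAt.continuousWithinAt
    · exact fun x _ => (hd x).differentiableAt.differentiableWithinAt
    · intro x hx
      rw [interior_Icc] at hx
      rw [(hd x).deriv]
      exact mul_nonneg hx.1.le (Real.sin_nonneg_of_nonneg_of_le_pi hx.1.le hx.2.le)
  have h := hm ⟨le_refl 0, Real.pi_pos.le⟩ ⟨h0, h1⟩ h0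
  simpa using h

/-- The inequality of Cusa. -/
private theorem cusa {v : ℝ} (h0 : 0 ≤ v) (h1 : v ≤ Real.pi) :
    0 ≤ 2 * v - 3 * Real.sin v + v * Real.cos v := by
  have hd : ∀ x : ℝ, HasDerivAt (fun x : ℝ => 2 * x - 3 * Real.sin x + x * Real.cos x)
      (2 - 2 * Real.cos x - x * Real.sin x) x := by
    intro x
    have h := (((hasDerivAt_id' x).const_mul 2).sub ((Real.hasDerivAt_sin x).const_mul 3)).add
      ((hasDerivAt_id' x).mul (Real.hasDerivAt_cos x))
    exact h.congr_deriv (by ring)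
  have hm : MonotoneOn (fun x : ℝ => 2 * x - 3 * Real.sin x + x * Real.cos x)
      (Set.Icc 0 Real.pi) := by
    apply monotoneOn_of_deriv_nonneg (convex_Icc 0 Real.pi)
    · exact fun x _ => (hd x).continuousAt.continuousWithinAt
    · exact fun x _ => (hd x).differentiableAt.differentiableWithinAt
    · intro x hx
      rw [interior_Icc] at hx
      rw [(hd x).deriv]
      have e : x = 2 * (x / 2) := by ring
      have hy0 : 0 ≤ x / 2 := by linarith [hx.1]
      have hy1 : x / 2 ≤ Real.pi := by linarith [hx.2, Real.pi_pos]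
      have hs := Real.sin_nonneg_of_nonneg_of_le_pi hy0 hy1
      have hk := sin_sub_nonneg' hy0 hy1
      have hc : Real.cos x = 1 - 2 * Real.sin (x / 2) ^ 2 := by
        rw [e, Real.cos_two_mul, mul_div_cancel_left₀ _ (two_ne_zero)]
        linarith [Real.sin_sq_add_cos_sq (x / 2)]
      have hsn : Real.sin x = 2 * Real.sin (x / 2) * Real.cos (x / 2) := by
        rw [e, Real.sin_two_mul, mul_div_cancel_left₀ _ (two_ne_zero)]
      rw [hc, hsn]
      have : 2 - 2 * (1 - 2 * Real.sin (x / 2) ^ 2) -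
          x * (2 * Real.sin (x / 2) * Real.cos (x / 2)) =
          4 * Real.sin (x / 2) * (Real.sin (x / 2) - x / 2 * Real.cos (x / 2)) := by ring
      rw [this]
      positivity
  have h := hm ⟨le_refl 0, Real.pi_pos.le⟩ ⟨h0, h1⟩ h0
  simpa using h

private theorem AA_zero : AA 0 = 4 / Real.pi := by
  have h := AA_cos (ξ := Real.pi / 2) (by positivity) (by linarith [Real.pi_pos])
  rw [Real.cos_pi_div_two, Real.sin_pi_div_two, neg_zero] at h
  rw [h]
  field_simp
  norm_num

private theorem AA_neg_half : AA (-1 / 2) = 3 * √3 / Real.pi - 1 / 2 := by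
  have h := AA_cos (ξ := Real.pi / 3) (by positivity) (by linarith [Real.pi_pos])
  rw [Real.cos_pi_div_three, Real.sin_pi_div_three] at h
  rw [neg_div, h]
  field_simp

private theorem AA_half : AA (1 / 2) = 3 * √3 / (2 * Real.pi) + 1 / 2 := by
  have h := AA_cos (ξ := Real.pi - Real.pi / 3) (by linarith [Real.pi_pos])
    (by linarith [Real.pi_pos])
  rw [Real.cos_pi_sub, Real.sin_pi_sub, Real.cos_pi_div_three, Real.sin_pi_div_three, neg_neg] at h
  rw [h]
  have : Real.pi - Real.pi / 3 = 2 * Real.pi / 3 := by ring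
  rw [this]
  field_simp
  ring

private theorem AA_neg_q : AA (-(√2 / 2)) = 4 * √2 / Real.pi - √2 / 2 := by
  have h := AA_cos (ξ := Real.pi / 4) (by positivity) (by linarith [Real.pi_pos])
  rw [Real.cos_pi_div_four, Real.sin_pi_div_four] at h
  rw [h]
  field_simp

private theorem AA_q : AA (√2 / 2) = 4 * √2 / (3 * Real.pi) + √2 / 2 := by
  have h := AA_cos (ξ := Real.pi - Real.pi / 4) (by linarith [Real.pi_pos])
    (by linarith [Real.pi_pos])
  rw [Real.cos_pi_sub, Real.sin_pi_sub, Real.cos_pi_div_four, Real.sin_pi_div_four, neg_neg] at h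
  rw [h]
  have : Real.pi - Real.pi / 4 = 3 * Real.pi / 4 := by ring
  rw [this]
  field_simp
  ring

private theorem AA_s : AA (√3 / 2) = 6 / (5 * Real.pi) + √3 / 2 := by
  have h := AA_cos (ξ := Real.pi - Real.pi / 6) (by linarith [Real.pi_pos])
    (by linarith [Real.pi_pos])
  rw [Real.cos_pi_sub, Real.sin_pi_sub, Real.cos_pi_div_six, Real.sin_pi_div_six, neg_neg] at h
  rw [h]
  have : Real.pi - Real.pi / 6 = 5 * Real.pi / 6 := by ring
  rw [this]
  field_simp
  ring

private theorem sq2 : 141421 / 100000 < √2 ∧ √2 < 141422 / 100000 := by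
  constructor
  · exact Real.lt_sqrt_of_sq_lt (by norm_num)
  · rw [Real.sqrt_lt' (by norm_num)]
    norm_num

private theorem sq3 : 173205 / 100000 < √3 ∧ √3 < 173206 / 100000 := by
  constructor
  · exact Real.lt_sqrt_of_sq_lt (by norm_num)
  · rw [Real.sqrt_lt' (by norm_num)]
    norm_num

private theorem chord {a b x p q : ℝ} (ha : -1 ≤ a) (hab : a < b) (hb : b ≤ 1) (hax : a ≤ x)
    (hxb : x ≤ b) (hp : p ≤ AA a) (hq : q ≤ AA b) :
    p * (b - x) + q * (x - a) ≤ (b - a) * AA x := by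
  have ha' : a ∈ Set.Icc (-1 : ℝ) 1 := ⟨ha, by linarith⟩
  have hb' : b ∈ Set.Icc (-1 : ℝ) 1 := ⟨by linarith, hb⟩
  have h1 : 0 ≤ (b - x) / (b - a) := div_nonneg (by linarith) (by linarith)
  have h2 : 0 ≤ (x - a) / (b - a) := div_nonneg (by linarith) (by linarith)
  have h3 : (b - x) / (b - a) + (x - a) / (b - a) = 1 := by
    rw [← add_div, div_eq_one_iff_eq (by linarith)]
    ring
  have hc := AA_concave.2 ha' hb' h1 h2 h3
  simp only [smul_eq_mul] at hc
  have hba : 0 < b - a := by linarith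
  have e : (b - x) / (b - a) * a + (x - a) / (b - a) * b = x := by
    field_simp
    ring
  rw [e] at hc
  have e2 : (b - x) / (b - a) * AA a + (x - a) / (b - a) * AA b =
      ((b - x) * AA a + (x - a) * AA b) / (b - a) := by
    field_simp
  rw [e2, div_le_iff₀ hba] at hc
  nlinarith [mul_le_mul_of_nonneg_right hp (by linarith : (0 : ℝ) ≤ b - x),
    mul_le_mul_of_nonneg_right hq (by linarith : (0 : ℝ) ≤ x - a)]

private theorem pi1 : Real.pi < 3.141593 := Real.pi_lt_d6
private theorem pi2 : 3.141592 < Real.pi := Real.pi_gt_d6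

private theorem v0 : 127323 / 100000 ≤ AA 0 ∧ AA 0 ≤ 127324 / 100000 := by
  rw [AA_zero]
  constructor
  · rw [le_div_iff₀ Real.pi_pos]
    nlinarith [pi1]
  · rw [div_le_iff₀ Real.pi_pos]
    nlinarith [pi2]

private theorem vm : 115397 / 100000 ≤ AA (-1 / 2) ∧ AA (-1 / 2) ≤ 1154 / 1000 := by
  rw [AA_neg_half]
  have h3 := sq3
  constructor
  · have : 165397 / 100000 ≤ 3 * √3 / Real.pi := by
      rw [le_div_iff₀ Real.pi_pos]
      nlinarith [pi1, h3.1]
    linarith
  · have : 3 * √3 / Real.pi ≤ 1654 / 1000 := by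
      rw [div_le_iff₀ Real.pi_pos]
      nlinarith [pi2, h3.2]
    linarith

private theorem vp : 132699 / 100000 ≤ AA (1 / 2) ∧ AA (1 / 2) ≤ 1327 / 1000 := by
  rw [AA_half]
  have h3 := sq3
  constructor
  · have : 82699 / 100000 ≤ 3 * √3 / (2 * Real.pi) := by
      rw [le_div_iff₀ (by positivity)]
      nlinarith [pi1, h3.1]
    linarith
  · have : 3 * √3 / (2 * Real.pi) ≤ 827 / 1000 := by
      rw [div_le_iff₀ (by positivity)]
      nlinarith [pi2, h3.2]
    linarith

private theorem vnq : 109351 / 100000 ≤ AA (-(√2 / 2)) := by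
  rw [AA_neg_q]
  have h2 := sq2
  have : 180062 / 100000 ≤ 4 * √2 / Real.pi := by
    rw [le_div_iff₀ Real.pi_pos]
    nlinarith [pi1, h2.1]
  linarith [h2.2]

private theorem vq : 130731 / 100000 ≤ AA (√2 / 2) := by
  rw [AA_q]
  have h2 := sq2
  have : 600207 / 1000000 ≤ 4 * √2 / (3 * Real.pi) := by
    rw [le_div_iff₀ (by positivity)]
    nlinarith [pi1, h2.1]
  linarith [h2.1]

private theorem vs : 1247995 / 1000000 ≤ AA (√3 / 2) := by
  rw [AA_s]
  have h3 := sq3
  have : 38197 / 100000 ≤ 6 / (5 * Real.pi) := by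
    rw [le_div_iff₀ (by positivity)]
    nlinarith [pi1]
  linarith [h3.1]

private theorem w1 : 10955 / 10000 ≤ AA (-7 / 10) := by
  have h2 := sq2
  have h := chord (a := -(√2 / 2)) (b := -1 / 2) (x := -7 / 10) (by linarith) (by linarith)
    (by norm_num) (by linarith) (by norm_num) vnq vm.1
  refine le_of_mul_le_mul_left (le_trans ?_ h) (by linarith : 0 < -1 / 2 - -(√2 / 2))
  linarith

private theorem w2 : 13079 / 10000 ≤ AA (7 / 10) := by
  have h2 := sq2
  have h := chord (a := 1 / 2) (b := √2 / 2) (x := 7 / 10) (by linarith) (by linarith)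
    (by linarith) (by linarith) (by linarith) vp.1 vq
  refine le_of_mul_le_mul_left (le_trans ?_ h) (by linarith : 0 < √2 / 2 - 1 / 2)
  linarith

private theorem w3 : 12502 / 10000 ≤ AA (86 / 100) := by
  have h2 := sq2
  have h3 := sq3
  have h := chord (a := √2 / 2) (b := √3 / 2) (x := 86 / 100) (by linarith) (by linarith)
    (by linarith) (by linarith) (by linarith) vq vs
  refine le_of_mul_le_mul_left (le_trans ?_ h) (by linarith : 0 < √3 / 2 - √2 / 2)
  linarith

private theorem w4 {x : ℝ} (hx : x ∈ Set.Icc (-1 : ℝ) 1) : AA x ≤ 1 + (1 + x) / 3 := by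
  rcases hx.1.eq_or_lt with h | h
  · rw [← h, AA_neg_one]
    norm_num
  · set ξ := Real.arccos (-x) with hξ
    have hxe : x = -Real.cos ξ := by
      rw [hξ, Real.cos_arccos (by linarith [hx.2]) (by linarith), neg_neg]
    have h0 : 0 < ξ := Real.arccos_pos.2 (by linarith)
    have hp : ξ ≤ Real.pi := Real.arccos_le_pi _
    have hA := AA_cos h0 hp
    rw [hxe, hA]
    have hk := cusa h0.le hp
    have : 2 * Real.sin ξ / ξ ≤ (4 + 2 * Real.cos ξ) / 3 := by
      rw [div_le_iff₀ h0]
      linarith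
    linarith

private theorem w5 {x : ℝ} (hx : x ∈ Set.Icc (-1 : ℝ) 1) :
    AA x ≤ 12734 / 10000 + 1895 / 10000 * x := by
  have h := AA_tangent (t := 0) (by norm_num) (by norm_num) hx
  obtain ⟨v1, v2⟩ := v0
  have e : (2 - AA 0 ^ 2 - 0 ^ 2) / (2 * (1 - 0 ^ 2)) * (x - 0) = (2 - AA 0 ^ 2) / 2 * x := by
    ring
  rw [e] at h
  have s1 : (2 - AA 0 ^ 2) / 2 ≤ 18945 / 100000 := by nlinarith
  have s2 : 18942 / 100000 ≤ (2 - AA 0 ^ 2) / 2 := by nlinarith
  rcases le_total 0 x with h0 | h0
  · have := mul_le_mul_of_nonneg_right s1 h0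
    linarith
  · have := mul_le_mul_of_nonpos_right s2 h0
    linarith [hx.1]

/-- Proof. Values: `AA (-1) = AA 1 = 1`, `AA (-√2/2) = -√2/2 + 4√2/π`, `AA (-1/2) = -1/2 + 3√3/π`,
`AA 0 = 4/π`, `AA (1/2) = 1/2 + 3√3/(2π)`, `AA (√2/2) = √2/2 + 4√2/(3π)`,
`AA (√3/2) = √3/2 + 6/(5π)` (`AA_cos`). A concave function (`AA_concave`) lies above its chords:
this gives `AA (-7/10) ≥ 1.0955` (chord from `-√2/2` to `-1/2`), `AA (7/10) ≥ 1.3079` (chord from
`1/2` to `√2/2`), `AA (86/100) ≥ 1.2502` (chord from `√2/2` to `√3/2`), then `l1`, ..., `l7`. The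
upper bounds are tangents (`AA_tangent`) at `0` (`u1`), `1/2` (`u2`), `-1/2` (`u3`); `u0` is the
tangent at `-1`, slope `1/3`: e.g. by concavity it is enough to have it near `-1`, or
`AA' ≤ 1/3` on `(-1, 1)`, i.e. `h ≥ 4/3`, or directly: for `x = -cos ξ` it says
`2 sin ξ / ξ ≤ (4 + 2 cos ξ) / 3`. -/
theorem enc {x : ℝ} (hx : x ∈ Set.Icc (-1 : ℝ) 1) : Enc x (AA x) where
  l1 := fun h => by
    have := chord (a := -1) (b := -7 / 10) (x := x) (p := 1) (by norm_num) (by norm_num)
      (by norm_num) hx.1 h (by rw [AA_neg_one]) w1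
    linarith
  l2 := fun h h' => by
    have := chord (a := -7 / 10) (b := -1 / 2) (x := x) (q := 11539 / 10000) (by norm_num)
      (by norm_num) (by norm_num) h h' w1 (by linarith [vm.1])
    linarith
  l3 := fun h h' => by
    have := chord (a := -1 / 2) (b := 0) (x := x) (p := 11539 / 10000) (q := 12732 / 10000) (by norm_num)
      (by norm_num) (by norm_num) h h' (by linarith [vm.1]) (by linarith [v0.1])
    linarith
  l4 := fun h h' => by
    have := chord (a := 0) (b := 1 / 2) (x := x) (p := 12732 / 10000) (q := 13269 / 10000) (by norm_num)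
      (by norm_num) (by norm_num) h h' (by linarith [v0.1]) (by linarith [vp.1])
    linarith
  l5 := fun h h' => by
    have := chord (a := 1 / 2) (b := 7 / 10) (x := x) (p := 13269 / 10000) (by norm_num)
      (by norm_num) (by norm_num) h h' (by linarith [vp.1]) w2
    linarith
  l6 := fun h h' => by
    have := chord (a := 7 / 10) (b := 86 / 100) (x := x) (by norm_num)
      (by norm_num) (by norm_num) h h' w2 w3
    linarith
  l7 := fun h => by
    have := chord (a := 86 / 100) (b := 1) (x := x) (q := 1) (by norm_num)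
      (by norm_num) (by norm_num) h hx.2 w3 (by rw [AA_one])
    linarith
  u0 := w4 hx
  u1 := w5 hx
  u2 := by
    rcases le_total x 0 with h0 | h0
    · have := w5 hx
      linarith
    · have h := AA_tangent (t := 1 / 2) (by norm_num) (by norm_num) hx
      obtain ⟨v1, v2⟩ := vp
      have e : (2 - AA (1 / 2) ^ 2 - (1 / 2) ^ 2) / (2 * (1 - (1 / 2) ^ 2)) * (x - 1 / 2) =
          (7 / 4 - AA (1 / 2) ^ 2) / (3 / 2) * (x - 1 / 2) := by
        ring
      rw [e] at h
      have s1 : (7 / 4 - AA (1 / 2) ^ 2) / (3 / 2) ≤ -7260 / 1000000 := by nlinarith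
      have s2 : -7290 / 1000000 ≤ (7 / 4 - AA (1 / 2) ^ 2) / (3 / 2) := by nlinarith
      have := mul_le_mul_of_nonneg_right s1 h0
      linarith [hx.2]
  u3 := by
    have h := AA_tangent (t := -1 / 2) (by norm_num) (by norm_num) hx
    obtain ⟨v1, v2⟩ := vm
    have e : (2 - AA (-1 / 2) ^ 2 - (-1 / 2) ^ 2) / (2 * (1 - (-1 / 2) ^ 2)) * (x - -1 / 2) =
        (7 / 4 - AA (-1 / 2) ^ 2) / (3 / 2) * (x + 1 / 2) := by
      ring
    rw [e] at h
    have s1 : (7 / 4 - AA (-1 / 2) ^ 2) / (3 / 2) ≤ 27891 / 100000 := by nlinarith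
    have s2 : 27885 / 100000 ≤ (7 / 4 - AA (-1 / 2) ^ 2) / (3 / 2) := by nlinarith
    rcases le_total 0 (x + 1 / 2) with h0 | h0
    · have := mul_le_mul_of_nonneg_right s1 h0
      linarith [hx.2]
    · have := mul_le_mul_of_nonpos_right s2 h0
      linarith [hx.1]

end Pool.Agent.MobConv.T3
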