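import Pool.Agent.Lib.MP_4b1e7e_an.T3.Defs
import Pool.Agent.Lib.MP_4b1e7e_an.Coeff
import Pool.Agent.Lib.MP_4b1e7e_an.Asy.Coef1

/-!
# Block T3: the third coefficient
-/

set_option autoImplicit false

namespace Pool.Agent.MobConv.T3

open Metric ComplexConjugate Finset

private theorem tcoeff_scale (r : ℂ) (n : ℕ) : ∀ (c : ℂ) (G : ℂ → ℂ),
    tcoeff (fun z => c * G (r * z)) n = c * r ^ n * tcoeff G n := by
  induction n with
  | zero =>
    intro c G
    simp [tcoeff_zero]
  | succ n ih =>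
    intro c G
    rw [tcoeff_succ, tcoeff_succ]
    have h1 : deriv (fun z => c * G (r * z)) = fun z => (c * r) * deriv G (r * z) := by
      ext z
      rw [deriv_const_mul_field, deriv_comp_mul_left, smul_eq_mul]
      ring
    rw [h1, ih]
    ring

theorem coef3 {f : ℂ → ℂ} (hf : IsConvexMap f) {w : ℂ} (hw : w ∉ f '' ball (0 : ℂ) 1) :
    tcoeff (fun z => f z / (1 - f z / w)) 3 = aa f w 0 ^ 2 + sg f 0 / 3 := by
  have h0b : (0 : ℂ) ∈ ball (0 : ℂ) 1 := by simp
  have hf0 : f 0 = 0 := hf.zero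
  have hw0 : w ≠ 0 := by
    rintro rfl
    exact hw ⟨0, h0b, hf0⟩
  have hd1 : deriv f 0 = 1 := hf.deriv_one
  have hne : ∀ z ∈ ball (0 : ℂ) 1, 1 - f z / w ≠ 0 := by
    intro z hz h
    apply hw
    refine ⟨z, hz, ?_⟩
    have h1 : f z / w = 1 := (sub_eq_zero.1 h).symm
    exact (div_eq_one_iff_eq hw0).1 h1
  have hfa : AnalyticAt ℂ f 0 := hf.analyticAt h0b
  have hla : AnalyticAt ℂ (fun z => 1 - f z / w) 0 :=
    analyticAt_const.sub (hfa.div_const)
  have hga : AnalyticAt ℂ (fun z => f z / (1 - f z / w)) 0 := hfa.div hla (hne 0 h0b)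
  -- coefficients of `f`
  have t0 : tcoeff f 0 = 0 := by rw [tcoeff_zero, hf0]
  have t1 : tcoeff f 1 = 1 := by
    rw [tcoeff_succ, tcoeff_zero, hd1]
    norm_num
  have t2 : tcoeff f 2 = deriv (deriv f) 0 / 2 := by
    rw [tcoeff_succ, tcoeff_succ, tcoeff_zero]
    norm_num
  have t3 : tcoeff f 3 = deriv (deriv (deriv f)) 0 / 6 := by
    rw [tcoeff_succ, tcoeff_succ, tcoeff_succ, tcoeff_zero]
    push_cast
    ring
  -- coefficients of `1 - f / w`
  have l0 : tcoeff (fun z => 1 - f z / w) 0 = 1 := by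
    rw [tcoeff_zero, hf0]
    simp
  have lk : ∀ k, tcoeff (fun z => 1 - f z / w) (k + 1) = - tcoeff f (k + 1) / w := by
    intro k
    rw [tcoeff_succ, tcoeff_succ]
    have h1 : ∀ z ∈ ball (0 : ℂ) 1, deriv (fun z => 1 - f z / w) z =
        (-1 / w) * deriv f (1 * z) := by
      intro z hz
      have h2 := (hf.analyticAt hz).differentiableAt
      rw [deriv_const_sub, deriv_div_const, one_mul]
      ring
    rw [tcoeff_congr h1, tcoeff_scale]
    simp only [one_pow, mul_one]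
    ring
  have key : ∀ n, tcoeff f n = ∑ i ∈ range (n + 1), tcoeff (fun z => f z / (1 - f z / w)) i *
      tcoeff (fun z => 1 - f z / w) (n - i) := by
    intro n
    rw [← tcoeff_mul hga hla]
    apply tcoeff_congr
    intro z hz
    exact (div_mul_cancel₀ _ (hne z hz)).symm
  have k0 := key 0
  have k1 := key 1
  have k2 := key 2
  have k3 := key 3
  simp only [sum_range_succ, sum_range_zero, zero_add, Nat.sub_zero, Nat.sub_self] at k0 k1 k2 k3
  have e1 : tcoeff (fun z => 1 - f z / w) 1 = - 1 / w := by rw [lk 0, zero_add, t1]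
  have e2 : tcoeff (fun z => 1 - f z / w) 2 = - tcoeff f 2 / w := lk 1
  have e3 : tcoeff (fun z => 1 - f z / w) 3 = - tcoeff f 3 / w := lk 2
  norm_num only [Nat.reduceSub] at k1 k2 k3
  rw [l0, t0] at k0
  rw [l0, e1, t1] at k1
  rw [l0, e1, e2] at k2
  rw [l0, e1, e2, e3] at k3
  set G0 := tcoeff (fun z => f z / (1 - f z / w)) 0
  set G1 := tcoeff (fun z => f z / (1 - f z / w)) 1
  set G2 := tcoeff (fun z => f z / (1 - f z / w)) 2
  set G3 := tcoeff (fun z => f z / (1 - f z / w)) 3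
  have g0 : G0 = 0 := by linear_combination -k0
  have g1 : G1 = 1 := by rw [g0] at k1; linear_combination -k1
  have g2 : G2 = tcoeff f 2 + 1 / w := by rw [g0, g1] at k2; linear_combination -k2
  have g3 : G3 = tcoeff f 3 + 2 * tcoeff f 2 / w + 1 / w ^ 2 := by
    rw [g0, g1, g2] at k3
    have : G3 = tcoeff f 3 + tcoeff f 2 / w + (tcoeff f 2 + 1 / w) * (1 / w) := by
      linear_combination -k3
    rw [this]
    field_simp
    ring
  rw [g3, t2, t3]
  -- the right side
  have hgg0 : gg f 0 = deriv (deriv f) 0 := gg_zero hf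
  have haa : aa f w 0 = deriv (deriv f) 0 / 2 + 1 / w := by
    rw [aa, mm_zero, hgg0, pp_zero, kk, hd1, hf0]
    simp
  have hSS : SS f 0 = deriv (deriv (deriv f)) 0 - deriv (deriv f) 0 ^ 2 -
      deriv (deriv f) 0 ^ 2 / 2 := by
    rw [SS, hgg0]
    have h1 : deriv (gg f) 0 = deriv (deriv (deriv f)) 0 - deriv (deriv f) 0 ^ 2 := by
      have h2 : deriv (fun z => deriv (deriv f) z / deriv f z) 0 = _ :=
        deriv_fun_div hfa.deriv.deriv.differentiableAt hfa.deriv.differentiableAt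
          (hf.deriv_ne h0b)
      have h3 : gg f = fun z => deriv (deriv f) z / deriv f z := rfl
      rw [h3, h2, hd1]
      ring
    rw [h1]
  rw [haa, sg_zero, hSS]
  field_simp
  ring

theorem tcoeff_dil {f : ℂ → ℂ} (hf : IsConvexMap f) {w : ℂ} (hw : w ∉ f '' ball (0 : ℂ) 1)
    {r : ℝ} (hr0 : 0 < r) (hr1 : r < 1) :
    tcoeff (fun z => dil f r z / (1 - dil f r z / (w / r))) 3 =
      (r : ℂ) ^ 2 * tcoeff (fun z => f z / (1 - f z / w)) 3 := by
  have hr : (r : ℂ) ≠ 0 := by exact_mod_cast hr0.ne'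
  have hw0 : w ≠ 0 := by
    rintro rfl
    exact hw ⟨0, by simp, hf.zero⟩
  have h1 : (fun z => dil f r z / (1 - dil f r z / (w / r))) =
      fun z => (1 / (r : ℂ)) * (fun z => f z / (1 - f z / w)) ((r : ℂ) * z) := by
    ext z
    simp only [dil]
    have h2 : f (↑r * z) / ↑r / (w / ↑r) = f (↑r * z) / w := by
      field_simp
    rw [h2]
    ring
  rw [h1, tcoeff_scale (r : ℂ) 3 (1 / (r : ℂ)) (fun z => f z / (1 - f z / w))]
  have h3 : (1 / (r : ℂ)) * (r : ℂ) ^ 3 = (r : ℂ) ^ 2 := by field_simp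
  rw [h3]

end Pool.Agent.MobConv.T3
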