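import Pool.Agent.Lib.MP_4b1e7e_an.Asy.Study

/-!
# MP_4b1e7e_an, block T3 (the third coefficient): definitions

`f` is a normalised convex map, `w` a point outside of its image. The functions `mm`, `aa`, `sg`
of the base point `z` are, up to rotations, the second coefficient of the Koebe transform of `f`
with base point `z`, the same for `f / (1 - f / w)`, and one half of its Schwarzian at the origin.
The theorem of this block: `Phi ≤ 0` at every base point.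
-/

set_option autoImplicit false

namespace Pool.Agent.MobConv.T3

open Metric ComplexConjugate

/-- `1 - |z|²`. -/
noncomputable def pp (z : ℂ) : ℝ := 1 - ‖z‖ ^ 2

/-- The pre-Schwarzian derivative `f'' / f'`. -/
noncomputable def gg (f : ℂ → ℂ) (z : ℂ) : ℂ := deriv (deriv f) z / deriv f z

/-- `f' / (w - f)`. -/
noncomputable def kk (f : ℂ → ℂ) (w z : ℂ) : ℂ := deriv f z / (w - f z)

/-- The Schwarzian derivative. -/
noncomputable def SS (f : ℂ → ℂ) (z : ℂ) : ℂ := deriv (gg f) z - gg f z ^ 2 / 2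

/-- Second coefficient of the Koebe transform of `f` with base point `z`. -/
noncomputable def mm (f : ℂ → ℂ) (z : ℂ) : ℂ := (pp z : ℂ) * gg f z / 2 - conj z

/-- Second coefficient of the Koebe transform of `f / (1 - f / w)` with base point `z`. -/
noncomputable def aa (f : ℂ → ℂ) (w z : ℂ) : ℂ := mm f z + (pp z : ℂ) * kk f w z

/-- One half of the Schwarzian of the Koebe transform at the origin. -/
noncomputable def sg (f : ℂ → ℂ) (z : ℂ) : ℂ := (pp z : ℂ) ^ 2 * SS f z / 2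

/-- `A(x)`: for `x = -cos ξ`, `0 < ξ < π`, this is `2 sin ξ / ξ - cos ξ`, the second coefficient of
the Moebius transform of the vertical strip map with parameter `ξ`. -/
noncomputable def AA (x : ℝ) : ℝ := x + 2 * Real.sinc (Real.arccos (-x))

/-- The third coefficient of the Moebius transform of the strip map, as a function of
`x = -cos ξ`. -/
noncomputable def b3 (x : ℝ) : ℝ := AA x ^ 2 - (1 - x ^ 2) / 3

/-- Component of `mm` in the direction of `aa`. -/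
noncomputable def xx (f : ℂ → ℂ) (w z : ℂ) : ℝ := (mm f z * conj (aa f w z)).re / ‖aa f w z‖

/-- Real part of the Schwarzian after the rotation which makes `aa` positive. -/
noncomputable def Sr (f : ℂ → ℂ) (w z : ℂ) : ℝ :=
  (sg f z * conj (aa f w z) ^ 2).re / ‖aa f w z‖ ^ 2

/-- The function of the base point which has no positive maximum. -/
noncomputable def Phi (f : ℂ → ℂ) (w z : ℂ) : ℝ :=
  ‖aa f w z‖ ^ 2 - AA (xx f w z) ^ 2 +
    7 / 30 * (1 + xx f w z) * (1 - xx f w z ^ 2 + Sr f w z)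

/-- The automorphism `ζ ↦ (e ζ + z₀) / (1 + conj z₀ e ζ)` of the disc, `|e| = 1`. -/
noncomputable def TT (z₀ e ζ : ℂ) : ℂ := (e * ζ + z₀) / (1 + conj z₀ * (e * ζ))

/-- The Koebe transform (renormalised composition with `TT z₀ e`). -/
noncomputable def koebe (f : ℂ → ℂ) (z₀ e ζ : ℂ) : ℂ :=
  (f (TT z₀ e ζ) - f z₀) / ((pp z₀ : ℂ) * e * deriv f z₀)

/-- The dilation `f(r z) / r`. -/
noncomputable def dil (f : ℂ → ℂ) (r : ℝ) (z : ℂ) : ℂ := f (r * z) / r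

/-- The derivative of `xx` in the direction of the gradient, at the origin, for `aa = a > 0`,
`mm = x + i y`, `sg = S + i τ`. -/
noncomputable def XX (x y S τ a : ℝ) : ℝ := S - 1 + x ^ 2 - y ^ 2 + y * τ / a

/-- The derivative of `Phi` in this direction; `A = AA x`, `W` the derivative of `Sr`. -/
noncomputable def GG (x y S τ a A W : ℝ) : ℝ :=
  2 * a * (a ^ 2 - 1 + S) - 2 * A * ((2 - A ^ 2 - x ^ 2) / (2 * (1 - x ^ 2))) * XX x y S τ a +
    7 / 30 * XX x y S τ a * (1 - x ^ 2 + S) + 7 / 30 * (1 + x) * (-2 * x * XX x y S τ a + W)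

/-- Enclosures of the value `A = AA x`: lower bounds by chords, upper bounds by tangents. -/
structure Enc (x A : ℝ) : Prop where
  l1 : x ≤ -7 / 10 → 1 + 955 / 3000 * (1 + x) ≤ A
  l2 : -7 / 10 ≤ x → x ≤ -1 / 2 → 10955 / 10000 + 292 / 1000 * (x + 7 / 10) ≤ A
  l3 : -1 / 2 ≤ x → x ≤ 0 → 11539 / 10000 + 2386 / 10000 * (x + 1 / 2) ≤ A
  l4 : 0 ≤ x → x ≤ 1 / 2 → 12732 / 10000 + 1074 / 10000 * x ≤ A
  l5 : 1 / 2 ≤ x → x ≤ 7 / 10 → 13269 / 10000 - 95 / 1000 * (x - 1 / 2) ≤ A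
  l6 : 7 / 10 ≤ x → x ≤ 86 / 100 → 13079 / 10000 - 577 / 1600 * (x - 7 / 10) ≤ A
  l7 : 86 / 100 ≤ x → 1 + 1251 / 700 * (1 - x) ≤ A
  u0 : A ≤ 1 + (1 + x) / 3
  u1 : A ≤ 12734 / 10000 + 1895 / 10000 * x
  u2 : A ≤ 13307 / 10000 - 72 / 10000 * x
  u3 : A ≤ 12936 / 10000 + 2789 / 10000 * x

/-- `Z = A (2 - h) + 2 λ x`, `h = (A² - x²) / (1 - x²)`, `λ = 7 (1 + x) / 30`. -/
noncomputable def ZZ (x A : ℝ) : ℝ :=
  A * (2 - (A ^ 2 - x ^ 2) / (1 - x ^ 2)) + 2 * (7 / 30 * (1 + x)) * x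

/-- `A h - 6 μ D - λ (3 A² - 1 - D) / A`, `μ = 7 / 30`, `D = 1 - x²`. -/
noncomputable def Dl (x A : ℝ) : ℝ :=
  A * ((A ^ 2 - x ^ 2) / (1 - x ^ 2)) - 6 * (7 / 30) * (1 - x ^ 2) -
    7 / 30 * (1 + x) * (3 * A ^ 2 - 1 - (1 - x ^ 2)) / A

/-- `2 A + λ (6 x - 2) - λ (3 A² - 1 - D) / A - D (μ β + μ (1 - x) / 2 + μ)`, `β = 2.59`. -/
noncomputable def Yl (x A : ℝ) : ℝ :=
  2 * A + 7 / 30 * (1 + x) * (6 * x - 2) - 7 / 30 * (1 + x) * (3 * A ^ 2 - 1 - (1 - x ^ 2)) / A -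
    (1 - x ^ 2) * (7 / 30 * (259 / 100) + 7 / 30 * (1 - x) / 2 + 7 / 30)

/-- The conditions on `x`, `A = AA x` which are used in the proof of the main inequality.
`λ = 7 (1 + x) / 30`, `D = 1 - x²`. -/
structure YD (x A : ℝ) : Prop where
  oneA : 1 ≤ A
  T : 2 * (7 / 30 * (1 + x)) * (1 - x ^ 2) ≤ A ^ 2 - 1
  Y0 : 0 < 2 * A + 7 / 30 * (1 + x) * (6 * x - 2) - 7 / 30 * (1 + x) * (3 * A ^ 2 - 1) / A
  ex : ∃ K : ℝ, |2 * (7 / 30 * (1 + x)) - ZZ x A| ≤ K ∧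
    |2 * (7 / 30 * (1 + x)) - ZZ x A / A| ≤ K ∧
    0 < Dl x A - K / 2 ∧ 0 < Dl x A - K / 2 + 7 / 30 * (1 + x) * (1 - 3 * x) ∧
    0 < Yl x A - (1 - x ^ 2) * K ∧
    0 < Yl x A - (1 - x ^ 2) * K - 2 * (1 - x ^ 2) *
      (2 * (7 / 30 * (1 + x)) / (A + 1) + 7 / 30 * (1 + x) / A - 7 / 30)
  ex' : ∃ K : ℝ, |2 * (7 / 30 * (1 + x)) - ZZ x A| ≤ K ∧ 2 * (7 / 30 * (1 + x)) ≤ K ∧
    0 < A * ((A ^ 2 - x ^ 2) / (1 - x ^ 2)) - 6 * (7 / 30) * (1 - x ^ 2) - K / 2 ∧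
    0 < A * ((A ^ 2 - x ^ 2) / (1 - x ^ 2)) - 6 * (7 / 30) * (1 - x ^ 2) - K / 2 +
      7 / 30 * (1 + x) * (1 - 3 * x) ∧
    0 < 2 * A + 7 / 30 * (1 + x) * (6 * x - 2) -
      (1 - x ^ 2) * (7 / 30 * (259 / 100) + 7 / 30 * (1 - x) / 2 + 7 / 30) - (1 - x ^ 2) * K

theorem gg_zero {f : ℂ → ℂ} (hf : IsConvexMap f) : gg f 0 = deriv (deriv f) 0 := by
  rw [gg, hf.deriv_one, div_one]

theorem pp_zero : pp 0 = 1 := by simp [pp]

theorem pp_pos {z : ℂ} (hz : z ∈ ball (0 : ℂ) 1) : 0 < pp z := by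
  rw [mem_ball_zero_iff] at hz
  have := norm_nonneg z
  unfold pp
  nlinarith

theorem mm_zero (f : ℂ → ℂ) : mm f 0 = gg f 0 / 2 := by simp [mm, pp_zero]

theorem sg_zero (f : ℂ → ℂ) : sg f 0 = SS f 0 / 2 := by simp [sg, pp_zero]

theorem analyticAt_gg {f : ℂ → ℂ} (hf : IsConvexMap f) {z : ℂ} (hz : z ∈ ball (0 : ℂ) 1) :
    AnalyticAt ℂ (gg f) z :=
  ((hf.analyticAt hz).deriv.deriv).div (hf.analyticAt hz).deriv (hf.deriv_ne hz)

theorem analyticAt_SS {f : ℂ → ℂ} (hf : IsConvexMap f) {z : ℂ} (hz : z ∈ ball (0 : ℂ) 1) :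
    AnalyticAt ℂ (SS f) z :=
  (analyticAt_gg hf hz).deriv.sub (((analyticAt_gg hf hz).pow 2).div_const)

end Pool.Agent.MobConv.T3
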