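import Pool.Agent.Lib.MP_4b1e7e_an.T3.AxDer
import Pool.Agent.Lib.MP_4b1e7e_an.T3.Auto

/-!
# Block T3: the derivative of `Phi` at the origin
-/

set_option autoImplicit false

namespace Pool.Agent.MobConv.T3

open Metric ComplexConjugate

variable {F : ℂ → ℂ} {w : ℂ}

private theorem T3Der_pp_real (t : ℝ) : pp (t : ℂ) = 1 - t ^ 2 := by
  simp [pp]

private theorem T3Der_hasDerivAt_pp :
    HasDerivAt (fun t : ℝ => ((pp (t : ℂ) : ℝ) : ℂ)) 0 0 := by
  have h1 : HasDerivAt (fun t : ℝ => 1 - t ^ 2) 0 (0 : ℝ) := by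
    have h2 := (hasDerivAt_pow 2 (0 : ℝ)).const_sub 1
    simpa using h2
  have h3 : (fun t : ℝ => ((pp (t : ℂ) : ℝ) : ℂ)) = fun t : ℝ => (((1 - t ^ 2 : ℝ)) : ℂ) := by
    funext t
    rw [T3Der_pp_real]
  rw [h3]
  have h4 := h1.ofReal_comp
  simpa using h4

private theorem T3Der_line {G : ℂ → ℂ} {G' : ℂ} (h : HasDerivAt G G' 0) :
    HasDerivAt (fun t : ℝ => G (t : ℂ)) G' 0 := by
  have h2 : HasDerivAt G G' ((0 : ℝ) : ℂ) := by simpa using h
  exact h2.comp_ofReal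

private theorem T3Der_mem0 : (0 : ℂ) ∈ ball (0 : ℂ) 1 := by simp

private theorem T3Der_gg (hF : IsConvexMap F) :
    HasDerivAt (gg F) (SS F 0 + gg F 0 ^ 2 / 2) 0 := by
  have h := (analyticAt_gg hF T3Der_mem0).differentiableAt.hasDerivAt
  have e : deriv (gg F) 0 = SS F 0 + gg F 0 ^ 2 / 2 := by
    unfold SS
    ring
  rwa [e] at h

private theorem T3Der_kk (hF : IsConvexMap F) (hw : w ∉ F '' ball (0 : ℂ) 1) :
    HasDerivAt (kk F w) (gg F 0 * kk F w 0 + kk F w 0 ^ 2) 0 := by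
  have h1 := (hF.analyticAt T3Der_mem0).deriv.differentiableAt.hasDerivAt
  have h2 := (hF.analyticAt T3Der_mem0).differentiableAt.hasDerivAt
  have hne : w - F 0 ≠ 0 := by
    intro h
    exact hw ⟨0, T3Der_mem0, (sub_eq_zero.1 h).symm⟩
  have hd : deriv F 0 ≠ 0 := hF.deriv_ne T3Der_mem0
  have h3 : HasDerivAt (kk F w) ((deriv (deriv F) 0 * (w - F 0) - deriv F 0 * (-deriv F 0)) /
      (w - F 0) ^ 2) 0 := h1.div (h2.const_sub w) hne
  refine h3.congr_deriv ?_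
  unfold gg kk
  field_simp
  ring

/-- The derivatives at `t = 0` along the real axis. -/
theorem hasDerivAt_mm (hF : IsConvexMap F) :
    HasDerivAt (fun t : ℝ => mm F (t : ℂ)) (sg F 0 + mm F 0 ^ 2 - 1) 0 := by
  have h1 := (T3Der_hasDerivAt_pp.mul (T3Der_line (T3Der_gg hF))).div_const 2
  have h2 : HasDerivAt (fun t : ℝ => conj ((t : ℂ))) 1 (0 : ℝ) := by
    have h3 : (fun t : ℝ => conj ((t : ℂ))) = fun t : ℝ => (t : ℂ) := by
      funext t
      exact Complex.conj_ofReal t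
    rw [h3]
    have h4 := (hasDerivAt_id (0 : ℝ)).ofReal_comp
    simpa using h4
  have h5 := h1.sub h2
  refine h5.congr_deriv ?_
  rw [sg_zero, mm_zero]
  simp only [Complex.ofReal_zero, pp_zero, Complex.ofReal_one]
  ring

theorem hasDerivAt_aa (hF : IsConvexMap F) (hw : w ∉ F '' ball (0 : ℂ) 1) :
    HasDerivAt (fun t : ℝ => aa F w (t : ℂ)) (sg F 0 + aa F w 0 ^ 2 - 1) 0 := by
  have h1 := (hasDerivAt_mm hF).add (T3Der_hasDerivAt_pp.mul (T3Der_line (T3Der_kk hF hw)))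
  refine h1.congr_deriv ?_
  rw [show aa F w 0 = mm F 0 + kk F w 0 by simp [aa, pp_zero], mm_zero]
  simp only [Complex.ofReal_zero, pp_zero, Complex.ofReal_one]
  ring

theorem hasDerivAt_sg (hF : IsConvexMap F) :
    HasDerivAt (fun t : ℝ => sg F (t : ℂ)) (deriv (SS F) 0 / 2) 0 := by
  have h0 := (analyticAt_SS hF T3Der_mem0).differentiableAt.hasDerivAt
  have h1 := ((T3Der_hasDerivAt_pp.pow 2).mul (T3Der_line h0)).div_const 2
  refine h1.congr_deriv ?_
  simp only [Pi.pow_apply, Complex.ofReal_zero, pp_zero, Complex.ofReal_one]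
  ring

private theorem T3Der_re {G : ℝ → ℂ} {G' : ℂ} (h : HasDerivAt G G' 0) :
    HasDerivAt (fun t : ℝ => (G t).re) G'.re 0 :=
  (Complex.reCLM.hasFDerivAt.comp_hasDerivAt (0 : ℝ) h)

private theorem T3Der_im {G : ℝ → ℂ} {G' : ℂ} (h : HasDerivAt G G' 0) :
    HasDerivAt (fun t : ℝ => (G t).im) G'.im 0 :=
  (Complex.imCLM.hasFDerivAt.comp_hasDerivAt (0 : ℝ) h)

/-- Proof. Let `m`, `a`, `s` be `mm`, `aa`, `sg` along the real axis, `m = x + i y`, `a = α > 0`,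
`s = S + i τ` at `t = 0`. Then `(|a|²)' = 2 α (α² - 1 + S)`, `|a|' = α² - 1 + S`,
`(Re (m conj a) / |a|)' = XX`, `(Re (s conj a ²) / |a|²)' = Re s' + 2 τ² / α`; and
`hasDerivAt_AA` (`|x| < 1` since `‖mm F 0‖ < 1`). -/
theorem hasDerivAt_Phi (hF : IsConvexMap F) (hw : w ∉ F '' ball (0 : ℂ) 1) {α : ℝ} (hα : 0 < α)
    (ha : aa F w 0 = (α : ℂ)) (hm : ‖mm F 0‖ < 1) :
    HasDerivAt (fun t : ℝ => Phi F w (t : ℂ))
      (GG (mm F 0).re (mm F 0).im (sg F 0).re (sg F 0).im α (AA (mm F 0).re)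
        ((deriv (SS F) 0).re / 2 + 2 * (sg F 0).im ^ 2 / α)) 0 := by
  have hm1 := T3Der_re (hasDerivAt_mm hF)
  have hm2 := T3Der_im (hasDerivAt_mm hF)
  have ha1 := T3Der_re (hasDerivAt_aa hF hw)
  have ha2 := T3Der_im (hasDerivAt_aa hF hw)
  have hs1 := T3Der_re (hasDerivAt_sg hF)
  have hs2 := T3Der_im (hasDerivAt_sg hF)
  set x : ℝ := (mm F 0).re with hx
  set y : ℝ := (mm F 0).im with hy
  set S : ℝ := (sg F 0).re with hS
  set τ : ℝ := (sg F 0).im with hτ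
  have hx1 : |x| < 1 := lt_of_le_of_lt (Complex.abs_re_le_norm _) hm
  obtain ⟨hxa, hxb⟩ := abs_lt.1 hx1
  have are0 : (aa F w 0).re = α := by rw [ha, Complex.ofReal_re]
  have aim0 : (aa F w 0).im = 0 := by rw [ha, Complex.ofReal_im]
  -- the derivatives in real terms
  have em1 : (sg F 0 + mm F 0 ^ 2 - 1).re = S + x ^ 2 - y ^ 2 - 1 := by
    simp [pow_two, ← hx, ← hy, ← hS]
    ring
  have ea1 : (sg F 0 + aa F w 0 ^ 2 - 1).re = S + α ^ 2 - 1 := by
    rw [ha]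
    simp [pow_two, ← hS]
  have ea2 : (sg F 0 + aa F w 0 ^ 2 - 1).im = τ := by
    rw [ha]
    simp [pow_two, ← hτ]
  have es1 : (deriv (SS F) 0 / 2).re = (deriv (SS F) 0).re / 2 := by
    simp
  rw [em1] at hm1
  rw [ea1] at ha1
  rw [ea2] at ha2
  rw [es1] at hs1
  -- the squared norm of `a`
  have hN : HasDerivAt (fun t : ℝ => ‖aa F w (t : ℂ)‖ ^ 2) (2 * α * (α ^ 2 - 1 + S)) 0 := by
    have h1 := (ha1.mul ha1).add (ha2.mul ha2)
    have h2 : (fun t : ℝ => ‖aa F w (t : ℂ)‖ ^ 2) = fun t : ℝ =>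
        (aa F w (t : ℂ)).re * (aa F w (t : ℂ)).re + (aa F w (t : ℂ)).im * (aa F w (t : ℂ)).im := by
      funext t
      rw [Complex.sq_norm, Complex.normSq_apply]
    rw [h2]
    refine h1.congr_deriv ?_
    simp only [Complex.ofReal_zero, are0, aim0]
    ring
  have hN0 : ‖aa F w ((0 : ℝ) : ℂ)‖ = α := by
    rw [Complex.ofReal_zero, ha, Complex.norm_real, Real.norm_eq_abs, abs_of_pos hα]
  have hn : HasDerivAt (fun t : ℝ => ‖aa F w (t : ℂ)‖) (α ^ 2 - 1 + S) 0 := by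
    have h1 := hN.sqrt (by rw [hN0]; positivity)
    have h2 : (fun t : ℝ => √(‖aa F w (t : ℂ)‖ ^ 2)) = fun t : ℝ => ‖aa F w (t : ℂ)‖ := by
      funext t
      exact Real.sqrt_sq (norm_nonneg _)
    rw [h2] at h1
    refine h1.congr_deriv ?_
    rw [hN0, Real.sqrt_sq hα.le]
    field_simp
  -- the component of `m`
  have hxx : HasDerivAt (fun t : ℝ => xx F w (t : ℂ)) (XX x y S τ α) 0 := by
    have h1 := (hm1.mul ha1).add (hm2.mul ha2)
    have h2 := h1.div hn (by rw [hN0]; exact hα.ne')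
    have h3 : (fun t : ℝ => xx F w (t : ℂ)) = fun t : ℝ =>
        ((mm F (t : ℂ)).re * (aa F w (t : ℂ)).re + (mm F (t : ℂ)).im * (aa F w (t : ℂ)).im) /
          ‖aa F w (t : ℂ)‖ := by
      funext t
      unfold xx
      rw [Complex.mul_re, Complex.conj_re, Complex.conj_im]
      ring
    rw [h3]
    refine h2.congr_deriv ?_
    simp only [Pi.add_apply, Pi.mul_apply]
    rw [hN0]
    simp only [Complex.ofReal_zero, are0, aim0, ← hx, ← hy]
    unfold XX
    field_simp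
    ring
  have hxx0 : xx F w ((0 : ℝ) : ℂ) = x := by
    unfold xx
    rw [hN0, Complex.ofReal_zero, ha, Complex.conj_ofReal, Complex.re_mul_ofReal, ← hx]
    field_simp
  -- the Schwarzian
  have hSr : HasDerivAt (fun t : ℝ => Sr F w (t : ℂ))
      ((deriv (SS F) 0).re / 2 + 2 * τ ^ 2 / α) 0 := by
    have h1 := (hs1.mul ((ha1.mul ha1).sub (ha2.mul ha2))).add
      ((hs2.const_mul 2).mul (ha1.mul ha2))
    have h2 := h1.div hN (by rw [hN0]; positivity)
    have h3 : (fun t : ℝ => Sr F w (t : ℂ)) = fun t : ℝ =>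
        ((sg F (t : ℂ)).re * ((aa F w (t : ℂ)).re * (aa F w (t : ℂ)).re -
          (aa F w (t : ℂ)).im * (aa F w (t : ℂ)).im) +
          2 * (sg F (t : ℂ)).im * ((aa F w (t : ℂ)).re * (aa F w (t : ℂ)).im)) /
          ‖aa F w (t : ℂ)‖ ^ 2 := by
      funext t
      unfold Sr
      rw [pow_two (conj (aa F w (t : ℂ))), Complex.mul_re, Complex.mul_re, Complex.mul_im,
        Complex.conj_re, Complex.conj_im]
      ring
    rw [h3]
    refine h2.congr_deriv ?_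
    simp only [Pi.add_apply, Pi.mul_apply, Pi.sub_apply]
    rw [hN0]
    simp only [Complex.ofReal_zero, are0, aim0, ← hS, ← hτ]
    field_simp
    ring
  have hSr0 : Sr F w ((0 : ℝ) : ℂ) = S := by
    unfold Sr
    rw [hN0, Complex.ofReal_zero, ha, Complex.conj_ofReal, ← Complex.ofReal_pow,
      Complex.re_mul_ofReal, ← hS]
    field_simp
  -- the function `A`
  have hA : HasDerivAt (fun t : ℝ => AA (xx F w (t : ℂ)))
      ((2 - AA x ^ 2 - x ^ 2) / (2 * (1 - x ^ 2)) * XX x y S τ α) 0 := by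
    have h1 : HasDerivAt AA ((2 - AA x ^ 2 - x ^ 2) / (2 * (1 - x ^ 2)))
        (xx F w ((0 : ℝ) : ℂ)) := by
      rw [hxx0]
      exact hasDerivAt_AA hxa hxb
    exact h1.comp (0 : ℝ) hxx
  have hfin := (hN.sub (hA.pow 2)).add (((hxx.const_add 1).const_mul (7 / 30)).mul
    (((hxx.pow 2).const_sub 1).add hSr))
  have hfun : (fun t : ℝ => Phi F w (t : ℂ)) = fun t : ℝ =>
      ‖aa F w (t : ℂ)‖ ^ 2 - AA (xx F w (t : ℂ)) ^ 2 + 7 / 30 * (1 + xx F w (t : ℂ)) *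
        (1 - xx F w (t : ℂ) ^ 2 + Sr F w (t : ℂ)) := by
    funext t
    rfl
  rw [hfun]
  refine hfin.congr_deriv ?_
  simp only [Pi.add_apply, Pi.pow_apply]
  rw [hxx0, hSr0]
  unfold GG
  simp
  ring

end Pool.Agent.MobConv.T3
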