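import Pool.Agent.Lib.MP_4b1e7e_an.T3.Defs

/-!
# Block T3: the dilations of a convex map are convex maps
-/

set_option autoImplicit false

namespace Pool.Agent.MobConv.T3

open Metric ComplexConjugate

private theorem aux_mem {f : ℂ → ℂ} (hf : IsConvexMap f) {r : ℝ} (hr1 : r < 1) {x y : ℂ}
    (hxy : ‖x‖ ≤ ‖y‖) (hy : ‖y‖ < r) {a b : ℝ} (ha : 0 ≤ a) (hb : 0 ≤ b) (hab : a + b = 1) :
    (a : ℂ) * f x + (b : ℂ) * f y ∈ f '' ball (0 : ℂ) r := by
  rcases eq_or_ne y 0 with rfl | hy0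
  · have hx0 : x = 0 := by
      rw [norm_zero] at hxy
      exact norm_le_zero_iff.1 hxy
    subst hx0
    refine ⟨0, ?_, ?_⟩
    · rw [mem_ball_zero_iff]
      exact hy
    · rw [hf.zero]
      simp
  obtain ⟨g, hg1, hg2⟩ := hf.exists_inv
  have hyn : 0 < ‖y‖ := norm_pos_iff.2 hy0
  have hq : ‖x / y‖ ≤ 1 := by
    rw [norm_div]
    exact (div_le_one hyn).2 hxy
  have hq' : ∀ z ∈ ball (0 : ℂ) 1, x / y * z ∈ ball (0 : ℂ) 1 := by
    intro z hz
    rw [mem_ball_zero_iff] at hz ⊢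
    rw [norm_mul]
    calc ‖x / y‖ * ‖z‖ ≤ 1 * ‖z‖ := mul_le_mul_of_nonneg_right hq (norm_nonneg z)
      _ < 1 := by rw [one_mul]; exact hz
  set h : ℂ → ℂ := fun z => (a : ℂ) * f (x / y * z) + (b : ℂ) * f z with hh
  have hmem : ∀ z ∈ ball (0 : ℂ) 1, h z ∈ f '' ball 0 1 := by
    intro z hz
    have h1 := hf.convex ⟨_, hq' z hz, rfl⟩ ⟨z, hz, rfl⟩ ha hb hab
    simpa [hh, Complex.real_smul] using h1
  have hd : DifferentiableOn ℂ (fun z => g (h z)) (ball 0 1) := by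
    intro z hz
    obtain ⟨u, hu, hue⟩ := hmem z hz
    have h1 : HasDerivAt g (deriv f u)⁻¹ (h z) := hue ▸ hg2 u hu
    have h2 : DifferentiableAt ℂ (fun z : ℂ => f (x / y * z)) z :=
      DifferentiableAt.comp (g := f) z (hf.analyticAt (hq' z hz)).differentiableAt (by fun_prop)
    have h3 : DifferentiableAt ℂ h z :=
      (h2.const_mul (a : ℂ)).add ((hf.analyticAt hz).differentiableAt.const_mul (b : ℂ))
    exact (DifferentiableAt.comp (g := g) z h1.differentiableAt h3).differentiableWithinAt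
  have hm : Set.MapsTo (fun z => g (h z)) (ball (0 : ℂ) 1) (ball 0 1) := by
    intro z hz
    obtain ⟨u, hu, hue⟩ := hmem z hz
    show g (h z) ∈ _
    rw [← hue, hg1 u hu]
    exact hu
  have h0 : (fun z => g (h z)) 0 = 0 := by
    show g (h 0) = 0
    have e1 : h 0 = f 0 := by
      simp [hh, hf.zero]
    rw [e1]
    exact hg1 0 (by simp)
  have hS : ‖g (h y)‖ ≤ ‖y‖ :=
    Complex.norm_le_norm_of_mapsTo_ball hd (hm.mono_right ball_subset_closedBall) h0
      (hy.trans hr1)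
  have hyb : y ∈ ball (0 : ℂ) 1 := by
    rw [mem_ball_zero_iff]
    exact hy.trans hr1
  obtain ⟨u, hu, hue⟩ := hmem y hyb
  refine ⟨u, ?_, ?_⟩
  · rw [mem_ball_zero_iff]
    have e2 : g (h y) = u := by rw [← hue, hg1 u hu]
    rw [e2] at hS
    exact hS.trans_lt hy
  · rw [hue]
    show (a : ℂ) * f (x / y * y) + (b : ℂ) * f y = _
    rw [div_mul_cancel₀ x hy0]

private theorem convex_image {f : ℂ → ℂ} (hf : IsConvexMap f) {r : ℝ} (hr1 : r < 1) :
    Convex ℝ (f '' ball (0 : ℂ) r) := by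
  rintro _ ⟨x, hx, rfl⟩ _ ⟨y, hy, rfl⟩ a b ha hb hab
  rw [Complex.real_smul, Complex.real_smul]
  rw [mem_ball_zero_iff] at hx hy
  rcases le_total ‖x‖ ‖y‖ with h | h
  · exact aux_mem hf hr1 h hy ha hb hab
  · rw [add_comm]
    exact aux_mem hf hr1 h hx hb ha (by rw [add_comm]; exact hab)

/-- Proof (Study). Only the convexity of the image needs an argument. Let `|z₁| ≤ |z₂| < r`,
`z₂ ≠ 0`, `0 ≤ t ≤ 1`. The function `h(z) = t f(z z₁ / z₂) + (1 - t) f(z)` maps the disc into the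
convex set `f(disc)` and `h(0) = 0`, so `f⁻¹ ∘ h` (`IsConvexMap.exists_inv`) maps the disc into
itself and fixes `0`; by the Schwarz lemma `|f⁻¹(h(z₂))| ≤ |z₂| < r`. -/
theorem dil_convexMap {f : ℂ → ℂ} (hf : IsConvexMap f) {r : ℝ} (hr0 : 0 < r) (hr1 : r < 1) :
    IsConvexMap (dil f r) := by
  have hrC : (r : ℂ) ≠ 0 := by exact_mod_cast hr0.ne'
  have hball : ∀ {z : ℂ}, z ∈ ball (0 : ℂ) 1 → (r : ℂ) * z ∈ ball (0 : ℂ) r := by
    intro z hz
    rw [mem_ball_zero_iff] at hz ⊢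
    rw [norm_mul, Complex.norm_real, Real.norm_of_nonneg hr0.le]
    calc r * ‖z‖ < r * 1 := mul_lt_mul_of_pos_left hz hr0
      _ = r := mul_one r
  have hsub : ball (0 : ℂ) r ⊆ ball 0 1 := ball_subset_ball hr1.le
  have hder : ∀ {z : ℂ}, z ∈ ball (0 : ℂ) 1 → HasDerivAt (dil f r) (deriv f (r * z)) z := by
    intro z hz
    have h1 : HasDerivAt f (deriv f (r * z)) (r * z) :=
      (hf.analyticAt (hsub (hball hz))).differentiableAt.hasDerivAt
    have h2 : HasDerivAt (fun z : ℂ => (r : ℂ) * z) ((r : ℂ) * 1) z :=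
      (hasDerivAt_id z).const_mul (r : ℂ)
    have h3 := (HasDerivAt.comp (h₂ := f) (h := fun z : ℂ => (r : ℂ) * z) z h1 h2).div_const
      (r : ℂ)
    refine h3.congr_deriv ?_
    field_simp
  refine ⟨fun z hz => (hder hz).differentiableAt.differentiableWithinAt, ?_, ?_, ?_, ?_⟩
  · intro x hx y hy hxy
    have h1 : f (r * x) / r = f (r * y) / r := hxy
    rw [div_left_inj' hrC] at h1
    exact mul_left_cancel₀ hrC (hf.inj (hsub (hball hx)) (hsub (hball hy)) h1)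
  · simp [dil, hf.zero]
  · rw [(hder (by simp)).deriv, mul_zero, hf.deriv_one]
  · have h1 : dil f r '' ball 0 1 = (fun w => (r : ℂ)⁻¹ * w) '' (f '' ball 0 r) := by
      ext w
      constructor
      · rintro ⟨z, hz, rfl⟩
        refine ⟨_, ⟨r * z, hball hz, rfl⟩, ?_⟩
        show (r : ℂ)⁻¹ * f (r * z) = f (r * z) / r
        rw [div_eq_mul_inv, mul_comm]
      · rintro ⟨_, ⟨y, hy, rfl⟩, rfl⟩
        refine ⟨(r : ℂ)⁻¹ * y, ?_, ?_⟩
        · rw [mem_ball_zero_iff] at hy ⊢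
          rw [norm_mul, norm_inv, Complex.norm_real, Real.norm_of_nonneg hr0.le]
          calc r⁻¹ * ‖y‖ < r⁻¹ * r := mul_lt_mul_of_pos_left hy (inv_pos.2 hr0)
            _ = 1 := inv_mul_cancel₀ hr0.ne'
        · show f (r * ((r : ℂ)⁻¹ * y)) / r = (r : ℂ)⁻¹ * f y
          rw [mul_inv_cancel_left₀ hrC, div_eq_mul_inv, mul_comm]
    rw [h1]
    have h2 : (fun w : ℂ => (r : ℂ)⁻¹ * w) = ⇑(LinearMap.mulLeft ℝ ((r : ℂ)⁻¹)) := by
      ext w
      simp
    rw [h2]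
    exact (convex_image hf hr1).linear_image _

end Pool.Agent.MobConv.T3
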