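import Pool.Agent.Lib.MP_4b1e7e_an.T3.Defs

/-!
# Block T3: Schwarz-Pick at the origin, and the Schur function of a convex map
-/

set_option autoImplicit false

namespace Pool.Agent.MobConv.T3

open Metric ComplexConjugate

/-- Division by `z` for a function bounded by `1` which vanishes at the origin (Schwarz lemma;
the maximum principle on the discs of radius `r < 1`, `r → 1`). -/
theorem schur_div {ψ : ℂ → ℂ} (hd : DifferentiableOn ℂ ψ (ball (0 : ℂ) 1))
    (hb : ∀ z ∈ ball (0 : ℂ) 1, ‖ψ z‖ ≤ 1) (h0 : ψ 0 = 0) :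
    ∃ χ : ℂ → ℂ, DifferentiableOn ℂ χ (ball (0 : ℂ) 1) ∧
      (∀ z ∈ ball (0 : ℂ) 1, ‖χ z‖ ≤ 1) ∧ ∀ z ∈ ball (0 : ℂ) 1, ψ z = z * χ z := by
  have hm : Set.MapsTo ψ (ball (0 : ℂ) 1) (closedBall (ψ 0) 1) := by
    intro z hz
    rw [h0, mem_closedBall_zero_iff]
    exact hb z hz
  refine ⟨dslope ψ 0, ?_, ?_, ?_⟩
  · exact (Complex.differentiableOn_dslope
      (isOpen_ball.mem_nhds (mem_ball_self one_pos))).mpr hd
  · intro z hz
    have h := Complex.norm_dslope_le_div_of_mapsTo_ball hd hm hz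
    simpa using h
  · intro z _
    have h := sub_smul_dslope ψ 0 z
    rw [h0, sub_zero, sub_zero, smul_eq_mul] at h
    exact h.symm

/-- Schwarz-Pick at the origin. If `‖ψ 0‖ < 1` apply the Schwarz lemma to
`(ψ - ψ 0) / (1 - conj (ψ 0) ψ)`; in general apply this to `t ψ`, `t < 1`, and let `t → 1`. -/
theorem schur_unit {ψ : ℂ → ℂ} (hd : DifferentiableOn ℂ ψ (ball (0 : ℂ) 1))
    (hb : ∀ z ∈ ball (0 : ℂ) 1, ‖ψ z‖ ≤ 1) : ‖deriv ψ 0‖ ≤ 1 - ‖ψ 0‖ ^ 2 := by
  have hn : ball (0 : ℂ) 1 ∈ nhds (0 : ℂ) := isOpen_ball.mem_nhds (mem_ball_self one_pos)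
  have key : ∀ t ∈ Set.Ioo (0 : ℝ) 1, t * ‖deriv ψ 0‖ ≤ 1 - t ^ 2 * ‖ψ 0‖ ^ 2 := by
    intro t ht
    obtain ⟨ht0, ht1⟩ := ht
    set a : ℂ := (t : ℂ) * ψ 0 with ha
    have han : ‖a‖ < 1 := by
      rw [ha, norm_mul, Complex.norm_real, Real.norm_of_nonneg ht0.le]
      have := hb 0 (mem_ball_self one_pos)
      have h0 := norm_nonneg (ψ 0)
      nlinarith
    have hwn : ∀ z ∈ ball (0 : ℂ) 1, ‖(t : ℂ) * ψ z‖ < 1 := by
      intro z hz
      rw [norm_mul, Complex.norm_real, Real.norm_of_nonneg ht0.le]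
      have := hb z hz
      have h0 := norm_nonneg (ψ z)
      nlinarith
    have hne : ∀ z ∈ ball (0 : ℂ) 1, 1 - conj a * ((t : ℂ) * ψ z) ≠ 0 := by
      intro z hz h
      have h1 : ‖conj a * ((t : ℂ) * ψ z)‖ < 1 := by
        rw [norm_mul, RCLike.norm_conj]
        have := hwn z hz
        have h0 := norm_nonneg ((t : ℂ) * ψ z)
        have h2 := norm_nonneg a
        nlinarith
      have h2 : conj a * ((t : ℂ) * ψ z) = 1 := (sub_eq_zero.mp h).symm
      rw [h2, norm_one] at h1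
      exact lt_irrefl _ h1
    have hG : DifferentiableOn ℂ (fun z => ((t : ℂ) * ψ z - a) / (1 - conj a * ((t : ℂ) * ψ z)))
        (ball (0 : ℂ) 1) := by
      refine DifferentiableOn.div ?_ ?_ hne
      · exact (hd.const_mul _).sub_const _
      · exact (differentiableOn_const _).sub ((hd.const_mul _).const_mul _)
    have hm : Set.MapsTo (fun z => ((t : ℂ) * ψ z - a) / (1 - conj a * ((t : ℂ) * ψ z)))
        (ball (0 : ℂ) 1)
        (closedBall ((fun z => ((t : ℂ) * ψ z - a) / (1 - conj a * ((t : ℂ) * ψ z))) 0) 1) := by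
      intro z hz
      have e0 : (fun z => ((t : ℂ) * ψ z - a) / (1 - conj a * ((t : ℂ) * ψ z))) 0 = 0 := by
        simp only [ha, sub_self, zero_div]
      rw [e0, mem_closedBall_zero_iff, norm_div, div_le_one (norm_pos_iff.mpr (hne z hz))]
      have hw := hwn z hz
      set w : ℂ := (t : ℂ) * ψ z with hwdef
      have hsq : ‖w - a‖ ^ 2 ≤ ‖1 - conj a * w‖ ^ 2 := by
        have h1 : ‖a‖ ^ 2 = a.re ^ 2 + a.im ^ 2 := by
          rw [Complex.sq_norm, Complex.normSq_apply]; ring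
        have h2 : ‖w‖ ^ 2 = w.re ^ 2 + w.im ^ 2 := by
          rw [Complex.sq_norm, Complex.normSq_apply]; ring
        have h3 : ‖w - a‖ ^ 2 = (w.re - a.re) ^ 2 + (w.im - a.im) ^ 2 := by
          rw [Complex.sq_norm, Complex.normSq_apply, Complex.sub_re, Complex.sub_im]; ring
        have h4 : ‖1 - conj a * w‖ ^ 2 = (1 - (a.re * w.re + a.im * w.im)) ^ 2 +
            (a.re * w.im - a.im * w.re) ^ 2 := by
          rw [Complex.sq_norm, Complex.normSq_apply]
          simp only [Complex.sub_re, Complex.one_re, Complex.mul_re, Complex.conj_re,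
            Complex.conj_im, Complex.sub_im, Complex.one_im, Complex.mul_im]
          ring
        have h5 : 0 ≤ (1 - ‖a‖ ^ 2) * (1 - ‖w‖ ^ 2) := by
          have ha0 := norm_nonneg a
          have hw0 := norm_nonneg w
          apply mul_nonneg <;> nlinarith
        rw [h1, h2] at h5
        rw [h3, h4]
        nlinarith
      exact (sq_le_sq₀ (norm_nonneg _) (norm_nonneg _)).mp hsq
    have hS := Complex.norm_deriv_le_one_of_mapsTo_ball hG hm one_pos
    have hψ : HasDerivAt ψ (deriv ψ 0) 0 := (hd.differentiableAt hn).hasDerivAt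
    have hD := ((hψ.const_mul (t : ℂ)).sub_const a).div
      ((hψ.const_mul (t : ℂ)).const_mul (conj a) |>.const_sub 1)
      (hne 0 (mem_ball_self one_pos))
    have hpos : 0 < 1 - ‖a‖ ^ 2 := by
      have ha0 := norm_nonneg a
      nlinarith
    have hca : 1 - conj a * a = ((1 - ‖a‖ ^ 2 : ℝ) : ℂ) := by
      rw [Complex.conj_mul']
      push_cast
      ring
    have hD' : deriv (fun z => ((t : ℂ) * ψ z - a) / (1 - conj a * ((t : ℂ) * ψ z))) 0 =
        (t : ℂ) * deriv ψ 0 / ((1 - ‖a‖ ^ 2 : ℝ) : ℂ) := by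
      refine hD.deriv.trans ?_
      rw [← ha, sub_self, zero_mul, sub_zero, hca]
      have : ((1 - ‖a‖ ^ 2 : ℝ) : ℂ) ≠ 0 := by
        exact_mod_cast hpos.ne'
      field_simp
    rw [hD', norm_div, norm_mul, Complex.norm_real, Complex.norm_real,
      Real.norm_of_nonneg ht0.le, Real.norm_of_nonneg hpos.le, div_le_one hpos] at hS
    refine hS.trans_eq ?_
    rw [ha, norm_mul, Complex.norm_real, Real.norm_of_nonneg ht0.le]
    ring
  have hlim1 : Filter.Tendsto (fun t : ℝ => t * ‖deriv ψ 0‖) (nhdsWithin 1 (Set.Iio 1))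
      (nhds (1 * ‖deriv ψ 0‖)) :=
    ((continuous_id.mul continuous_const).tendsto 1).mono_left nhdsWithin_le_nhds
  have hlim2 : Filter.Tendsto (fun t : ℝ => 1 - t ^ 2 * ‖ψ 0‖ ^ 2) (nhdsWithin 1 (Set.Iio 1))
      (nhds (1 - 1 ^ 2 * ‖ψ 0‖ ^ 2)) :=
    ((continuous_const.sub ((continuous_id.pow 2).mul continuous_const)).tendsto 1).mono_left
      nhdsWithin_le_nhds
  have hev : ∀ᶠ t : ℝ in nhdsWithin 1 (Set.Iio 1),
      t * ‖deriv ψ 0‖ ≤ 1 - t ^ 2 * ‖ψ 0‖ ^ 2 := by
    filter_upwards [Ioo_mem_nhdsLT (show (0 : ℝ) < 1 by norm_num)] with t ht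
    exact key t ht
  have h := le_of_tendsto_of_tendsto hlim1 hlim2 hev
  simpa using h

/-- `Re (1 + z gg f z) ≥ 0` (`IsConvexMap.study`), so `z gg / (2 + z gg)` is bounded by `1`
and `schur_div` applies. -/
theorem phi_bound {f : ℂ → ℂ} (hf : IsConvexMap f) {z : ℂ} (hz : z ∈ ball (0 : ℂ) 1) :
    2 + z * gg f z ≠ 0 ∧ ‖gg f z / (2 + z * gg f z)‖ ≤ 1 := by
  have hre : ∀ y ∈ ball (0 : ℂ) 1, 0 ≤ 1 + (y * gg f y).re := by
    intro y hy
    have h := hf.study hy
    rw [Complex.add_re, Complex.one_re] at h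
    have e : y * gg f y = y * deriv (deriv f) y / deriv f y := by
      rw [gg, mul_div_assoc]
    rw [e]
    exact h
  have hne : ∀ y ∈ ball (0 : ℂ) 1, 2 + y * gg f y ≠ 0 := by
    intro y hy h
    have h1 := congrArg Complex.re h
    rw [Complex.add_re, Complex.zero_re, Complex.re_ofNat] at h1
    have h2 := hre y hy
    linarith
  refine ⟨hne z hz, ?_⟩
  have hdg : DifferentiableOn ℂ (gg f) (ball (0 : ℂ) 1) := fun y hy =>
    (analyticAt_gg hf hy).differentiableAt.differentiableWithinAt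
  have hdd : DifferentiableOn ℂ (fun y => 2 + y * gg f y) (ball (0 : ℂ) 1) :=
    (differentiableOn_const _).add (differentiableOn_id.mul hdg)
  have hdχ : DifferentiableOn ℂ (fun y => gg f y / (2 + y * gg f y)) (ball (0 : ℂ) 1) :=
    hdg.div hdd hne
  have hdψ : DifferentiableOn ℂ (fun y => y * (gg f y / (2 + y * gg f y))) (ball (0 : ℂ) 1) :=
    differentiableOn_id.mul hdχ
  have hm : Set.MapsTo (fun y => y * (gg f y / (2 + y * gg f y))) (ball (0 : ℂ) 1)
      (closedBall ((fun y => y * (gg f y / (2 + y * gg f y))) 0) 1) := by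
    intro y hy
    have e0 : (fun y => y * (gg f y / (2 + y * gg f y))) 0 = 0 := by
      simp only [zero_mul]
    rw [e0, mem_closedBall_zero_iff]
    show ‖y * (gg f y / (2 + y * gg f y))‖ ≤ 1
    rw [← mul_div_assoc, norm_div, div_le_one (norm_pos_iff.mpr (hne y hy))]
    have h2 := hre y hy
    set w : ℂ := y * gg f y with hw
    have hsq : ‖w‖ ^ 2 ≤ ‖2 + w‖ ^ 2 := by
      rw [Complex.sq_norm, Complex.sq_norm, Complex.normSq_apply, Complex.normSq_apply,
        Complex.add_re, Complex.add_im, Complex.re_ofNat, Complex.im_ofNat]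
      nlinarith
    exact (sq_le_sq₀ (norm_nonneg _) (norm_nonneg _)).mp hsq
  have h := Complex.norm_dslope_le_div_of_mapsTo_ball hdψ hm hz
  rw [div_one] at h
  refine le_of_eq_of_le ?_ h
  congr 1
  have h0 : (0 : ℂ) ∈ ball (0 : ℂ) 1 := mem_ball_self one_pos
  rcases eq_or_ne z 0 with rfl | hz0
  · rw [dslope_same]
    have hχ : HasDerivAt (fun y => gg f y / (2 + y * gg f y))
        (deriv (fun y => gg f y / (2 + y * gg f y)) 0) 0 :=
      (hdχ.differentiableAt (isOpen_ball.mem_nhds h0)).hasDerivAt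
    have hD := (hasDerivAt_id (0 : ℂ)).mul hχ
    refine Eq.trans ?_ hD.deriv.symm
    simp
  · rw [dslope_of_ne _ hz0, slope_def_field]
    simp only [zero_mul, sub_zero]
    field_simp

end Pool.Agent.MobConv.T3
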