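import Pool.Agent.Lib.MP_4b1e7e_an.T3.Dil
import Pool.Agent.Lib.MP_4b1e7e_an.T3.SchurA

/-!
# Block T3: the functions `mm`, `aa`, `sg` of a dilation on the closed disc
-/

set_option autoImplicit false

namespace Pool.Agent.MobConv.T3

open Metric ComplexConjugate

variable {f : ℂ → ℂ} {w : ℂ} {r : ℝ}

private theorem smul_mem (hr0 : 0 < r) (hr1 : r < 1) {z : ℂ} (hz : z ∈ closedBall (0 : ℂ) 1) :
    (r : ℂ) * z ∈ ball (0 : ℂ) 1 := by
  rw [mem_closedBall_zero_iff] at hz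
  rw [mem_ball_zero_iff, norm_mul, Complex.norm_real, Real.norm_of_nonneg hr0.le]
  calc r * ‖z‖ ≤ r * 1 := mul_le_mul_of_nonneg_left hz hr0.le
    _ < 1 := by rw [mul_one]; exact hr1

private theorem deriv_comp_r (g : ℂ → ℂ) (z : ℂ) :
    deriv (fun z => g ((r : ℂ) * z)) z = (r : ℂ) * deriv g (r * z) := by
  have h := deriv_comp_mul_left (r : ℂ) g z
  rw [smul_eq_mul] at h
  exact h

private theorem deriv_dil (hr0 : 0 < r) : deriv (dil f r) = fun z => deriv f (r * z) := by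
  have hrC : (r : ℂ) ≠ 0 := by exact_mod_cast hr0.ne'
  funext z
  have h1 : dil f r = fun z => (fun z : ℂ => f (r * z)) z / (r : ℂ) := rfl
  rw [h1, deriv_div_const, deriv_comp_r]
  field_simp

private theorem gg_dil (hr0 : 0 < r) : gg (dil f r) = fun z => (r : ℂ) * gg f (r * z) := by
  funext z
  rw [gg, deriv_dil hr0, deriv_comp_r, gg, mul_div_assoc]

private theorem SS_dil (hr0 : 0 < r) (z : ℂ) :
    SS (dil f r) z = (r : ℂ) ^ 2 * SS f (r * z) := by
  have h1 : deriv (gg (dil f r)) z = (r : ℂ) * ((r : ℂ) * deriv (gg f) (r * z)) := by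
    rw [gg_dil hr0, deriv_const_mul_field, deriv_comp_r]
  rw [SS, h1, gg_dil hr0, SS]
  ring

private theorem kk_dil (hr0 : 0 < r) (z : ℂ) :
    kk (dil f r) (w / r) z = (r : ℂ) * kk f w (r * z) := by
  have hrC : (r : ℂ) ≠ 0 := by exact_mod_cast hr0.ne'
  rw [kk, deriv_dil hr0, kk, dil, ← sub_div, div_div_eq_mul_div]
  ring

theorem dil_notMem (hw : w ∉ f '' ball (0 : ℂ) 1) (hr0 : 0 < r) (hr1 : r < 1) :
    w / r ∉ dil f r '' ball (0 : ℂ) 1 := by
  have hrC : (r : ℂ) ≠ 0 := by exact_mod_cast hr0.ne'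
  rintro ⟨z, hz, hzw⟩
  have h1 : f (r * z) / r = w / r := hzw
  rw [div_left_inj' hrC] at h1
  exact hw ⟨_, smul_mem hr0 hr1 (ball_subset_closedBall hz), h1⟩

/-- On the closed disc `deriv (dil f r) z = deriv f (r z)`, `gg (dil f r) z = r gg f (r z)`,
`SS (dil f r) z = r² SS f (r z)`, `kk (dil f r) (w / r) z = r kk f w (r z)`. -/
theorem dil_cont (hf : IsConvexMap f) (hw : w ∉ f '' ball (0 : ℂ) 1) (hr0 : 0 < r) (hr1 : r < 1) :
    ContinuousOn (mm (dil f r)) (closedBall (0 : ℂ) 1) ∧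
      ContinuousOn (aa (dil f r) (w / r)) (closedBall (0 : ℂ) 1) ∧
      ContinuousOn (sg (dil f r)) (closedBall (0 : ℂ) 1) := by
  have hm : ContinuousOn (fun z : ℂ => (r : ℂ) * z) (closedBall (0 : ℂ) 1) := by fun_prop
  have hmaps : Set.MapsTo (fun z : ℂ => (r : ℂ) * z) (closedBall (0 : ℂ) 1) (ball 0 1) :=
    fun z hz => smul_mem hr0 hr1 hz
  have hpp : Continuous fun z : ℂ => (pp z : ℂ) := by
    unfold pp
    fun_prop
  have hgg : ContinuousOn (gg f) (ball (0 : ℂ) 1) :=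
    fun z hz => (analyticAt_gg hf hz).continuousAt.continuousWithinAt
  have hSS : ContinuousOn (SS f) (ball (0 : ℂ) 1) :=
    fun z hz => (analyticAt_SS hf hz).continuousAt.continuousWithinAt
  have hkk : ContinuousOn (kk f w) (ball (0 : ℂ) 1) := by
    intro z hz
    have h1 : ContinuousAt (deriv f) z := (hf.analyticAt hz).deriv.continuousAt
    have h2 : ContinuousAt f z := (hf.analyticAt hz).continuousAt
    have h3 : w - f z ≠ 0 := fun h => hw ⟨z, hz, (sub_eq_zero.1 h).symm⟩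
    exact (h1.div (continuousAt_const.sub h2) h3).continuousWithinAt
  have hgg' : ContinuousOn (fun z : ℂ => gg f (r * z)) (closedBall (0 : ℂ) 1) :=
    hgg.comp hm hmaps
  have hSS' : ContinuousOn (fun z : ℂ => SS f (r * z)) (closedBall (0 : ℂ) 1) :=
    hSS.comp hm hmaps
  have hkk' : ContinuousOn (fun z : ℂ => kk f w (r * z)) (closedBall (0 : ℂ) 1) :=
    hkk.comp hm hmaps
  have hmm : ContinuousOn (mm (dil f r)) (closedBall (0 : ℂ) 1) := by
    have h1 : mm (dil f r) = fun z : ℂ => (pp z : ℂ) * ((r : ℂ) * gg f (r * z)) / 2 - conj z := by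
      funext z
      rw [mm, gg_dil hr0]
    rw [h1]
    exact ((hpp.continuousOn.mul (continuousOn_const.mul hgg')).div_const 2).sub
      Complex.continuous_conj.continuousOn
  refine ⟨hmm, ?_, ?_⟩
  · have h1 : aa (dil f r) (w / r) =
        fun z : ℂ => mm (dil f r) z + (pp z : ℂ) * ((r : ℂ) * kk f w (r * z)) := by
      funext z
      rw [aa, kk_dil hr0]
    rw [h1]
    exact hmm.add (hpp.continuousOn.mul (continuousOn_const.mul hkk'))
  · have h1 : sg (dil f r) =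
        fun z : ℂ => (pp z : ℂ) ^ 2 * ((r : ℂ) ^ 2 * SS f (r * z)) / 2 := by
      funext z
      rw [sg, SS_dil hr0]
    rw [h1]
    exact ((hpp.continuousOn.pow 2).mul (continuousOn_const.mul hSS')).div_const 2

theorem dil_sphere {z : ℂ} (hz : ‖z‖ = 1) :
    mm (dil f r) z = -conj z ∧ aa (dil f r) (w / r) z = -conj z ∧ sg (dil f r) z = 0 := by
  have h1 : (pp z : ℂ) = 0 := by
    rw [pp, hz]
    norm_num
  have h2 : mm (dil f r) z = -conj z := by
    rw [mm, h1]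
    ring
  refine ⟨h2, ?_, ?_⟩
  · rw [aa, h2, h1]
    ring
  · rw [sg, h1]
    ring

/-- Proof. With `φ = gg f / (2 + z gg f)` at `r z` (`phi_bound`) and `φ₁ = r φ(r z)`, one has
`gg (dil f r) z = 2 φ₁ / (1 - z φ₁)`, `mm (dil f r) z = (φ₁ - conj z) / (1 - z φ₁)` and
`|1 - z φ₁|² - |φ₁ - conj z|² = (1 - |z|²) (1 - |φ₁|²)`, where `|φ₁| ≤ r < 1`. -/
theorem mm_dil_lt (hf : IsConvexMap f) (hr0 : 0 < r) (hr1 : r < 1) {z : ℂ}
    (hz : z ∈ ball (0 : ℂ) 1) : ‖mm (dil f r) z‖ < 1 := by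
  obtain ⟨h1, h2⟩ := phi_bound hf (smul_mem hr0 hr1 (ball_subset_closedBall hz))
  rw [mem_ball_zero_iff] at hz
  have hg : gg (dil f r) z = (r : ℂ) * gg f (r * z) := by rw [gg_dil hr0]
  generalize hG : gg f (r * z) = G at h1 h2 hg
  set φ : ℂ := (r : ℂ) * (G / (2 + r * z * G)) with hφ
  have hφn : ‖φ‖ < 1 := by
    rw [hφ, norm_mul, Complex.norm_real, Real.norm_of_nonneg hr0.le]
    calc r * ‖G / (2 + r * z * G)‖ ≤ r * 1 := mul_le_mul_of_nonneg_left h2 hr0.le
      _ < 1 := by rw [mul_one]; exact hr1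
  have hcan : G / (2 + r * z * G) * (2 + r * z * G) = G := div_mul_cancel₀ G h1
  have hzφ : 1 - z * φ = 2 / (2 + r * z * G) := by
    rw [hφ, eq_div_iff h1]
    linear_combination (-(z * r)) * hcan
  have hne : 1 - z * φ ≠ 0 := by
    rw [hzφ]
    exact div_ne_zero two_ne_zero h1
  have hG' : (r : ℂ) * G * (1 - z * φ) = 2 * φ := by
    rw [hzφ, hφ]
    ring
  have hpp : (pp z : ℂ) = 1 - z * conj z := by
    rw [pp, Complex.mul_conj, Complex.normSq_eq_norm_sq]
    push_cast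
    ring
  have hmm : mm (dil f r) z = (φ - conj z) / (1 - z * φ) := by
    rw [mm, hg, hpp, eq_div_iff hne]
    linear_combination (1 - z * conj z) / 2 * hG'
  rw [hmm, norm_div, div_lt_one (norm_pos_iff.2 hne)]
  have e : ‖1 - z * φ‖ ^ 2 - ‖φ - conj z‖ ^ 2 = (1 - ‖z‖ ^ 2) * (1 - ‖φ‖ ^ 2) := by
    simp only [← Complex.normSq_eq_norm_sq, Complex.normSq_apply, Complex.sub_re, Complex.sub_im,
      Complex.mul_re, Complex.mul_im, Complex.conj_re, Complex.conj_im, Complex.one_re,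
      Complex.one_im]
    ring
  have h3 : 0 < (1 - ‖z‖ ^ 2) * (1 - ‖φ‖ ^ 2) := by
    have h4 := norm_nonneg z
    have h5 := norm_nonneg φ
    exact mul_pos (by nlinarith) (by nlinarith)
  exact lt_of_pow_lt_pow_left₀ 2 (norm_nonneg _) (by linarith)

end Pool.Agent.MobConv.T3
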