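import Pool.Agent.Lib.MP_4b1e7e_an.T3.Defs

/-!
# Block T3: the main inequality
-/

set_option autoImplicit false

namespace Pool.Agent.MobConv.T3

open Metric ComplexConjugate

/-- The exact form of `GG` for the smallest value of `W`. -/
private theorem gg_ident {x y δ s a A D P h : ℝ} (hD : D = 1 - x ^ 2) (hDne : D ≠ 0)
    (hP : P = D - y ^ 2) (hh : h = (A ^ 2 - x ^ 2) / D) (hPne : P ≠ 0) :
    GG x y (P * (δ - 1)) (P * s) a A (2 / P * ((1 - x) * (P * (δ - 1)) ^ 2 + (1 + x) * (P * s) ^ 2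
      - 2 * y * (P * (δ - 1)) * (P * s)) - 2 * P + 2 * x * (P * (δ - 1)) - 2 * y * (P * s)
      + 2 * (P * s) ^ 2 / a) =
    (2 * a ^ 3 - 2 * (1 + P) * a - 2 * A ^ 3 + 2 * (1 + P) * A) +
      P * δ * (2 * a - A * (2 - h) - 4 * (7 / 30) * D + 2 * (7 / 30) * D * δ) +
      y ^ 2 * (2 * A + 4 * (7 / 30 * (1 + x)) * x) +
      7 / 30 * (P * δ + y ^ 2) * (P * δ - 2 * D + y * P * s / a) +
      2 * (7 / 30 * (1 + x)) * P * (1 + x + P / a) * s ^ 2 +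
      P * y * s * (-A * (2 - h) / a - 4 * (7 / 30 * (1 + x)) * δ +
        2 * (7 / 30 * (1 + x)) * (1 - x / a)) := by
  have h1 : 2 / P * ((1 - x) * (P * (δ - 1)) ^ 2 + (1 + x) * (P * s) ^ 2
      - 2 * y * (P * (δ - 1)) * (P * s)) = 2 * P * ((1 - x) * (δ - 1) ^ 2 + (1 + x) * s ^ 2
      - 2 * y * (δ - 1) * s) := by
    field_simp
  have h2 : 2 * A * ((2 - A ^ 2 - x ^ 2) / (2 * (1 - x ^ 2))) = A * (2 - h) := by
    rw [← hD, hh]
    field_simp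
    rw [hD]
    ring
  have h3 : (2 - h) * D = 2 * D - (A ^ 2 - x ^ 2) := by
    rw [hh]
    field_simp
  rw [h1]
  unfold GG XX
  rw [h2]
  have h4 : A * (2 - h) * (P * (δ - 1) - 1 + x ^ 2 - y ^ 2 + y * (P * s) / a) =
      A * (2 - h) * (P * δ + y * (P * s) / a) - 2 * A * (2 * D - (A ^ 2 - x ^ 2)) := by
    rw [← h3, hP, hD]
    ring
  rw [h4]
  clear h1 h2 h3 h4 hh
  subst hP
  subst hD
  ring

private theorem quad {u y s δ : ℝ} (h0 : 0 ≤ δ) (h2 : δ ≤ 2) (hs : s ^ 2 ≤ δ * (2 - δ)) :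
    0 ≤ u ^ 2 * (2 * s ^ 2 + δ ^ 2 / 2) - 4 * u * δ * s * y + 259 / 100 * y ^ 2 := by
  have hf : 0 ≤ 259 / 100 * (8 - 3 * δ) - 16 * δ ^ 2 + 8 * δ ^ 3 := by
    nlinarith [mul_nonneg h0 (sq_nonneg (δ - 1543 / 1000)), sq_nonneg (δ - 1543 / 1000)]
  have hg : 0 ≤ 259 / 100 * (4 * s ^ 2 + δ ^ 2) - 8 * δ ^ 2 * s ^ 2 := by
    rcases le_total (8 * δ ^ 2) (4 * (259 / 100)) with h | h
    · nlinarith [sq_nonneg s, sq_nonneg δ, mul_nonneg (sub_nonneg.2 h) (sq_nonneg s)]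
    · have h5 : (8 * δ ^ 2 - 4 * (259 / 100)) * s ^ 2 ≤
          (8 * δ ^ 2 - 4 * (259 / 100)) * (δ * (2 - δ)) :=
        mul_le_mul_of_nonneg_left hs (by linarith)
      have h6 := mul_nonneg h0 hf
      nlinarith
  nlinarith [sq_nonneg (259 / 100 * y - 2 * u * δ * s), mul_nonneg (sq_nonneg u) hg]

private theorem three {x y s δ P i : ℝ} (hx2 : 0 < 1 - x) (hP : 0 < P)
    (hPD : P ≤ (1 - x) * (1 + x)) (h0 : 0 ≤ δ) (h2 : δ ≤ 2) (hys : |y * s| ≤ 1)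
    (hi : 0 < i) (hi1 : i ≤ 1) :
    -(7 / 30 * (1 - x) / 2 * P * y ^ 2) - 7 / 30 * P * y ^ 2 ≤
      7 / 30 * (P * δ + y ^ 2) * (y * P * s * i) +
        2 * (7 / 30 * (1 + x)) * P * (P * i) * s ^ 2 := by
  have e1 : -1 ≤ (y * s) * i := by
    have := neg_abs_le (y * s)
    rcases le_total 0 (y * s) with h | h
    · linarith [mul_nonneg h hi.le]
    · nlinarith
  have e2 : -(P * y ^ 2) ≤ P * y ^ 2 * ((y * s) * i) := by
    have := mul_le_mul_of_nonneg_left e1 (mul_nonneg hP.le (sq_nonneg y))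
    linarith
  have e3 : -((1 - x) * y ^ 2 / 2) ≤ P * (δ * y * s + 2 * (1 + x) * s ^ 2) := by
    rcases le_total 0 (δ * y * s + 2 * (1 + x) * s ^ 2) with h | h
    · have h7 := mul_nonneg hP.le h
      have h8 := mul_nonneg hx2.le (sq_nonneg y)
      linarith
    · have h7 : (1 - x) * (1 + x) * (δ * y * s + 2 * (1 + x) * s ^ 2) ≤
          P * (δ * y * s + 2 * (1 + x) * s ^ 2) := mul_le_mul_of_nonpos_right hPD h
      have h8 : -(y ^ 2 / 2) ≤ (1 + x) * (δ * y * s + 2 * (1 + x) * s ^ 2) := by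
        have h9 : δ ^ 2 * y ^ 2 ≤ 4 * y ^ 2 :=
          mul_le_mul_of_nonneg_right (by nlinarith) (sq_nonneg y)
        nlinarith [sq_nonneg ((1 + x) * s + δ * y / 4)]
      have h9 := mul_le_mul_of_nonneg_left h8 hx2.le
      linarith
  have e4 : -(P * ((1 - x) * y ^ 2 / 2)) ≤
      P * i * (P * (δ * y * s + 2 * (1 + x) * s ^ 2)) := by
    have h7 := mul_le_mul_of_nonneg_left e3 (mul_pos hP hi).le
    have h8 : P * i * ((1 - x) * y ^ 2 / 2) ≤ P * 1 * ((1 - x) * y ^ 2 / 2) := by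
      apply mul_le_mul_of_nonneg_right (mul_le_mul_of_nonneg_left hi1 hP.le)
      positivity
    linarith
  nlinarith

private theorem inner {y s δ : ℝ} (hs : s ^ 2 ≤ δ * (2 - δ)) :
    |y * s| ≤ δ / 2 + y ^ 2 := by
  rw [abs_le]
  constructor
  · nlinarith [sq_nonneg (y + s / 2), sq_nonneg δ]
  · nlinarith [sq_nonneg (y - s / 2), sq_nonneg δ]

/-- All estimates together except the choice of `K` and the first bracket. -/
private theorem core {x y s δ a A D P h K C : ℝ} (hx2 : 0 < 1 - x)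
    (hD : D = 1 - x ^ 2) (hP : P = D - y ^ 2) (hPp : 0 < P) (h0 : 0 ≤ δ) (h2 : δ ≤ 2)
    (hs : s ^ 2 ≤ δ * (2 - δ)) (ha : 1 ≤ a)
    (hC : C = -A * (2 - h) / a + 2 * (7 / 30 * (1 + x)) * (1 - x / a)) (hK : |C| ≤ K) :
    (2 * a ^ 3 - 2 * (1 + P) * a - 2 * A ^ 3 + 2 * (1 + P) * A) +
      P * δ * (2 * (a - A) + A * h - 6 * (7 / 30) * D + 7 / 30 * δ * (2 * D + P) -
        7 / 30 * (1 + x) ^ 2 / 2 * δ - K / 2) +
      y ^ 2 * (2 * A + 7 / 30 * (1 + x) * (6 * x - 2) + 7 / 30 * P * δ -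
        P * (7 / 30 * (259 / 100) + 7 / 30 * (1 - x) / 2 + 7 / 30 + K)) ≤
    (2 * a ^ 3 - 2 * (1 + P) * a - 2 * A ^ 3 + 2 * (1 + P) * A) +
      P * δ * (2 * a - A * (2 - h) - 4 * (7 / 30) * D + 2 * (7 / 30) * D * δ) +
      y ^ 2 * (2 * A + 4 * (7 / 30 * (1 + x)) * x) +
      7 / 30 * (P * δ + y ^ 2) * (P * δ - 2 * D + y * P * s / a) +
      2 * (7 / 30 * (1 + x)) * P * (1 + x + P / a) * s ^ 2 +
      P * y * s * (-A * (2 - h) / a - 4 * (7 / 30 * (1 + x)) * δ +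
        2 * (7 / 30 * (1 + x)) * (1 - x / a)) := by
  have hys : |y * s| ≤ 1 := by
    rw [← sq_le_one_iff_abs_le_one, mul_pow]
    have h5 : y ^ 2 ≤ 1 := by nlinarith [sq_nonneg x]
    have h6 : s ^ 2 ≤ 1 := by nlinarith [sq_nonneg (δ - 1)]
    nlinarith [sq_nonneg y, sq_nonneg s]
  have hPD : P ≤ (1 - x) * (1 + x) := by nlinarith [sq_nonneg y]
  have t3 := three hx2 hPp hPD h0 h2 hys (inv_pos.2 (by linarith : 0 < a))
    (inv_le_one_of_one_le₀ ha)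
  have t2 := mul_nonneg hPp.le (quad (u := 1 + x) (y := y) h0 h2 hs)
  have t4 : -(P * K * (δ / 2 + y ^ 2)) ≤ P * (y * s * C) := by
    have h5 := inner (y := y) hs
    have h6 : |y * s * C| ≤ (δ / 2 + y ^ 2) * K := by
      rw [abs_mul]
      exact mul_le_mul h5 hK (abs_nonneg _) (by positivity)
    have h7 := neg_abs_le (y * s * C)
    have h8 := mul_le_mul_of_nonneg_left (h7.trans' (neg_le_neg h6)) hPp.le
    linarith
  rw [hC] at t4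
  have hPx : (1 - x) * (1 + x) = P + y ^ 2 := by rw [hP, hD]; ring
  have hD' : D = (1 - x) * (1 + x) := by rw [hD]; ring
  clear hC hK hP hD
  subst hD'
  simp only [div_eq_mul_inv] at t4 t3 t2 ⊢
  linarith

/-- An affine function of `t ∈ [0, c]` which is positive at both ends is positive. -/
private theorem aff {p q t c : ℝ} (h0 : 0 ≤ t) (h1 : t ≤ c) (hp : 0 < p) (hq : 0 < p + q * c) :
    0 < p + q * t := by
  rcases le_or_gt 0 q with h | h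
  · linarith [mul_nonneg h h0]
  · linarith [mul_le_mul_of_nonpos_left h1 h.le]

/-- `|k₀ - k₁ i| ≤ K` if this holds at the ends of an interval which contains `i`. -/
private theorem conv {b z i j K : ℝ} (hj : j ≤ i) (hi : i ≤ 1) (h1 : |b - z| ≤ K)
    (h2 : |b - z * j| ≤ K) : |b - z * i| ≤ K := by
  rw [abs_le] at h1 h2 ⊢
  rcases le_total 0 z with h | h
  · constructor
    · linarith [mul_le_mul_of_nonneg_left hi h]
    · linarith [mul_le_mul_of_nonneg_left hj h]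
  · constructor
    · linarith [mul_le_mul_of_nonpos_left hj h]
    · linarith [mul_le_mul_of_nonpos_left hi h]

/-- Lower bound of the first bracket. -/
private theorem bracket {a A P : ℝ} (ha : 0 < a) (hA : 0 < A) (hP : 0 < P) :
    (3 * A ^ 2 - 1 - P) / A * (a ^ 2 - A ^ 2) ≤
      2 * a ^ 3 - 2 * (1 + P) * a - 2 * A ^ 3 + 2 * (1 + P) * A := by
  have h : 2 * a ^ 3 - 2 * (1 + P) * a - 2 * A ^ 3 + 2 * (1 + P) * A -
      (3 * A ^ 2 - 1 - P) / A * (a ^ 2 - A ^ 2) =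
      (a - A) ^ 2 * (2 * a + A + (1 + P) / A) := by
    field_simp
    ring
  have h2 : 0 ≤ (a - A) ^ 2 * (2 * a + A + (1 + P) / A) := by positivity
  linarith

private theorem case_lt {x y δ a A D P h K : ℝ} (hx : 0 < 1 + x) (hx2 : 0 < 1 - x)
    (hD : D = 1 - x ^ 2) (hP : P = D - y ^ 2) (hPp : 0 < P) (h0 : 0 ≤ δ) (h2 : δ ≤ 2)
    (ha : 1 ≤ a) (hA1 : 1 ≤ A) (haA : a ≤ A) (hh : h = (A ^ 2 - x ^ 2) / D)
    (hE : A ^ 2 - 7 / 30 * (1 + x) * (P * δ + y ^ 2) < a ^ 2)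
    (hY0 : 0 < 2 * A + 7 / 30 * (1 + x) * (6 * x - 2) -
      7 / 30 * (1 + x) * (3 * A ^ 2 - 1) / A)
    (k1 : 0 < Dl x A - K / 2) (k2 : 0 < Dl x A - K / 2 + 7 / 30 * (1 + x) * (1 - 3 * x))
    (k3 : 0 < Yl x A - (1 - x ^ 2) * K)
    (k4 : 0 < Yl x A - (1 - x ^ 2) * K - 2 * (1 - x ^ 2) *
      (2 * (7 / 30 * (1 + x)) / (A + 1) + 7 / 30 * (1 + x) / A - 7 / 30)) :
    0 < (2 * a ^ 3 - 2 * (1 + P) * a - 2 * A ^ 3 + 2 * (1 + P) * A) +
      P * δ * (2 * (a - A) + A * h - 6 * (7 / 30) * D + 7 / 30 * δ * (2 * D + P) -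
        7 / 30 * (1 + x) ^ 2 / 2 * δ - K / 2) +
      y ^ 2 * (2 * A + 7 / 30 * (1 + x) * (6 * x - 2) + 7 / 30 * P * δ -
        P * (7 / 30 * (259 / 100) + 7 / 30 * (1 - x) / 2 + 7 / 30 + K)) := by
  have hb := bracket (a := a) (A := A) (P := P) (by linarith) (by linarith) hPp
  have hPD : P ≤ D := by nlinarith [sq_nonneg y]
  have hD1 : D ≤ 1 := by nlinarith [sq_nonneg x]
  have hq : 0 < (3 * A ^ 2 - 1 - P) / A := by
    apply div_pos _ (by linarith)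
    nlinarith
  have hb2 : -((3 * A ^ 2 - 1 - P) / A * (7 / 30 * (1 + x) * (P * δ + y ^ 2))) <
      (3 * A ^ 2 - 1 - P) / A * (a ^ 2 - A ^ 2) := by
    have := mul_lt_mul_of_pos_left (show -(7 / 30 * (1 + x) * (P * δ + y ^ 2)) < a ^ 2 - A ^ 2 by
      linarith) hq
    linarith
  have hR : 0 ≤ 7 / 30 * (1 + x) * (P * δ + y ^ 2) := by positivity
  have hb3 : -(7 / 30 * (1 + x) * (P * δ + y ^ 2) * (A + 1)⁻¹) ≤ a - A := by
    have h5 : -(a - A) ≤ 7 / 30 * (1 + x) * (P * δ + y ^ 2) / (A + 1) := by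
      rw [le_div_iff₀ (by linarith)]
      nlinarith
    rw [div_eq_mul_inv] at h5
    linarith
  have hDe : D = P + y ^ 2 := by linarith
  have hi1 : (A + 1)⁻¹ ≤ 1 / 2 := by
    rw [inv_le_comm₀ (by linarith) (by norm_num)]
    linarith
  have hi0 : 0 < (A + 1)⁻¹ := by positivity
  -- the coefficient of `P δ`
  have hDl : 0 < A * h - 6 * (7 / 30) * D - 7 / 30 * (1 + x) * (3 * A ^ 2 - 1 - D) * A⁻¹ -
      K / 2 + δ * (7 / 30 * (2 * D + P) - 2 * (7 / 30 * (1 + x)) * P * (A + 1)⁻¹ -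
        7 / 30 * (1 + x) ^ 2 / 2) := by
    have h5 : 0 < Dl x A - K / 2 + 7 / 30 * (1 + x) * (1 - 3 * x) / 2 * δ := by
      apply aff h0 h2 k1
      linarith
    have h6 : 7 / 30 * (1 + x) * (1 - 3 * x) / 2 ≤
        7 / 30 * (2 * D + P) - 2 * (7 / 30 * (1 + x)) * P * (A + 1)⁻¹ -
        7 / 30 * (1 + x) ^ 2 / 2 := by
      have h7 : 2 * (7 / 30 * (1 + x)) * P * (A + 1)⁻¹ ≤
          2 * (7 / 30 * (1 + x)) * P * (1 / 2) :=
        mul_le_mul_of_nonneg_left hi1 (by positivity)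
      have h8 : x * P ≤ D := by
        have := mul_nonneg hx2.le hPp.le
        linarith
      rw [hD] at h8 ⊢
      linarith
    have h9 := mul_le_mul_of_nonneg_left h6 h0
    have h10 : Dl x A = A * h - 6 * (7 / 30) * D -
        7 / 30 * (1 + x) * (3 * A ^ 2 - 1 - D) * A⁻¹ := by
      rw [Dl, hh, hD, div_eq_mul_inv (7 / 30 * (1 + x) * (3 * A ^ 2 - 1 - (1 - x ^ 2)))]
    linarith
  -- the coefficient of `y²`
  have hY : 0 < 2 * A + 7 / 30 * (1 + x) * (6 * x - 2) -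
      7 / 30 * (1 + x) * (3 * A ^ 2 - 1 - P) * A⁻¹ -
      P * (7 / 30 * (259 / 100) + 7 / 30 * (1 - x) / 2 + 7 / 30 + K) -
      P * δ * (2 * (7 / 30 * (1 + x)) * (A + 1)⁻¹ + 7 / 30 * (1 + x) * A⁻¹ - 7 / 30) := by
    have hu : Yl x A = 2 * A + 7 / 30 * (1 + x) * (6 * x - 2) -
        7 / 30 * (1 + x) * (3 * A ^ 2 - 1 - D) * A⁻¹ -
        D * (7 / 30 * (259 / 100) + 7 / 30 * (1 - x) / 2 + 7 / 30) := by
      rw [Yl, hD, div_eq_mul_inv (7 / 30 * (1 + x) * (3 * A ^ 2 - 1 - (1 - x ^ 2)))]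
    rw [← hD, hu] at k3 k4
    simp only [div_eq_mul_inv] at hY0 k4
    have e0 := aff hPp.le hPD hY0 (q := 7 / 30 * (1 + x) * A⁻¹ -
      (7 / 30 * (259 / 100) + 7 / 30 * (1 - x) / 2 + 7 / 30 + K)) (by linarith)
    have e1 := aff hPp.le hPD hY0 (q := 7 / 30 * (1 + x) * A⁻¹ -
      (7 / 30 * (259 / 100) + 7 / 30 * (1 - x) / 2 + 7 / 30 + K) -
      2 * (2 * (7 / 30 * (1 + x)) * (A + 1)⁻¹ + 7 / 30 * (1 + x) * A⁻¹ - 7 / 30))
      (by linarith)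
    have e2 := aff h0 h2 e0 (q := - P *
      (2 * (7 / 30 * (1 + x)) * (A + 1)⁻¹ + 7 / 30 * (1 + x) * A⁻¹ - 7 / 30)) (by linarith)
    linarith
  have f1 := mul_nonneg (sq_nonneg y) hY.le
  have f2 := mul_nonneg (mul_nonneg hPp.le h0) hDl.le
  have f3 := mul_le_mul_of_nonneg_left hb3 (mul_nonneg (mul_nonneg hPp.le h0) zero_le_two)
  rw [div_eq_mul_inv] at hb hb2
  clear hD hP
  subst hDe
  linarith

private theorem case_ge {x y δ a A D P h K : ℝ} (hx : 0 < 1 + x) (hx2 : 0 < 1 - x)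
    (hD : D = 1 - x ^ 2) (hP : P = D - y ^ 2) (hPp : 0 < P) (h0 : 0 ≤ δ) (h2 : δ ≤ 2)
    (hA1 : 1 ≤ A) (haA : A < a) (hh : h = (A ^ 2 - x ^ 2) / D)
    (k0 : 2 * (7 / 30 * (1 + x)) ≤ K)
    (k1 : 0 < A * ((A ^ 2 - x ^ 2) / (1 - x ^ 2)) - 6 * (7 / 30) * (1 - x ^ 2) - K / 2)
    (k2 : 0 < A * ((A ^ 2 - x ^ 2) / (1 - x ^ 2)) - 6 * (7 / 30) * (1 - x ^ 2) - K / 2 +
      7 / 30 * (1 + x) * (1 - 3 * x))
    (k3 : 0 < 2 * A + 7 / 30 * (1 + x) * (6 * x - 2) -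
      (1 - x ^ 2) * (7 / 30 * (259 / 100) + 7 / 30 * (1 - x) / 2 + 7 / 30) -
      (1 - x ^ 2) * K) :
    0 < (2 * a ^ 3 - 2 * (1 + P) * a - 2 * A ^ 3 + 2 * (1 + P) * A) +
      P * δ * (2 * (a - A) + A * h - 6 * (7 / 30) * D + 7 / 30 * δ * (2 * D + P) -
        7 / 30 * (1 + x) ^ 2 / 2 * δ - K / 2) +
      y ^ 2 * (2 * A + 7 / 30 * (1 + x) * (6 * x - 2) + 7 / 30 * P * δ -
        P * (7 / 30 * (259 / 100) + 7 / 30 * (1 - x) / 2 + 7 / 30 + K)) := by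
  have hb := bracket (a := a) (A := A) (P := P) (by linarith) (by linarith) hPp
  have hPD : P ≤ D := by nlinarith [sq_nonneg y]
  have hD1 : D ≤ 1 := by nlinarith [sq_nonneg x]
  have hq : 0 < (3 * A ^ 2 - 1 - P) / A := by
    apply div_pos _ (by linarith)
    nlinarith
  have hb2 : 0 < (3 * A ^ 2 - 1 - P) / A * (a ^ 2 - A ^ 2) := by
    apply mul_pos hq
    nlinarith
  rw [← hD, ← hh] at k1 k2
  rw [← hD] at k3
  have hDl : 0 < A * h - 6 * (7 / 30) * D - K / 2 + δ * (7 / 30 * (2 * D + P) -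
        7 / 30 * (1 + x) ^ 2 / 2) := by
    have h5 : 0 < A * h - 6 * (7 / 30) * D - K / 2 +
        7 / 30 * (1 + x) * (1 - 3 * x) / 2 * δ := by
      apply aff h0 h2 k1
      linarith
    have h6 : 7 / 30 * (1 + x) * (1 - 3 * x) / 2 ≤
        7 / 30 * (2 * D + P) - 7 / 30 * (1 + x) ^ 2 / 2 := by
      have h8 := mul_pos hx hx2
      rw [hD]
      linarith
    have h9 := mul_le_mul_of_nonneg_left h6 h0
    linarith
  have hK : 0 ≤ 7 / 30 * (259 / 100) + 7 / 30 * (1 - x) / 2 + 7 / 30 + K := by linarith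
  have hY : 0 < 2 * A + 7 / 30 * (1 + x) * (6 * x - 2) + 7 / 30 * P * δ -
      P * (7 / 30 * (259 / 100) + 7 / 30 * (1 - x) / 2 + 7 / 30 + K) := by
    have f1 := mul_le_mul_of_nonneg_right hPD hK
    have f2 := mul_nonneg hPp.le h0
    linarith
  have f1 := mul_nonneg (sq_nonneg y) hY.le
  have f2 := mul_nonneg (mul_nonneg hPp.le h0) hDl.le
  have f3 := mul_nonneg (mul_nonneg hPp.le h0) (sub_pos.2 haA).le
  linarith

theorem main_ineq {x y S τ a A W : ℝ} (h1 : -1 < x) (h2 : x < 1) (hA : YD x A)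
    (hP : 0 < 1 - x ^ 2 - y ^ 2) (hS : S ^ 2 + τ ^ 2 ≤ (1 - x ^ 2 - y ^ 2) ^ 2) (ha : 0 < a)
    (hE : A ^ 2 - 7 / 30 * (1 + x) * (1 - x ^ 2 + S) < a ^ 2)
    (hW : 2 / (1 - x ^ 2 - y ^ 2) * ((1 - x) * S ^ 2 + (1 + x) * τ ^ 2 - 2 * y * S * τ) -
      2 * (1 - x ^ 2 - y ^ 2) + 2 * x * S - 2 * y * τ + 2 * τ ^ 2 / a ≤ W) :
    0 < GG x y S τ a A W := by
  obtain ⟨P, hPd⟩ : ∃ P, P = 1 - x ^ 2 - y ^ 2 := ⟨_, rfl⟩
  obtain ⟨D, hD⟩ : ∃ D, D = 1 - x ^ 2 := ⟨_, rfl⟩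
  rw [← hPd] at hP hS hW
  obtain ⟨δ, hδ⟩ : ∃ δ, δ = S / P + 1 := ⟨_, rfl⟩
  obtain ⟨s, hs⟩ : ∃ s, s = τ / P := ⟨_, rfl⟩
  have hS1 : S = P * (δ - 1) := by rw [hδ]; field_simp; ring
  have hτ1 : τ = P * s := by rw [hs]; field_simp
  have hs2 : s ^ 2 ≤ δ * (2 - δ) := by
    have h5 : P ^ 2 * ((δ - 1) ^ 2 + s ^ 2) ≤ P ^ 2 * 1 := by
      rw [hS1, hτ1] at hS
      linarith
    have h6 := le_of_mul_le_mul_left h5 (by positivity)
    linarith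
  have hδ0 : 0 ≤ δ := by nlinarith [sq_nonneg s]
  have hδ2 : δ ≤ 2 := by nlinarith [sq_nonneg s]
  have hPD : P = D - y ^ 2 := by rw [hPd, hD]
  have hDp : 0 < D := by nlinarith [sq_nonneg y]
  -- `GG` is increasing in `W`
  have hmono : GG x y S τ a A (2 / P * ((1 - x) * S ^ 2 + (1 + x) * τ ^ 2 - 2 * y * S * τ) -
      2 * P + 2 * x * S - 2 * y * τ + 2 * τ ^ 2 / a) ≤ GG x y S τ a A W := by
    unfold GG
    have h5 : 0 ≤ 7 / 30 * (1 + x) := by linarith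
    have h6 := mul_le_mul_of_nonneg_left hW h5
    linarith
  refine lt_of_lt_of_le ?_ hmono
  obtain ⟨h, hh⟩ : ∃ h, h = (A ^ 2 - x ^ 2) / D := ⟨_, rfl⟩
  rw [hS1, hτ1, gg_ident hD hDp.ne' hPD hh hP.ne']
  have hE' : A ^ 2 - 7 / 30 * (1 + x) * (P * δ + y ^ 2) < a ^ 2 := by
    have h5 : 1 - x ^ 2 + S = P * δ + y ^ 2 := by rw [hS1, hPd]; ring
    rw [← h5]
    exact hE
  have hx : 0 < 1 + x := by linarith
  have hx2 : 0 < 1 - x := by linarith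
  have hR : P * δ + y ^ 2 ≤ 2 * D := by nlinarith [sq_nonneg y]
  have ha1 : 1 ≤ a := by
    have h5 := hA.T
    rw [← hD] at h5
    have h6 : 7 / 30 * (1 + x) * (P * δ + y ^ 2) ≤ 7 / 30 * (1 + x) * (2 * D) :=
      mul_le_mul_of_nonneg_left hR (by linarith)
    have h7 : 1 ≤ a ^ 2 := by linarith
    nlinarith
  have hZ : ZZ x A = A * (2 - h) + 2 * (7 / 30 * (1 + x)) * x := by rw [ZZ, hh, hD]
  have hCe : -A * (2 - h) / a + 2 * (7 / 30 * (1 + x)) * (1 - x / a) =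
      2 * (7 / 30 * (1 + x)) - ZZ x A * a⁻¹ := by
    rw [hZ, div_eq_mul_inv, div_eq_mul_inv]
    ring
  rcases le_or_gt a A with haA | haA
  · obtain ⟨K, e1, e2, e3, e4, e5, e6⟩ := hA.ex
    refine lt_of_lt_of_le (case_lt hx hx2 hD hPD hP hδ0 hδ2 ha1 hA.oneA haA hh hE' hA.Y0
      e3 e4 e5 e6) (core hx2 hD hPD hP hδ0 hδ2 hs2 ha1 rfl ?_)
    rw [hCe]
    exact conv (inv_anti₀ ha haA) (inv_le_one_of_one_le₀ ha1) e1
      (by rw [← div_eq_mul_inv]; exact e2)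
  · obtain ⟨K, e1, e2, e3, e4, e5⟩ := hA.ex'
    refine lt_of_lt_of_le (case_ge hx hx2 hD hPD hP hδ0 hδ2 hA.oneA haA hh e2
      e3 e4 e5) (core hx2 hD hPD hP hδ0 hδ2 hs2 ha1 rfl ?_)
    rw [hCe]
    refine conv (inv_pos.2 ha).le (inv_le_one_of_one_le₀ ha1) e1 ?_
    rw [mul_zero, sub_zero, abs_of_nonneg (by linarith)]
    exact e2

end Pool.Agent.MobConv.T3
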