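import Pool.Agent.Lib.MP_4b1e7e_an.T3.Auto

/-!
# Block T3: the Koebe transforms of a convex map are convex maps
-/

set_option autoImplicit false

namespace Pool.Agent.MobConv.T3

open Metric ComplexConjugate

variable {f : ℂ → ℂ} {z₀ e : ℂ}

private theorem ka_e_ne (he : ‖e‖ = 1) : e ≠ 0 := by
  rintro rfl
  simp at he

private theorem ka_pp_ne (hz₀ : z₀ ∈ ball (0 : ℂ) 1) : (pp z₀ : ℂ) ≠ 0 :=
  Complex.ofReal_ne_zero.2 (pp_pos hz₀).ne'

private theorem ka_c_ne (hf : IsConvexMap f) (hz₀ : z₀ ∈ ball (0 : ℂ) 1) (he : ‖e‖ = 1) :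
    (pp z₀ : ℂ) * e * deriv f z₀ ≠ 0 :=
  mul_ne_zero (mul_ne_zero (ka_pp_ne hz₀) (ka_e_ne he)) (hf.deriv_ne hz₀)

/-- The derivative of the Koebe transform. -/
theorem hasDerivAt_koebe (hf : IsConvexMap f) (hz₀ : z₀ ∈ ball (0 : ℂ) 1) (he : ‖e‖ = 1) {ζ : ℂ}
    (hζ : ζ ∈ ball (0 : ℂ) 1) :
    HasDerivAt (koebe f z₀ e)
      (deriv f (TT z₀ e ζ) / (deriv f z₀ * (1 + conj z₀ * (e * ζ)) ^ 2)) ζ := by
  have h1 : HasDerivAt f (deriv f (TT z₀ e ζ)) (TT z₀ e ζ) :=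
    (hf.analyticAt (TT_mem hz₀ he hζ)).differentiableAt.hasDerivAt
  have h2 := h1.comp ζ (hasDerivAt_TT hz₀ he hζ)
  have h3 := (h2.sub_const (f z₀)).div_const ((pp z₀ : ℂ) * e * deriv f z₀)
  have hpp := ka_pp_ne hz₀
  have hen := ka_e_ne he
  have hdn := hf.deriv_ne hz₀
  have hden := TT_den hz₀ he hζ
  have e1 : deriv f (TT z₀ e ζ) * ((pp z₀ : ℂ) * e / (1 + conj z₀ * (e * ζ)) ^ 2) /
      ((pp z₀ : ℂ) * e * deriv f z₀)
      = deriv f (TT z₀ e ζ) / (deriv f z₀ * (1 + conj z₀ * (e * ζ)) ^ 2) := by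
    have hden2 := pow_ne_zero 2 hden
    rw [div_eq_div_iff (mul_ne_zero (mul_ne_zero hpp hen) hdn) (mul_ne_zero hdn hden2)]
    rw [mul_div_assoc', div_mul_eq_mul_div, div_eq_iff hden2]
    ring
  rw [e1] at h3
  exact h3

/-- The image of `koebe f z₀ e` is the image of `f` under an affine map. -/
theorem koebe_convexMap (hf : IsConvexMap f) (hz₀ : z₀ ∈ ball (0 : ℂ) 1) (he : ‖e‖ = 1) :
    IsConvexMap (koebe f z₀ e) := by
  have hc := ka_c_ne hf hz₀ he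
  refine ⟨?_, ?_, ?_, ?_, ?_⟩
  · intro ζ hζ
    exact (hasDerivAt_koebe hf hz₀ he hζ).differentiableAt.differentiableWithinAt
  · intro a ha b hb hab
    unfold koebe at hab
    have h1 := (div_left_inj' hc).1 hab
    have h2 : f (TT z₀ e a) = f (TT z₀ e b) := sub_left_injective h1
    exact TT_inj hz₀ he ha hb (hf.inj (TT_mem hz₀ he ha) (TT_mem hz₀ he hb) h2)
  · unfold koebe
    rw [TT_zero, sub_self, zero_div]
  · rw [(hasDerivAt_koebe hf hz₀ he (mem_ball_self one_pos)).deriv, TT_zero, mul_zero, mul_zero,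
      add_zero, one_pow, mul_one, div_self (hf.deriv_ne hz₀)]
  · have himg : koebe f z₀ e '' ball (0 : ℂ) 1
        = (LinearMap.mulLeft ℝ ((pp z₀ : ℂ) * e * deriv f z₀)⁻¹) ''
          ((fun x => -f z₀ + x) '' (f '' ball (0 : ℂ) 1)) := by
      ext y
      constructor
      · rintro ⟨ζ, hζ, rfl⟩
        refine ⟨_, ⟨_, ⟨TT z₀ e ζ, TT_mem hz₀ he hζ, rfl⟩, rfl⟩, ?_⟩
        rw [LinearMap.mulLeft_apply]
        unfold koebe
        rw [div_eq_inv_mul]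
        ring
      · rintro ⟨_, ⟨_, ⟨z, hz, rfl⟩, rfl⟩, rfl⟩
        rw [← TT_image hz₀ he] at hz
        obtain ⟨ζ, hζ, rfl⟩ := hz
        refine ⟨ζ, hζ, ?_⟩
        rw [LinearMap.mulLeft_apply]
        unfold koebe
        rw [div_eq_inv_mul]
        ring
    rw [himg]
    exact (hf.convex.translate (-f z₀)).linear_image _

theorem koebe_notMem (hf : IsConvexMap f) (hz₀ : z₀ ∈ ball (0 : ℂ) 1) (he : ‖e‖ = 1) {w : ℂ}
    (hw : w ∉ f '' ball (0 : ℂ) 1) :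
    (w - f z₀) / ((pp z₀ : ℂ) * e * deriv f z₀) ∉ koebe f z₀ e '' ball (0 : ℂ) 1 := by
  rintro ⟨ζ, hζ, hk⟩
  unfold koebe at hk
  have h1 := (div_left_inj' (ka_c_ne hf hz₀ he)).1 hk
  have h2 : f (TT z₀ e ζ) = w := sub_left_injective h1
  exact hw ⟨TT z₀ e ζ, TT_mem hz₀ he hζ, h2⟩

end Pool.Agent.MobConv.T3
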