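import Pool.Agent.Lib.MP_4b1e7e_an.T3.KoebeA

/-!
# Block T3: transformation of `mm`, `aa`, `sg`, `Phi` under the automorphisms
-/

set_option autoImplicit false

namespace Pool.Agent.MobConv.T3

open Metric ComplexConjugate

variable {f : ℂ → ℂ} {z₀ e : ℂ}

private theorem kb_e_ne (he : ‖e‖ = 1) : e ≠ 0 := by
  rintro rfl
  simp at he

private theorem kb_ee (he : ‖e‖ = 1) : e * conj e = 1 := by
  rw [Complex.mul_conj', he]
  norm_num

private theorem kb_pp (z : ℂ) : ((pp z : ℝ) : ℂ) = 1 - conj z * z := by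
  unfold pp
  push_cast
  rw [Complex.conj_mul']

private theorem kb_q (ζ : ℂ) :
    HasDerivAt (fun x : ℂ => 1 + conj z₀ * (e * x)) (conj z₀ * e) ζ := by
  have := ((hasDerivAt_id ζ).const_mul (conj z₀ * e)).const_add 1
  simpa [mul_assoc] using this

/-- The second derivative of the Koebe transform. -/
private theorem kb_dd (hf : IsConvexMap f) (hz₀ : z₀ ∈ ball (0 : ℂ) 1) (he : ‖e‖ = 1) {ζ : ℂ}
    (hζ : ζ ∈ ball (0 : ℂ) 1) :
    HasDerivAt (fun x => deriv f (TT z₀ e x) / (deriv f z₀ * (1 + conj z₀ * (e * x)) ^ 2))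
      (deriv (deriv f) (TT z₀ e ζ) * ((pp z₀ : ℂ) * e / (1 + conj z₀ * (e * ζ)) ^ 2) /
        (deriv f z₀ * (1 + conj z₀ * (e * ζ)) ^ 2) -
        2 * (conj z₀ * e) * deriv f (TT z₀ e ζ) /
        (deriv f z₀ * (1 + conj z₀ * (e * ζ)) ^ 3)) ζ := by
  have hden := TT_den hz₀ he hζ
  have hd0 := hf.deriv_ne hz₀
  have hT := TT_mem hz₀ he hζ
  have h1 : HasDerivAt (deriv f) (deriv (deriv f) (TT z₀ e ζ)) (TT z₀ e ζ) :=
    (hf.analyticAt hT).deriv.differentiableAt.hasDerivAt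
  have h2 : HasDerivAt (fun x => deriv f (TT z₀ e x)) _ ζ :=
    h1.comp ζ (hasDerivAt_TT hz₀ he hζ)
  have h4 : HasDerivAt (fun x => deriv f z₀ * (1 + conj z₀ * (e * x)) ^ 2) _ ζ :=
    ((kb_q (z₀ := z₀) (e := e) ζ).pow 2).const_mul (deriv f z₀)
  refine (h2.div h4 (mul_ne_zero hd0 (pow_ne_zero 2 hden))).congr_deriv ?_
  generalize 1 + conj z₀ * (e * ζ) = q at *
  generalize deriv (deriv f) (TT z₀ e ζ) = a2
  generalize deriv f (TT z₀ e ζ) = a1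
  generalize deriv f z₀ = d at *
  generalize conj z₀ = c
  push_cast
  field_simp

/-- `gg` of the Koebe transform. -/
private theorem kb_gg (hf : IsConvexMap f) (hz₀ : z₀ ∈ ball (0 : ℂ) 1) (he : ‖e‖ = 1) {ζ : ℂ}
    (hζ : ζ ∈ ball (0 : ℂ) 1) :
    gg (koebe f z₀ e) ζ = gg f (TT z₀ e ζ) * ((pp z₀ : ℂ) * e / (1 + conj z₀ * (e * ζ)) ^ 2) -
      2 * (conj z₀ * e) / (1 + conj z₀ * (e * ζ)) := by
  have hden := TT_den hz₀ he hζ
  have hd0 := hf.deriv_ne hz₀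
  have hT := TT_mem hz₀ he hζ
  have hdT := hf.deriv_ne hT
  have hev : deriv (koebe f z₀ e) =ᶠ[nhds ζ]
      fun x => deriv f (TT z₀ e x) / (deriv f z₀ * (1 + conj z₀ * (e * x)) ^ 2) := by
    filter_upwards [isOpen_ball.mem_nhds hζ] with x hx
    exact (hasDerivAt_koebe hf hz₀ he hx).deriv
  have h6 : deriv (deriv (koebe f z₀ e)) ζ = _ := hev.deriv_eq.trans (kb_dd hf hz₀ he hζ).deriv
  unfold gg
  rw [h6, hev.eq_of_nhds]
  generalize 1 + conj z₀ * (e * ζ) = q at *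
  generalize deriv (deriv f) (TT z₀ e ζ) = a2
  generalize deriv f (TT z₀ e ζ) = a1 at *
  generalize deriv f z₀ = d at *
  generalize conj z₀ = c
  generalize (pp z₀ : ℂ) = p
  field_simp

/-- The Schwarzian of the Koebe transform. -/
private theorem kb_SS (hf : IsConvexMap f) (hz₀ : z₀ ∈ ball (0 : ℂ) 1) (he : ‖e‖ = 1) {ζ : ℂ}
    (hζ : ζ ∈ ball (0 : ℂ) 1) :
    SS (koebe f z₀ e) ζ =
      SS f (TT z₀ e ζ) * ((pp z₀ : ℂ) * e / (1 + conj z₀ * (e * ζ)) ^ 2) ^ 2 := by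
  have hden := TT_den hz₀ he hζ
  have hT := TT_mem hz₀ he hζ
  have hev : gg (koebe f z₀ e) =ᶠ[nhds ζ] fun x => gg f (TT z₀ e x) *
      ((pp z₀ : ℂ) * e / (1 + conj z₀ * (e * x)) ^ 2) -
      2 * (conj z₀ * e) / (1 + conj z₀ * (e * x)) := by
    filter_upwards [isOpen_ball.mem_nhds hζ] with x hx
    exact kb_gg hf hz₀ he hx
  have h1 : HasDerivAt (gg f) (deriv (gg f) (TT z₀ e ζ)) (TT z₀ e ζ) :=
    (analyticAt_gg hf hT).differentiableAt.hasDerivAt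
  have h2 : HasDerivAt (fun x => gg f (TT z₀ e x)) _ ζ :=
    h1.comp ζ (hasDerivAt_TT hz₀ he hζ)
  have hq := kb_q (z₀ := z₀) (e := e) ζ
  have h3 : HasDerivAt (fun x => (pp z₀ : ℂ) * e / (1 + conj z₀ * (e * x)) ^ 2) _ ζ :=
    (hasDerivAt_const ζ ((pp z₀ : ℂ) * e)).div (hq.pow 2) (pow_ne_zero 2 hden)
  have h4 : HasDerivAt (fun x => 2 * (conj z₀ * e) / (1 + conj z₀ * (e * x))) _ ζ :=
    (hasDerivAt_const ζ (2 * (conj z₀ * e))).div hq hden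
  have h5 : deriv (gg (koebe f z₀ e)) ζ = _ := hev.deriv_eq.trans ((h2.mul h3).sub h4).deriv
  unfold SS
  rw [h5, hev.eq_of_nhds]
  generalize 1 + conj z₀ * (e * ζ) = q at *
  generalize deriv (gg f) (TT z₀ e ζ) = a2
  generalize gg f (TT z₀ e ζ) = a1 at *
  generalize conj z₀ = c
  generalize (pp z₀ : ℂ) = p
  push_cast
  field_simp
  ring

/-- `kk` of the Koebe transform. -/
private theorem kb_kk (hf : IsConvexMap f) (hz₀ : z₀ ∈ ball (0 : ℂ) 1) (he : ‖e‖ = 1) {w : ℂ}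
    (hw : w ∉ f '' ball (0 : ℂ) 1) {ζ : ℂ} (hζ : ζ ∈ ball (0 : ℂ) 1) :
    kk (koebe f z₀ e) ((w - f z₀) / ((pp z₀ : ℂ) * e * deriv f z₀)) ζ =
      kk f w (TT z₀ e ζ) * ((pp z₀ : ℂ) * e / (1 + conj z₀ * (e * ζ)) ^ 2) := by
  have hden := TT_den hz₀ he hζ
  have hd0 := hf.deriv_ne hz₀
  have hp : (pp z₀ : ℂ) ≠ 0 := Complex.ofReal_ne_zero.2 (pp_pos hz₀).ne'
  have hen := kb_e_ne he
  have hwT : w - f (TT z₀ e ζ) ≠ 0 := by
    intro h
    exact hw ⟨TT z₀ e ζ, TT_mem hz₀ he hζ, (sub_eq_zero.1 h).symm⟩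
  unfold kk
  rw [(hasDerivAt_koebe hf hz₀ he hζ).deriv]
  unfold koebe
  rw [← sub_div, sub_sub_sub_cancel_right]
  generalize 1 + conj z₀ * (e * ζ) = q at *
  generalize deriv f (TT z₀ e ζ) = a1 at *
  generalize w - f (TT z₀ e ζ) = y at *
  generalize deriv f z₀ = d at *
  generalize (pp z₀ : ℂ) = p at *
  field_simp

/-- Proof. Let `F = koebe f z₀ e`, `T = TT z₀ e`, `q = 1 + conj z₀ e ζ`, `T' = pp z₀ e / q²`.
Near `ζ` `F' = f'(T) / (f'(z₀) q²)`, hence `gg F = gg f (T) T' - 2 conj z₀ e / q` on the disc,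
`SS F = SS f (T) T' ^ 2`, `kk F w' = kk f w (T) T'` for `w' = (w - f z₀) / (pp z₀ e f'(z₀))`. By
`pp_TT`, `pp ζ T' = u pp (T)` with `u = T' / |T'|`, i.e. `u = e |q|² / q² = e conj q / q`; and
`pp ζ conj z₀ e / q + conj ζ = u conj (T ζ)`. -/
theorem koebe_trans (hf : IsConvexMap f) (hz₀ : z₀ ∈ ball (0 : ℂ) 1) (he : ‖e‖ = 1) {w : ℂ}
    (hw : w ∉ f '' ball (0 : ℂ) 1) {ζ : ℂ} (hζ : ζ ∈ ball (0 : ℂ) 1) :
    ∃ u : ℂ, ‖u‖ = 1 ∧ (ζ = 0 → u = e) ∧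
      mm (koebe f z₀ e) ζ = u * mm f (TT z₀ e ζ) ∧
      aa (koebe f z₀ e) ((w - f z₀) / ((pp z₀ : ℂ) * e * deriv f z₀)) ζ =
        u * aa f w (TT z₀ e ζ) ∧
      sg (koebe f z₀ e) ζ = u ^ 2 * sg f (TT z₀ e ζ) := by
  have hden := TT_den hz₀ he hζ
  have hee := kb_ee he
  have hcq : conj (1 + conj z₀ * (e * ζ)) ≠ 0 := (map_ne_zero _).2 hden
  set u : ℂ := e * conj (1 + conj z₀ * (e * ζ)) / (1 + conj z₀ * (e * ζ)) with hu
  -- `pp ζ T' = u pp T`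
  have hpT : (pp (TT z₀ e ζ) : ℂ) = (pp z₀ : ℂ) * (pp ζ : ℂ) /
      ((1 + conj z₀ * (e * ζ)) * conj (1 + conj z₀ * (e * ζ))) := by
    rw [pp_TT hz₀ he hζ, Complex.mul_conj']
    push_cast
    rfl
  have hA : (pp ζ : ℂ) * ((pp z₀ : ℂ) * e / (1 + conj z₀ * (e * ζ)) ^ 2) =
      u * (pp (TT z₀ e ζ) : ℂ) := by
    rw [hpT, hu]
    generalize conj (1 + conj z₀ * (e * ζ)) = q' at *
    generalize 1 + conj z₀ * (e * ζ) = q at *
    field_simp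
  have hB : (pp ζ : ℂ) * (conj z₀ * e) / (1 + conj z₀ * (e * ζ)) + conj ζ =
      u * conj (TT z₀ e ζ) := by
    have hT : conj (TT z₀ e ζ) = (conj e * conj ζ + conj z₀) / conj (1 + conj z₀ * (e * ζ)) := by
      unfold TT
      rw [map_div₀, map_add, map_mul]
    rw [hT, hu, kb_pp]
    have h1 : e * conj (1 + conj z₀ * (e * ζ)) / (1 + conj z₀ * (e * ζ)) *
        ((conj e * conj ζ + conj z₀) / conj (1 + conj z₀ * (e * ζ))) =
        e * (conj e * conj ζ + conj z₀) / (1 + conj z₀ * (e * ζ)) := by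
      generalize conj (1 + conj z₀ * (e * ζ)) = q' at *
      generalize 1 + conj z₀ * (e * ζ) = q at *
      field_simp
    rw [h1, div_add' _ _ _ hden]
    congr 1
    linear_combination (-conj ζ) * hee
  have hmm : mm (koebe f z₀ e) ζ = u * mm f (TT z₀ e ζ) := by
    unfold mm
    rw [kb_gg hf hz₀ he hζ]
    linear_combination (gg f (TT z₀ e ζ) / 2) * hA - hB
  refine ⟨u, ?_, ?_, hmm, ?_, ?_⟩
  · rw [hu, norm_div, norm_mul, he, one_mul, Complex.norm_conj, div_self (norm_ne_zero_iff.2 hden)]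
  · rintro rfl
    rw [hu]
    simp
  · unfold aa
    rw [hmm, kb_kk hf hz₀ he hw hζ]
    linear_combination (kk f w (TT z₀ e ζ)) * hA
  · unfold sg
    rw [kb_SS hf hz₀ he hζ]
    linear_combination (SS f (TT z₀ e ζ) / 2) *
      ((pp ζ : ℂ) * ((pp z₀ : ℂ) * e / (1 + conj z₀ * (e * ζ)) ^ 2) +
      u * (pp (TT z₀ e ζ) : ℂ)) * hA

/-- `xx`, `Sr`, hence `Phi`, do not change under `m ↦ u m`, `a ↦ u a`, `σ ↦ u² σ`, `|u| = 1`. -/
theorem Phi_koebe (hf : IsConvexMap f) (hz₀ : z₀ ∈ ball (0 : ℂ) 1) (he : ‖e‖ = 1) {w : ℂ}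
    (hw : w ∉ f '' ball (0 : ℂ) 1) {ζ : ℂ} (hζ : ζ ∈ ball (0 : ℂ) 1) :
    Phi (koebe f z₀ e) ((w - f z₀) / ((pp z₀ : ℂ) * e * deriv f z₀)) ζ =
      Phi f w (TT z₀ e ζ) := by
  obtain ⟨u, hu, -, hm, ha, hs⟩ := koebe_trans hf hz₀ he hw hζ
  have huu : u * conj u = 1 := kb_ee hu
  have hx : xx (koebe f z₀ e) ((w - f z₀) / ((pp z₀ : ℂ) * e * deriv f z₀)) ζ =
      xx f w (TT z₀ e ζ) := by
    unfold xx
    rw [hm, ha, norm_mul, hu, one_mul, map_mul]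
    congr 2
    linear_combination (mm f (TT z₀ e ζ) * conj (aa f w (TT z₀ e ζ))) * huu
  have hS : Sr (koebe f z₀ e) ((w - f z₀) / ((pp z₀ : ℂ) * e * deriv f z₀)) ζ =
      Sr f w (TT z₀ e ζ) := by
    unfold Sr
    rw [hs, ha, norm_mul, hu, one_mul, map_mul]
    congr 2
    linear_combination (sg f (TT z₀ e ζ) * conj (aa f w (TT z₀ e ζ)) ^ 2 *
      (u * conj u + 1)) * huu
  unfold Phi
  rw [hx, hS, ha, norm_mul, hu, one_mul]

end Pool.Agent.MobConv.T3
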