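import Pool.Agent.Lib.MP_4b1e7e_an.T3.NoMax
import Pool.Agent.Lib.MP_4b1e7e_an.T3.KoebeB
import Pool.Agent.Lib.MP_4b1e7e_an.T3.DilB

/-!
# Block T3: the maximum principle
-/

set_option autoImplicit false

namespace Pool.Agent.MobConv.T3

open Metric ComplexConjugate

/-- `xx` at the origin when `aa` is positive. -/
theorem xx_zero_of_pos {F : ℂ → ℂ} {w : ℂ} {α : ℝ} (hα : 0 < α) (ha : aa F w 0 = (α : ℂ)) :
    xx F w 0 = (mm F 0).re := by
  unfold xx
  rw [ha, Complex.conj_ofReal, Complex.norm_real, Real.norm_eq_abs, abs_of_pos hα,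
    Complex.re_mul_ofReal]
  field_simp

/-- `Sr` at the origin when `aa` is positive. -/
theorem Sr_zero_of_pos {F : ℂ → ℂ} {w : ℂ} {α : ℝ} (hα : 0 < α) (ha : aa F w 0 = (α : ℂ)) :
    Sr F w 0 = (sg F 0).re := by
  unfold Sr
  rw [ha, Complex.conj_ofReal, Complex.norm_real, Real.norm_eq_abs, abs_of_pos hα,
    ← Complex.ofReal_pow, Complex.re_mul_ofReal]
  field_simp

/-- Where `Phi` is positive (and `aa` is positive) one has `1 < aa`. -/
theorem one_lt_of_Phi_pos {F : ℂ → ℂ} {w : ℂ} (hF : IsConvexMap F) {α : ℝ} (hα : 0 < α)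
    (ha : aa F w 0 = (α : ℂ)) (hm : ‖mm F 0‖ < 1) (hPhi : 0 < Phi F w 0) : 1 < α := by
  have hx := xx_zero_of_pos hα ha
  have hS := Sr_zero_of_pos hα ha
  unfold Phi at hPhi
  rw [hx, hS, ha, Complex.norm_real, Real.norm_eq_abs, abs_of_pos hα] at hPhi
  have h2 := (second hF hm).1
  set x := (mm F 0).re with hxd
  set S := (sg F 0).re with hSd
  have hx1 : |x| ≤ ‖mm F 0‖ := Complex.abs_re_le_norm _
  have hS1 : S ≤ ‖sg F 0‖ := Complex.re_le_norm _
  have hxa := abs_lt.1 (hx1.trans_lt hm)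
  have hx2 : x ^ 2 ≤ ‖mm F 0‖ ^ 2 := by
    rw [← sq_abs x]
    exact pow_le_pow_left₀ (abs_nonneg x) hx1 2
  have hS2 : S ≤ 1 - x ^ 2 := by linarith
  have hT := (yd hxa.1 hxa.2).T
  have h3 : 7 / 30 * (1 + x) * (1 - x ^ 2 + S) ≤ 7 / 30 * (1 + x) * (2 * (1 - x ^ 2)) :=
    mul_le_mul_of_nonneg_left (by linarith) (by nlinarith [hxa.1])
  have h4 : 1 < α ^ 2 := by nlinarith
  nlinarith

/-- `Phi` vanishes on the unit circle for the dilations. -/
theorem Phi_sphere {f : ℂ → ℂ} {w : ℂ} {r : ℝ} {z : ℂ} (hz : ‖z‖ = 1) :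
    Phi (dil f r) (w / r) z = 0 := by
  obtain ⟨h1, h2, h3⟩ := dil_sphere (f := f) (w := w) (r := r) hz
  have hn : ‖aa (dil f r) (w / r) z‖ = 1 := by
    rw [h2, norm_neg, RCLike.norm_conj, hz]
  have hx : xx (dil f r) (w / r) z = 1 := by
    unfold xx
    rw [hn, h1, h2, map_neg, Complex.conj_conj, neg_mul_neg, mul_comm, Complex.mul_conj,
      Complex.normSq_eq_norm_sq, hz]
    norm_num
  have hS : Sr (dil f r) (w / r) z = 0 := by
    unfold Sr
    rw [h3, zero_mul, Complex.zero_re, zero_div]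
  unfold Phi
  rw [hn, hx, hS, AA_one]
  norm_num

/-- Proof. Let `g = dil f r`, `w' = w / r`; suppose `Phi g w' z > 0`. On the compact set
`K = {z ∈ closedBall 0 1 | 1 ≤ ‖aa g w' z‖}` the function `Phi g w'` is continuous (`dil_cont`,
`AA_cont`) and it vanishes for `|z| = 1` (`dil_sphere`, `AA_one`). Its maximum on `K` is positive,
attained at some `z₀` with `|z₀| < 1`. Let `a₀ = aa g w' z₀`, `e = conj a₀ / ‖a₀‖`,
`F = koebe g z₀ e`. By `koebe_trans` (at `ζ = 0`) `aa F w'' 0 = ‖a₀‖ > 0` and `‖mm F 0‖ < 1`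
(`mm_dil_lt`). `Phi > 0` and `YD` (`oneA`, `T`) or `|Sr| ≤ 1 - ...` give `‖a₀‖ > 1`: indeed
`‖a₀‖² > AA² - 7/30 (1 + x) (1 - x² + S) ≥ 1` since `S ≤ 1 - x²` (`second`). So `z₀` is a local
maximum of `Phi g w'` and `t ↦ Phi F w'' t = Phi g w' (TT z₀ e t)` (`Phi_koebe`) has a local maximum
at `t = 0`, which contradicts `pos_deriv`. -/
theorem Phi_le {f : ℂ → ℂ} (hf : IsConvexMap f) {w : ℂ} (hw : w ∉ f '' ball (0 : ℂ) 1) {r : ℝ}
    (hr0 : 0 < r) (hr1 : r < 1) {z : ℂ} (hz : z ∈ ball (0 : ℂ) 1)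
    (ha : 1 ≤ ‖aa (dil f r) (w / r) z‖) : Phi (dil f r) (w / r) z ≤ 0 := by
  by_contra hcon
  rw [not_le] at hcon
  obtain ⟨hcm, hca, hcs⟩ := dil_cont hf hw hr0 hr1
  have hg : IsConvexMap (dil f r) := dil_convexMap hf hr0 hr1
  have hw' : w / r ∉ dil f r '' ball (0 : ℂ) 1 := dil_notMem hw hr0 hr1
  have hsph : ∀ y : ℂ, ‖y‖ = 1 → Phi (dil f r) (w / r) y = 0 := fun y hy => Phi_sphere hy
  have hmlt : ∀ y ∈ ball (0 : ℂ) 1, ‖mm (dil f r) y‖ < 1 := fun y hy => mm_dil_lt hf hr0 hr1 hy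
  set g : ℂ → ℂ := dil f r with hgd
  set v : ℂ := w / r with hvd
  -- the compact set
  set K : Set ℂ := closedBall (0 : ℂ) 1 ∩ aa g v ⁻¹' {a : ℂ | 1 ≤ ‖a‖} with hK
  have hKc : IsClosed K := hca.preimage_isClosed_of_isClosed isClosed_closedBall
    (isClosed_le continuous_const continuous_norm)
  have hKcomp : IsCompact K := (isCompact_closedBall (0 : ℂ) 1).of_isClosed_subset hKc
    Set.inter_subset_left
  have hKa : ContinuousOn (aa g v) K := hca.mono Set.inter_subset_left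
  have hKm : ContinuousOn (mm g) K := hcm.mono Set.inter_subset_left
  have hKs : ContinuousOn (sg g) K := hcs.mono Set.inter_subset_left
  have hKn : ∀ y ∈ K, ‖aa g v y‖ ≠ 0 := by
    intro y hy h0
    have h1 : 1 ≤ ‖aa g v y‖ := hy.2
    rw [h0] at h1
    linarith
  have hconj : ContinuousOn (fun y => conj (aa g v y)) K :=
    Complex.continuous_conj.comp_continuousOn hKa
  have hxx : ContinuousOn (xx g v) K :=
    (Complex.continuous_re.comp_continuousOn (hKm.mul hconj)).div hKa.norm hKn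
  have hSr : ContinuousOn (Sr g v) K :=
    (Complex.continuous_re.comp_continuousOn (hKs.mul (hconj.pow 2))).div (hKa.norm.pow 2)
      (fun y hy => pow_ne_zero 2 (hKn y hy))
  have hPhi : ContinuousOn (Phi g v) K := by
    have h1 : ContinuousOn (fun y => AA (xx g v y)) K := AA_cont.comp_continuousOn hxx
    exact ((hKa.norm.pow 2).sub (h1.pow 2)).add
      ((continuousOn_const.mul (continuousOn_const.add hxx)).mul
        ((continuousOn_const.sub (hxx.pow 2)).add hSr))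
  have hzK : z ∈ K := ⟨ball_subset_closedBall hz, ha⟩
  obtain ⟨z₀, hz₀K, hmax⟩ := hKcomp.exists_isMaxOn ⟨z, hzK⟩ hPhi
  have hpos : 0 < Phi g v z₀ := hcon.trans_le (hmax hzK)
  have hz₀ : z₀ ∈ ball (0 : ℂ) 1 := by
    rw [mem_ball_zero_iff]
    have h1 : ‖z₀‖ ≤ 1 := by simpa using hz₀K.1
    refine lt_of_le_of_ne h1 fun h2 => ?_
    rw [hsph z₀ h2] at hpos
    exact lt_irrefl _ hpos
  have hA1 : 1 ≤ ‖aa g v z₀‖ := hz₀K.2
  have hA0 : 0 < ‖aa g v z₀‖ := by linarith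
  set α : ℝ := ‖aa g v z₀‖ with hαd
  set e : ℂ := conj (aa g v z₀) / (α : ℂ) with hed
  have hαc : (α : ℂ) ≠ 0 := by exact_mod_cast hA0.ne'
  have he : ‖e‖ = 1 := by
    rw [hed, norm_div, RCLike.norm_conj, Complex.norm_real, Real.norm_eq_abs, abs_of_pos hA0,
      ← hαd, div_self hA0.ne']
  have hea : e * aa g v z₀ = (α : ℂ) := by
    rw [hed, div_mul_eq_mul_div, mul_comm, Complex.mul_conj, Complex.normSq_eq_norm_sq, ← hαd]
    push_cast
    field_simp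
  have h0b : (0 : ℂ) ∈ ball (0 : ℂ) 1 := by simp
  obtain ⟨u, -, hu1, hu2, hu3, -⟩ := koebe_trans hg hz₀ he hw' h0b
  have hu : u = e := hu1 rfl
  rw [TT_zero, hu] at hu2 hu3
  rw [hea] at hu3
  have hF := koebe_convexMap hg hz₀ he
  have hwF := koebe_notMem hg hz₀ he hw'
  have hmF : ‖mm (koebe g z₀ e) 0‖ < 1 := by
    rw [hu2, norm_mul, he, one_mul]
    exact hmlt z₀ hz₀
  have hP0 := Phi_koebe hg hz₀ he hw' h0b
  rw [TT_zero] at hP0
  have hPF : 0 < Phi (koebe g z₀ e) ((v - g z₀) / ((pp z₀ : ℂ) * e * deriv g z₀)) 0 := by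
    rw [hP0]
    exact hpos
  have hα1 : 1 < α := one_lt_of_Phi_pos hF hA0 hu3 hmF hPF
  obtain ⟨G, hG, hGd⟩ := pos_deriv hF hwF hA0 hu3 hmF hPF
  -- the point is a local maximum
  have hTc : ContinuousAt (fun t : ℝ => TT z₀ e (t : ℂ)) 0 := by
    have h1 : ContinuousAt (TT z₀ e) ((0 : ℝ) : ℂ) := by
      rw [Complex.ofReal_zero]
      exact (hasDerivAt_TT hz₀ he h0b).continuousAt
    exact ContinuousAt.comp (f := fun t : ℝ => (t : ℂ)) (g := TT z₀ e) h1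
      Complex.continuous_ofReal.continuousAt
  have hT0 : TT z₀ e ((0 : ℝ) : ℂ) = z₀ := by rw [Complex.ofReal_zero, TT_zero]
  have haat : ContinuousAt (aa g v) z₀ :=
    hca.continuousAt (closedBall_mem_nhds_of_mem hz₀)
  have hev : ∀ᶠ y in nhds z₀, 1 < ‖aa g v y‖ :=
    (haat.norm).eventually_const_lt hα1
  have hev2 : ∀ᶠ t : ℝ in nhds 0, 1 < ‖aa g v (TT z₀ e (t : ℂ))‖ := by
    have h1 : Filter.Tendsto (fun t : ℝ => TT z₀ e (t : ℂ)) (nhds 0) (nhds z₀) := by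
      have := hTc.tendsto
      rwa [hT0] at this
    exact h1.eventually hev
  have hev3 : ∀ᶠ t : ℝ in nhds 0, (t : ℂ) ∈ ball (0 : ℂ) 1 := by
    have h1 : ContinuousAt (fun t : ℝ => (t : ℂ)) 0 := Complex.continuous_ofReal.continuousAt
    refine h1.eventually_mem (isOpen_ball.mem_nhds ?_)
    rw [Complex.ofReal_zero]
    exact h0b
  have hloc : IsLocalMax (fun t : ℝ => Phi (koebe g z₀ e)
      ((v - g z₀) / ((pp z₀ : ℂ) * e * deriv g z₀)) (t : ℂ)) 0 := by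
    filter_upwards [hev2, hev3] with t ht1 ht2
    show Phi (koebe g z₀ e) ((v - g z₀) / ((pp z₀ : ℂ) * e * deriv g z₀)) (t : ℂ) ≤
      Phi (koebe g z₀ e) ((v - g z₀) / ((pp z₀ : ℂ) * e * deriv g z₀)) ((0 : ℝ) : ℂ)
    rw [Phi_koebe hg hz₀ he hw' ht2, Complex.ofReal_zero, hP0]
    exact hmax ⟨ball_subset_closedBall (TT_mem hz₀ he ht2), ht1.le⟩
  have := hloc.hasDerivAt_eq_zero hGd
  linarith

end Pool.Agent.MobConv.T3
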