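import Pool.Agent.Lib.MP_4b1e7e_an.T3.SchurA

/-!
# Block T3: the Schwarz-Pick inequalities of the first and second order for a convex map
-/

set_option autoImplicit false

namespace Pool.Agent.MobConv.T3

open Metric ComplexConjugate

/-- Proof. `φ = gg / (2 + z gg)` is bounded by `1` on the disc (`phi_bound`), `φ(0) = m = mm F 0`,
`φ'(0) = s = sg F 0` and `φ''(0) / 2 = SS'(0) / 4 - m s` (`SS = gg' - gg² / 2`). For `|m| < 1` the
function `(φ - m) / (1 - conj m φ)` is bounded by `1` and vanishes at `0`, so it is `z χ`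
(`schur_div`), with `χ(0) = s / P` and `χ'(0) = (φ''(0) / 2) / P + conj m s² / P²`,
`P = 1 - |m|²`. Apply `schur_unit` to `χ`. -/
theorem second {F : ℂ → ℂ} (hF : IsConvexMap F) (hm : ‖mm F 0‖ < 1) :
    ‖sg F 0‖ ≤ 1 - ‖mm F 0‖ ^ 2 ∧
      ‖deriv (SS F) 0 / 4 - mm F 0 * sg F 0 +
          conj (mm F 0) * sg F 0 ^ 2 / ((1 - ‖mm F 0‖ ^ 2 : ℝ) : ℂ)‖ ≤
        (1 - ‖mm F 0‖ ^ 2) - ‖sg F 0‖ ^ 2 / (1 - ‖mm F 0‖ ^ 2) := by
  classical
  set m : ℂ := mm F 0 with hmdef
  have hm0 : m = gg F 0 / 2 := mm_zero F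
  have hs0 : sg F 0 = SS F 0 / 2 := sg_zero F
  set φ : ℂ → ℂ := fun z => gg F z / (2 + z * gg F z) with hφ
  have hne : ∀ z ∈ ball (0 : ℂ) 1, 2 + z * gg F z ≠ 0 := fun z hz => (phi_bound hF hz).1
  have hφb : ∀ z ∈ ball (0 : ℂ) 1, ‖φ z‖ ≤ 1 := fun z hz => (phi_bound hF hz).2
  have h0 : (0 : ℂ) ∈ ball (0 : ℂ) 1 := mem_ball_self one_pos
  have hφ0 : φ 0 = m := by simp [hφ, hm0]
  have hgd : ∀ z ∈ ball (0 : ℂ) 1, HasDerivAt (gg F) (deriv (gg F) z) z := fun z hz =>
    (analyticAt_gg hF hz).differentiableAt.hasDerivAt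
  have hφd : ∀ z ∈ ball (0 : ℂ) 1, HasDerivAt φ (2 * SS F z / (2 + z * gg F z) ^ 2) z := by
    intro z hz
    have h1 := (hgd z hz).div (((hasDerivAt_id z).mul (hgd z hz)).const_add 2) (hne z hz)
    refine h1.congr_deriv ?_
    have := hne z hz
    simp only [Pi.mul_apply, id, SS]
    field_simp
    ring
  have hφdiff : DifferentiableOn ℂ φ (ball (0 : ℂ) 1) := fun z hz =>
    (hφd z hz).differentiableAt.differentiableWithinAt
  have hden : ∀ z ∈ ball (0 : ℂ) 1, 1 - conj m * φ z ≠ 0 := by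
    intro z hz h
    have h1 : ‖conj m * φ z‖ < 1 := by
      rw [norm_mul, RCLike.norm_conj]
      calc ‖m‖ * ‖φ z‖ ≤ ‖m‖ * 1 := by
            exact mul_le_mul_of_nonneg_left (hφb z hz) (norm_nonneg _)
        _ < 1 := by rw [mul_one]; exact hm
    have h2 : conj m * φ z = 1 := by linear_combination -h
    rw [h2, norm_one] at h1
    exact lt_irrefl _ h1
  set ψ : ℂ → ℂ := fun z => (φ z - m) / (1 - conj m * φ z) with hψ
  have hψd : DifferentiableOn ℂ ψ (ball (0 : ℂ) 1) :=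
    (hφdiff.sub_const m).div ((hφdiff.const_mul (conj m)).const_sub 1) hden
  have hψb : ∀ z ∈ ball (0 : ℂ) 1, ‖ψ z‖ ≤ 1 := by
    intro z hz
    have hp := norm_pos_iff.2 (hden z hz)
    rw [hψ]
    simp only
    rw [norm_div, div_le_one hp]
    have h1 : ‖φ z - m‖ ^ 2 ≤ ‖1 - conj m * φ z‖ ^ 2 := by
      have e1 : ‖φ z‖ ^ 2 = (φ z).re ^ 2 + (φ z).im ^ 2 := by
        rw [← Complex.normSq_eq_norm_sq, Complex.normSq_apply]; ring
      have e2 : ‖m‖ ^ 2 = m.re ^ 2 + m.im ^ 2 := by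
        rw [← Complex.normSq_eq_norm_sq, Complex.normSq_apply]; ring
      have h2 : ‖φ z‖ ^ 2 ≤ 1 := by
        have := hφb z hz
        have := norm_nonneg (φ z)
        nlinarith
      have h3 : ‖m‖ ^ 2 ≤ 1 := by
        have := norm_nonneg m
        nlinarith
      rw [e1] at h2
      rw [e2] at h3
      rw [← Complex.normSq_eq_norm_sq, ← Complex.normSq_eq_norm_sq, Complex.normSq_apply,
        Complex.normSq_apply]
      simp only [Complex.sub_re, Complex.sub_im, Complex.one_re, Complex.one_im, Complex.mul_re,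
        Complex.mul_im, Complex.conj_re, Complex.conj_im]
      nlinarith [mul_nonneg (sub_nonneg.2 h2) (sub_nonneg.2 h3)]
    exact le_of_sq_le_sq h1 hp.le
  have hψ0 : ψ 0 = 0 := by simp [hψ, hφ0]
  obtain ⟨χ, hχd, hχb, hχ⟩ := schur_div hψd hψb hψ0
  set h : ℂ → ℂ := fun z => χ z * (1 - conj m * φ z) with hh
  have hhd : DifferentiableOn ℂ h (ball (0 : ℂ) 1) :=
    hχd.mul ((hφdiff.const_mul (conj m)).const_sub 1)
  have hφh : ∀ z ∈ ball (0 : ℂ) 1, φ z = m + z * h z := by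
    intro z hz
    have h1 := hχ z hz
    rw [hψ] at h1
    simp only at h1
    rw [div_eq_iff (hden z hz)] at h1
    rw [hh]
    simp only
    linear_combination h1
  have hopen : IsOpen (ball (0 : ℂ) 1) := isOpen_ball
  have hhan : ∀ z ∈ ball (0 : ℂ) 1, AnalyticAt ℂ h z := fun z hz =>
    hhd.analyticAt (hopen.mem_nhds hz)
  have hhder : ∀ z ∈ ball (0 : ℂ) 1, HasDerivAt h (deriv h z) z := fun z hz =>
    (hhan z hz).differentiableAt.hasDerivAt
  have hd1 : ∀ z ∈ ball (0 : ℂ) 1, 2 * SS F z / (2 + z * gg F z) ^ 2 = h z + z * deriv h z := by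
    intro z hz
    have h1 : HasDerivAt (fun z => m + z * h z) (1 * h z + z * deriv h z) z :=
      ((hasDerivAt_id z).mul (hhder z hz)).const_add m
    have h2 : (fun z => m + z * h z) =ᶠ[nhds z] φ := by
      filter_upwards [hopen.mem_nhds hz] with y hy
      exact (hφh y hy).symm
    have h3 := h1.unique ((hφd z hz).congr_of_eventuallyEq h2)
    rw [one_mul] at h3
    exact h3.symm
  have hSd : HasDerivAt (SS F) (deriv (SS F) 0) 0 :=
    (analyticAt_SS hF h0).differentiableAt.hasDerivAt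
  have hA : HasDerivAt (fun z => 2 * SS F z / (2 + z * gg F z) ^ 2)
      (deriv (SS F) 0 / 2 - SS F 0 * gg F 0 / 2) 0 := by
    have h1 := (hSd.const_mul 2).div
      ((((hasDerivAt_id (0 : ℂ)).mul (hgd 0 h0)).const_add 2).pow 2)
      (pow_ne_zero 2 (hne 0 h0))
    refine h1.congr_deriv ?_
    simp only [Pi.mul_apply, id]
    norm_num
    ring
  have hB : HasDerivAt (fun z => h z + z * deriv h z)
      (deriv h 0 + (1 * deriv h 0 + 0 * deriv (deriv h) 0)) 0 :=
    (hhder 0 h0).add ((hasDerivAt_id (0 : ℂ)).mul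
      (hhan 0 h0).deriv.differentiableAt.hasDerivAt)
  have hAB : (fun z => 2 * SS F z / (2 + z * gg F z) ^ 2) =ᶠ[nhds 0]
      (fun z => h z + z * deriv h z) := by
    filter_upwards [hopen.mem_nhds h0] with y hy
    exact hd1 y hy
  have hC := hA.unique (hB.congr_of_eventuallyEq hAB)
  have hD : HasDerivAt h (deriv χ 0 * (1 - conj m * φ 0) +
      χ 0 * (-(conj m * (2 * SS F 0 / (2 + 0 * gg F 0) ^ 2)))) 0 :=
    ((hχd.differentiableAt (hopen.mem_nhds h0)).hasDerivAt).mul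
      (((hφd 0 h0).const_mul (conj m)).const_sub 1)
  have hE := (hhder 0 h0).unique hD
  have hmm : conj m * m = ((‖m‖ ^ 2 : ℝ) : ℂ) := by
    rw [mul_comm, Complex.mul_conj, Complex.normSq_eq_norm_sq]
  set P : ℝ := 1 - ‖m‖ ^ 2 with hP
  have hPpos : 0 < P := by
    have := norm_nonneg m
    rw [hP]
    nlinarith
  have hPc : 1 - conj m * m = (P : ℂ) := by rw [hmm, hP]; push_cast; ring
  have hPne : (P : ℂ) ≠ 0 := by exact_mod_cast hPpos.ne'
  have hχ0 : χ 0 * P = sg F 0 := by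
    have h1 := hd1 0 h0
    rw [hs0, ← hPc, ← hφ0]
    rw [hφ0]
    rw [hh] at h1
    simp only [zero_mul, add_zero, hφ0] at h1
    rw [← h1]
    ring
  have hχ1 : deriv χ 0 * P = deriv (SS F) 0 / 4 - m * sg F 0 + conj m * sg F 0 * χ 0 := by
    rw [hE, hφ0, hPc] at hC
    rw [hs0]
    have hg2 : gg F 0 = 2 * m := by rw [hm0]; ring
    rw [hg2] at hC
    simp only [zero_mul, add_zero, one_mul] at hC
    linear_combination -hC / 2
  have hχ0' : χ 0 = sg F 0 / P := by rw [eq_div_iff hPne]; exact hχ0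
  have hχ1' : deriv (SS F) 0 / 4 - m * sg F 0 + conj m * sg F 0 ^ 2 / (P : ℂ) =
      deriv χ 0 * P := by
    rw [hχ1, hχ0']
    ring
  have hn0 : ‖χ 0‖ = ‖sg F 0‖ / P := by
    rw [hχ0', norm_div, Complex.norm_real, Real.norm_of_nonneg hPpos.le]
  have hb0 := hχb 0 h0
  have hb1 := schur_unit hχd hχb
  rw [hn0] at hb0 hb1
  refine ⟨?_, ?_⟩
  · rwa [div_le_one hPpos] at hb0
  · rw [hχ1', norm_mul, Complex.norm_real, Real.norm_of_nonneg hPpos.le]
    calc ‖deriv χ 0‖ * P ≤ (1 - (‖sg F 0‖ / P) ^ 2) * P :=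
          mul_le_mul_of_nonneg_right hb1 hPpos.le
      _ = P - ‖sg F 0‖ ^ 2 / P := by
          field_simp

end Pool.Agent.MobConv.T3
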