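import Pool.Agent.Lib.MP_4b1e7e_an.T3.Defs

/-!
# Block T3: one variable inequalities, part A (all except those with `Yl`)
-/

set_option autoImplicit false

namespace Pool.Agent.MobConv.T3

open Metric ComplexConjugate

variable {x A : ℝ}

set_option linter.unusedVariables false

/-- `2 A D (Dl - k / 2)` for the first value of `k`. -/
private noncomputable def F1 (x A : ℝ) : ℝ :=
  A ^ 2 * (A ^ 2 - x ^ 2) - 12 * (7 / 30) * (1 - x ^ 2) ^ 2 * A -
    2 * (7 / 30 * (1 + x)) * (3 * A ^ 2 - 1 - (1 - x ^ 2)) * (1 - x ^ 2) -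
    2 * (7 / 30 * (1 + x)) * A * (1 - x ^ 2) + 2 * A ^ 2 * (1 - x ^ 2) +
    2 * (7 / 30 * (1 + x)) * x * A * (1 - x ^ 2)

private noncomputable def F2 (x A : ℝ) : ℝ :=
  3 * A ^ 2 * (A ^ 2 - x ^ 2) - 12 * (7 / 30) * (1 - x ^ 2) ^ 2 * A -
    2 * (7 / 30 * (1 + x)) * (3 * A ^ 2 - 1 - (1 - x ^ 2)) * (1 - x ^ 2) +
    2 * (7 / 30 * (1 + x)) * A * (1 - x ^ 2) - 2 * A ^ 2 * (1 - x ^ 2) -
    2 * (7 / 30 * (1 + x)) * x * A * (1 - x ^ 2)

private noncomputable def F3 (x A : ℝ) : ℝ :=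
  2 * A ^ 2 * (A ^ 2 - x ^ 2) - 12 * (7 / 30) * (1 - x ^ 2) ^ 2 * A -
    2 * (7 / 30 * (1 + x)) * (3 * A ^ 2 - 1 - (1 - x ^ 2)) * (1 - x ^ 2) -
    2 * (7 / 30 * (1 + x)) * A * (1 - x ^ 2) + 2 * A * (1 - x ^ 2) - A * (A ^ 2 - x ^ 2) +
    2 * (7 / 30 * (1 + x)) * x * (1 - x ^ 2)

private noncomputable def F4 (x A : ℝ) : ℝ :=
  2 * A ^ 2 * (A ^ 2 - x ^ 2) - 12 * (7 / 30) * (1 - x ^ 2) ^ 2 * A -
    2 * (7 / 30 * (1 + x)) * (3 * A ^ 2 - 1 - (1 - x ^ 2)) * (1 - x ^ 2) +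
    2 * (7 / 30 * (1 + x)) * A * (1 - x ^ 2) - 2 * A * (1 - x ^ 2) + A * (A ^ 2 - x ^ 2) -
    2 * (7 / 30 * (1 + x)) * x * (1 - x ^ 2)

private lemma q1_l1 (u v d w : ℝ) (hu : 0 ≤ u) (hv : 0 ≤ v) (hd : 0 ≤ d) (hw : 0 ≤ w) :
    0 ≤ (100100 / 243) * w * v ^ 4 + (2223521 / 1944) * w * u * v ^ 3 +
      (5136988271 / 4860000) * w * u ^ 2 * v ^ 2 +
      (12759026071361 / 38880000000) * w * u ^ 3 * v + (33589650187 / 12960000000) * w * u ^ 4 +
      (20000 / 81) * v ^ 4 * d + (1550) * u * v ^ 3 * d + (7966081 / 2700) * u ^ 2 * v ^ 2 * d +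
      (4103037319 / 1800000) * u ^ 3 * v * d + (10202369471 / 16200000) * u ^ 4 * d +
      (5000 / 27) * v ^ 3 * d ^ 2 + (1994 / 3) * u * v ^ 2 * d ^ 2 +
      (4538827 / 6000) * u ^ 2 * v * d ^ 2 + (15033043 / 54000) * u ^ 3 * d ^ 2 +
      (40 / 3) * v * d ^ 3 + (2191 / 150) * u * d ^ 3 + (1) * d ^ 4 := by
  positivity

private lemma r1_l1 (h1 : -1 < x) (h2 : x < 1) (ha : (-1) ≤ x) (hb : x ≤ (-7 / 10))
    (hL : (791 / 600 + (191 / 600) * x) ≤ A) :
    0 < F1 x A := by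
  have k := q1_l1 (x - (-1)) ((-7 / 10) - x) (A - (791 / 600 + (191 / 600) * x)) (1 + x) (by linarith) (by linarith)
    (by linarith) (by linarith)
  unfold F1
  linarith [k]

private lemma q1_l2 (u v d w : ℝ) (hu : 0 ≤ u) (hv : 0 ≤ v) (hd : 0 ≤ d) (hw : 0 ≤ w) :
    0 ≤ (1220768950561 / 5120000000) * v ^ 5 + (40319320200281 / 25600000000) * u * v ^ 4 +
      (199650670464093 / 64000000000) * u ^ 2 * v ^ 3 +
      (2389422978081619 / 960000000000) * u ^ 3 * v ^ 2 +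
      (6905115426808063 / 9600000000000) * u ^ 4 * v + (41383916987441 / 3200000000000) * u ^ 5 +
      (10202369471 / 3200000) * v ^ 4 * d + (54049030633 / 4000000) * u * v ^ 3 * d +
      (2538266143627 / 120000000) * u ^ 2 * v ^ 2 * d +
      (1456893606621 / 100000000) * u ^ 3 * v * d + (1495314533819 / 400000000) * u ^ 4 * d +
      (15033043 / 16000) * v ^ 3 * d ^ 2 + (238968909 / 80000) * u * v ^ 2 * d ^ 2 +
      (1254154033 / 400000) * u ^ 2 * v * d ^ 2 + (435695563 / 400000) * u ^ 3 * d ^ 2 +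
      (2191 / 100) * v * d ^ 3 + (11539 / 500) * u * d ^ 3 + (1) * d ^ 4 := by
  positivity

private lemma r1_l2 (h1 : -1 < x) (h2 : x < 1) (ha : (-7 / 10) ≤ x) (hb : x ≤ (-1 / 2))
    (hL : (12999 / 10000 + (73 / 250) * x) ≤ A) :
    0 < F1 x A := by
  have k := q1_l2 (x - (-7 / 10)) ((-1 / 2) - x) (A - (12999 / 10000 + (73 / 250) * x)) 1 (by linarith) (by linarith)
    (by linarith) (by linarith)
  unfold F1
  linarith [k]

private lemma q1_l3 (u v d w : ℝ) (hu : 0 ≤ u) (hv : 0 ≤ v) (hd : 0 ≤ d) (hw : 0 ≤ w) :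
    0 ≤ (5741383916987441 / 312500000000000) * v ^ 5 +
      (65618879308464419 / 937500000000000) * u * v ^ 4 +
      (4603743119862473 / 58593750000000) * u ^ 2 * v ^ 3 +
      (257468831012251 / 9765625000000) * u ^ 3 * v ^ 2 +
      (797607286421 / 1831054687500) * u ^ 4 * v + (2882959321363 / 3662109375000) * u ^ 5 +
      (1495314533819 / 15625000000) * v ^ 4 * d + (1249827338387 / 3125000000) * u * v ^ 3 * d +
      (7072857987643 / 11718750000) * u ^ 2 * v ^ 2 * d +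
      (1189960742983 / 2929687500) * u ^ 3 * v * d + (76368713461 / 732421875) * u ^ 4 * d +
      (435695563 / 6250000) * v ^ 3 * d ^ 2 + (1420932851 / 6250000) * u * v ^ 2 * d ^ 2 +
      (37319969 / 156250) * u ^ 2 * v * d ^ 2 + (32269467 / 390625) * u ^ 3 * d ^ 2 +
      (11539 / 1250) * v * d ^ 3 + (6366 / 625) * u * d ^ 3 + (1) * d ^ 4 := by
  positivity

private lemma r1_l3 (h1 : -1 < x) (h2 : x < 1) (ha : (-1 / 2) ≤ x) (hb : x ≤ 0)
    (hL : (3183 / 2500 + (1193 / 5000) * x) ≤ A) :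
    0 < F1 x A := by
  have k := q1_l3 (x - (-1 / 2)) (0 - x) (A - (3183 / 2500 + (1193 / 5000) * x)) 1 (by linarith) (by linarith)
    (by linarith) (by linarith)
  unfold F1
  linarith [k]

private lemma q1_l4a (u v d w : ℝ) (hu : 0 ≤ u) (hv : 0 ≤ v) (hd : 0 ≤ d) (hw : 0 ≤ w) :
    0 ≤ (423363455030403 / 39062500000000) * v ^ 5 +
      (103789399344093 / 39062500000000) * u * v ^ 4 +
      (185764572547281 / 15625000000000) * u ^ 2 * v ^ 3 +
      (215967619234683 / 1562500000000) * u ^ 3 * v ^ 2 +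
      (936127846781623 / 5000000000000) * u ^ 4 * v + (207624890536169 / 3000000000000) * u ^ 5 +
      (2061955263447 / 3906250000) * v ^ 4 * d + (16211533359609 / 7812500000) * u * v ^ 3 * d +
      (9622115561031 / 3125000000) * u ^ 2 * v ^ 2 * d +
      (2567557555923 / 1250000000) * u ^ 3 * v * d + (389414130847 / 750000000) * u ^ 4 * d +
      (871275609 / 3125000) * v ^ 3 * d ^ 2 + (327575268 / 390625) * u * v ^ 2 * d ^ 2 +
      (2090421033 / 2500000) * u ^ 2 * v * d ^ 2 + (138891961 / 500000) * u ^ 3 * d ^ 2 +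
      (9549 / 625) * v * d ^ 3 + (3927 / 250) * u * d ^ 3 + (1) * d ^ 4 := by
  positivity

private lemma r1_l4a (h1 : -1 < x) (h2 : x < 1) (ha : 0 ≤ x) (hb : x ≤ 1 / 3)
    (hL : (3183 / 2500 + (537 / 5000) * x) ≤ A) :
    0 < F1 x A := by
  have k := q1_l4a (x - 0) (1 / 3 - x) (A - (3183 / 2500 + (537 / 5000) * x)) 1 (by linarith) (by linarith)
    (by linarith) (by linarith)
  unfold F1
  linarith [k]

private lemma q1_l4b (u v d w : ℝ) (hu : 0 ≤ u) (hv : 0 ≤ v) (hd : 0 ≤ d) (hw : 0 ≤ w) :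
    0 ≤ (10794890536169 / 93750000000) * v ^ 5 + (47173208311301 / 156250000000) * u * v ^ 4 +
      (1045135501492149 / 1562500000000) * u ^ 2 * v ^ 3 +
      (1332622020165741 / 976562500000) * u ^ 3 * v ^ 2 +
      (421440203150083323 / 312500000000000) * u ^ 4 * v +
      (145753038617604003 / 312500000000000) * u ^ 5 + (389414130847 / 46875000) * v ^ 4 * d +
      (5164725061017 / 156250000) * u * v ^ 3 * d +
      (77260499986677 / 1562500000) * u ^ 2 * v ^ 2 * d +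
      (515205538786899 / 15625000000) * u ^ 3 * v * d +
      (129243866822829 / 15625000000) * u ^ 4 * d + (138891961 / 62500) * v ^ 3 * d ^ 2 +
      (1039929303 / 156250) * u * v ^ 2 * d ^ 2 + (41521851261 / 6250000) * u ^ 2 * v * d ^ 2 +
      (13822625241 / 6250000) * u ^ 3 * d ^ 2 + (3927 / 125) * v * d ^ 3 +
      (39807 / 1250) * u * d ^ 3 + (1) * d ^ 4 := by
  positivity

private lemma r1_l4b (h1 : -1 < x) (h2 : x < 1) (ha : 1 / 3 ≤ x) (hb : x ≤ 1 / 2)
    (hL : (3183 / 2500 + (537 / 5000) * x) ≤ A) :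
    0 < F1 x A + 2 * A * (1 - x ^ 2) * (7 / 30 * (1 + x) * (1 - 3 * x)) := by
  have k := q1_l4b (x - 1 / 3) (1 / 2 - x) (A - (3183 / 2500 + (537 / 5000) * x)) 1 (by linarith) (by linarith)
    (by linarith) (by linarith)
  unfold F1
  linarith [k]

private lemma q1_l5 (u v d w : ℝ) (hu : 0 ≤ u) (hv : 0 ≤ v) (hd : 0 ≤ d) (hw : 0 ≤ w) :
    0 ≤ (299806743282321 / 3200000000000) * v ^ 5 + (86617426777753 / 640000000000) * u * v ^ 4 +
      (2050347711467 / 192000000000) * u ^ 2 * v ^ 3 +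
      (126404305329991 / 960000000000) * u ^ 3 * v ^ 2 +
      (191735654516009 / 640000000000) * u ^ 4 * v + (440323891398081 / 3200000000000) * u ^ 5 +
      (1595603294109 / 400000000) * v ^ 4 * d + (3100698675333 / 200000000) * u * v ^ 3 * d +
      (6811237490033 / 300000000) * u ^ 2 * v ^ 2 * d +
      (8914732318289 / 600000000) * u ^ 3 * v * d + (1466445882039 / 400000000) * u ^ 4 * d +
      (511949083 / 400000) * v ^ 3 * d ^ 2 + (1501220589 / 400000) * u * v ^ 2 * d ^ 2 +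
      (1467702229 / 400000) * u ^ 2 * v * d ^ 2 + (478990723 / 400000) * u ^ 3 * d ^ 2 +
      (13269 / 500) * v * d ^ 3 + (13079 / 500) * u * d ^ 3 + (1) * d ^ 4 := by
  positivity

private lemma r1_l5 (h1 : -1 < x) (h2 : x < 1) (ha : 1 / 2 ≤ x) (hb : x ≤ 7 / 10)
    (hL : (859 / 625 + (-19 / 200) * x) ≤ A) :
    0 < F1 x A + 2 * A * (1 - x ^ 2) * (7 / 30 * (1 + x) * (1 - 3 * x)) := by
  have k := q1_l5 (x - 1 / 2) (7 / 10 - x) (A - (859 / 625 + (-19 / 200) * x)) 1 (by linarith) (by linarith)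
    (by linarith) (by linarith)
  unfold F1
  linarith [k]

private lemma q1_l6 (u v d w : ℝ) (hu : 0 ≤ u) (hv : 0 ≤ v) (hd : 0 ≤ d) (hw : 0 ≤ w) :
    0 ≤ (740323891398081 / 1048576000000) * v ^ 5 +
      (2203014405052393 / 1048576000000) * u * v ^ 4 +
      (217556080035859 / 98304000000) * u ^ 2 * v ^ 3 +
      (127225752694019 / 131072000000) * u ^ 3 * v ^ 2 +
      (11547680291099 / 65536000000) * u ^ 4 * v + (1640665823961 / 65536000000) * u ^ 5 +
      (1466445882039 / 163840000) * v ^ 4 * d + (3360189234191 / 98304000) * u * v ^ 3 * d +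
      (12078535640041 / 245760000) * u ^ 2 * v ^ 2 * d +
      (1291930852759 / 40960000) * u ^ 3 * v * d + (156095569231 / 20480000) * u ^ 4 * d +
      (478990723 / 204800) * v ^ 3 * d ^ 2 + (1379036671 / 204800) * u * v ^ 2 * d ^ 2 +
      (33095379 / 5120) * u ^ 2 * v * d ^ 2 + (106013983 / 51200) * u ^ 3 * d ^ 2 +
      (13079 / 400) * v * d ^ 3 + (6251 / 200) * u * d ^ 3 + (1) * d ^ 4 := by
  positivity

private lemma r1_l6 (h1 : -1 < x) (h2 : x < 1) (ha : 7 / 10 ≤ x) (hb : x ≤ 43 / 50)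
    (hL : (124827 / 80000 + (-577 / 1600) * x) ≤ A) :
    0 < F1 x A + 2 * A * (1 - x ^ 2) * (7 / 30 * (1 + x) * (1 - 3 * x)) := by
  have k := q1_l6 (x - 7 / 10) (43 / 50 - x) (A - (124827 / 80000 + (-577 / 1600) * x)) 1 (by linarith) (by linarith)
    (by linarith) (by linarith)
  unfold F1
  linarith [k]

private lemma q1_l7 (u v d w : ℝ) (hu : 0 ≤ u) (hv : 0 ≤ v) (hd : 0 ≤ d) (hw : 0 ≤ w) :
    0 ≤ (3936544200489 / 686000000) * w * v ^ 4 + (74541756349143 / 4802000000) * w * u * v ^ 3 +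
      (23550698071 / 1680700) * w * u ^ 2 * v ^ 2 + (143057125 / 33614) * w * u ^ 3 * v +
      (1000000 / 50421) * w * u ^ 4 + (22299367033 / 1715000) * v ^ 4 * d +
      (499635433251 / 12005000) * u * v ^ 3 * d + (357786929 / 7203) * u ^ 2 * v ^ 2 * d +
      (189212500 / 7203) * u ^ 3 * v * d + (12500000 / 2401) * u ^ 4 * d +
      (106013983 / 34300) * v ^ 3 * d ^ 2 + (269292003 / 34300) * u * v ^ 2 * d ^ 2 +
      (2257300 / 343) * u ^ 2 * v * d ^ 2 + (625000 / 343) * u ^ 3 * d ^ 2 +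
      (893 / 25) * v * d ^ 3 + (200 / 7) * u * d ^ 3 + (1) * d ^ 4 := by
  positivity

private lemma r1_l7 (h1 : -1 < x) (h2 : x < 1) (ha : 43 / 50 ≤ x) (hb : x ≤ 1)
    (hL : (1951 / 700 + (-1251 / 700) * x) ≤ A) :
    0 < F1 x A + 2 * A * (1 - x ^ 2) * (7 / 30 * (1 + x) * (1 - 3 * x)) := by
  have k := q1_l7 (x - 43 / 50) (1 - x) (A - (1951 / 700 + (-1251 / 700) * x)) (1 - x) (by linarith) (by linarith)
    (by linarith) (by linarith)
  unfold F1
  linarith [k]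

private lemma q2_l1 (u v d w : ℝ) (hu : 0 ≤ u) (hv : 0 ≤ v) (hd : 0 ≤ d) (hw : 0 ≤ w) :
    0 ≤ (22100 / 81) * w * v ^ 4 + (481441 / 648) * w * u * v ^ 3 +
      (1090795471 / 1620000) * w * u ^ 2 * v ^ 2 +
      (2680380663361 / 12960000000) * w * u ^ 3 * v + (45097137761 / 12960000000) * w * u ^ 4 +
      (20000 / 27) * v ^ 4 * d + (93550 / 27) * u * v ^ 3 * d +
      (5234881 / 900) * u ^ 2 * v ^ 2 * d + (7623463957 / 1800000) * u ^ 3 * v * d +
      (6163319071 / 5400000) * u ^ 4 * d + (5000 / 9) * v ^ 3 * d ^ 2 +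
      (16346 / 9) * u * v ^ 2 * d ^ 2 + (35265443 / 18000) * u ^ 2 * v * d ^ 2 +
      (12598643 / 18000) * u ^ 3 * d ^ 2 + (40) * v * d ^ 3 + (2191 / 50) * u * d ^ 3 +
      (3) * d ^ 4 := by
  positivity

private lemma r2_l1 (h1 : -1 < x) (h2 : x < 1) (ha : (-1) ≤ x) (hb : x ≤ (-7 / 10))
    (hL : (791 / 600 + (191 / 600) * x) ≤ A) :
    0 < F2 x A := by
  have k := q2_l1 (x - (-1)) ((-7 / 10) - x) (A - (791 / 600 + (191 / 600) * x)) (1 + x) (by linarith) (by linarith)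
    (by linarith) (by linarith)
  unfold F2
  linarith [k]

private lemma q2_l2 (u v d w : ℝ) (hu : 0 ≤ u) (hv : 0 ≤ v) (hd : 0 ≤ d) (hw : 0 ≤ w) :
    0 ≤ (1735291413283 / 5120000000) * v ^ 5 + (42138117933643 / 25600000000) * u * v ^ 4 +
      (530880480415237 / 192000000000) * u ^ 2 * v ^ 3 +
      (1891504802124857 / 960000000000) * u ^ 3 * v ^ 2 +
      (5083363245424189 / 9600000000000) * u ^ 4 * v + (54433855962323 / 3200000000000) * u ^ 5 +
      (18489957213 / 3200000) * v ^ 4 * d + (96409350699 / 4000000) * u * v ^ 3 * d +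
      (4503585390881 / 120000000) * u ^ 2 * v ^ 2 * d +
      (2590727069863 / 100000000) * u ^ 3 * v * d + (2680041101457 / 400000000) * u ^ 4 * d +
      (37795929 / 16000) * v ^ 3 * d ^ 2 + (590166727 / 80000) * u * v ^ 2 * d ^ 2 +
      (3064962099 / 400000) * u ^ 2 * v * d ^ 2 + (1059586689 / 400000) * u ^ 3 * d ^ 2 +
      (6573 / 100) * v * d ^ 3 + (34617 / 500) * u * d ^ 3 + (3) * d ^ 4 := by
  positivity

private lemma r2_l2 (h1 : -1 < x) (h2 : x < 1) (ha : (-7 / 10) ≤ x) (hb : x ≤ (-1 / 2))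
    (hL : (12999 / 10000 + (73 / 250) * x) ≤ A) :
    0 < F2 x A := by
  have k := q2_l2 (x - (-7 / 10)) ((-1 / 2) - x) (A - (12999 / 10000 + (73 / 250) * x)) 1 (by linarith) (by linarith)
    (by linarith) (by linarith)
  unfold F2
  linarith [k]

private lemma q2_l3 (u v d w : ℝ) (hu : 0 ≤ u) (hv : 0 ≤ v) (hd : 0 ≤ d) (hw : 0 ≤ w) :
    0 ≤ (3264433855962323 / 312500000000000) * v ^ 5 +
      (29712517635393257 / 937500000000000) * u * v ^ 4 +
      (413541073612473 / 19531250000000) * u ^ 2 * v ^ 3 +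
      (2972620360259 / 29296875000000) * u ^ 3 * v ^ 2 +
      (14712954359263 / 1831054687500) * u ^ 4 * v + (28745887964089 / 3662109375000) * u ^ 5 +
      (2680041101457 / 15625000000) * v ^ 4 * d + (2266079015161 / 3125000000) * u * v ^ 3 * d +
      (13398066462929 / 11718750000) * u ^ 2 * v ^ 2 * d +
      (2378193478949 / 2929687500) * u ^ 3 * v * d + (161434890383 / 732421875) * u ^ 4 * d +
      (1059586689 / 6250000) * v ^ 3 * d ^ 2 + (3407798553 / 6250000) * u * v ^ 2 * d ^ 2 +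
      (90709907 / 156250) * u ^ 2 * v * d ^ 2 + (80558401 / 390625) * u ^ 3 * d ^ 2 +
      (34617 / 1250) * v * d ^ 3 + (19098 / 625) * u * d ^ 3 + (3) * d ^ 4 := by
  positivity

private lemma r2_l3 (h1 : -1 < x) (h2 : x < 1) (ha : (-1 / 2) ≤ x) (hb : x ≤ 0)
    (hL : (3183 / 2500 + (1193 / 5000) * x) ≤ A) :
    0 < F2 x A := by
  have k := q2_l3 (x - (-1 / 2)) (0 - x) (A - (3183 / 2500 + (1193 / 5000) * x)) 1 (by linarith) (by linarith)
    (by linarith) (by linarith)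
  unfold F2
  linarith [k]

private lemma q2_l4a (u v d w : ℝ) (hu : 0 ≤ u) (hv : 0 ≤ v) (hd : 0 ≤ d) (hw : 0 ≤ w) :
    0 ≤ (40799737591209 / 39062500000000) * v ^ 5 +
      (657719810532279 / 39062500000000) * u * v ^ 4 +
      (3042609285891843 / 15625000000000) * u ^ 2 * v ^ 3 +
      (792102161354049 / 1562500000000) * u ^ 3 * v ^ 2 +
      (2427445975544869 / 5000000000000) * u ^ 4 * v +
      (473129602808507 / 3000000000000) * u ^ 5 + (4358742040341 / 3906250000) * v ^ 4 * d +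
      (35285968828827 / 7812500000) * u * v ^ 3 * d +
      (21587509683093 / 3125000000) * u ^ 2 * v ^ 2 * d +
      (5925679067769 / 1250000000) * u ^ 3 * v * d + (923455192541 / 750000000) * u ^ 4 * d +
      (2175076827 / 3125000) * v ^ 3 * d ^ 2 + (828038304 / 390625) * u * v ^ 2 * d ^ 2 +
      (5383263099 / 2500000) * u ^ 2 * v * d ^ 2 + (365475883 / 500000) * u ^ 3 * d ^ 2 +
      (28647 / 625) * v * d ^ 3 + (11781 / 250) * u * d ^ 3 + (3) * d ^ 4 := by
  positivity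

private lemma r2_l4a (h1 : -1 < x) (h2 : x < 1) (ha : 0 ≤ x) (hb : x ≤ 1 / 3)
    (hL : (3183 / 2500 + (537 / 5000) * x) ≤ A) :
    0 < F2 x A := by
  have k := q2_l4a (x - 0) (1 / 3 - x) (A - (3183 / 2500 + (537 / 5000) * x)) 1 (by linarith) (by linarith)
    (by linarith) (by linarith)
  unfold F2
  linarith [k]

private lemma q2_l4b (u v d w : ℝ) (hu : 0 ≤ u) (hv : 0 ≤ v) (hd : 0 ≤ d) (hw : 0 ≤ w) :
    0 ≤ (6569602808507 / 93750000000) * v ^ 5 + (372573047333903 / 156250000000) * u * v ^ 4 +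
      (15523935077676447 / 1562500000000) * u ^ 2 * v ^ 3 +
      (15911079890559723 / 976562500000) * u ^ 3 * v ^ 2 +
      (3740578773090249969 / 312500000000000) * u ^ 4 * v +
      (1030692359797812009 / 312500000000000) * u ^ 5 + (923455192541 / 46875000) * v ^ 4 * d +
      (12487424783051 / 156250000) * u * v ^ 3 * d +
      (190394297960031 / 1562500000) * u ^ 2 * v ^ 2 * d +
      (1293284201360697 / 15625000000) * u ^ 3 * v * d +
      (330255417968487 / 15625000000) * u ^ 4 * d + (365475883 / 62500) * v ^ 3 * d ^ 2 +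
      (2765787909 / 156250) * u * v ^ 2 * d ^ 2 + (111695553783 / 6250000) * u ^ 2 * v * d ^ 2 +
      (37620375723 / 6250000) * u ^ 3 * d ^ 2 + (11781 / 125) * v * d ^ 3 +
      (119421 / 1250) * u * d ^ 3 + (3) * d ^ 4 := by
  positivity

private lemma r2_l4b (h1 : -1 < x) (h2 : x < 1) (ha : 1 / 3 ≤ x) (hb : x ≤ 1 / 2)
    (hL : (3183 / 2500 + (537 / 5000) * x) ≤ A) :
    0 < F2 x A + 2 * A * (1 - x ^ 2) * (7 / 30 * (1 + x) * (1 - 3 * x)) := by
  have k := q2_l4b (x - 1 / 3) (1 / 2 - x) (A - (3183 / 2500 + (537 / 5000) * x)) 1 (by linarith) (by linarith)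
    (by linarith) (by linarith)
  unfold F2
  linarith [k]

private lemma q2_l5 (u v d w : ℝ) (hu : 0 ≤ u) (hv : 0 ≤ v) (hd : 0 ≤ d) (hw : 0 ≤ w) :
    0 ≤ (941532344846963 / 3200000000000) * v ^ 5 +
      (1016603054933259 / 640000000000) * u * v ^ 4 +
      (797557202694401 / 192000000000) * u ^ 2 * v ^ 3 +
      (1887645281465991 / 320000000000) * u ^ 3 * v ^ 2 +
      (2700379890452027 / 640000000000) * u ^ 4 * v +
      (3778401251354243 / 3200000000000) * u ^ 5 + (4077227382327 / 400000000) * v ^ 4 * d +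
      (8077904025999 / 200000000) * u * v ^ 3 * d +
      (6025655240033 / 100000000) * u ^ 2 * v ^ 2 * d +
      (24076981034867 / 600000000) * u ^ 3 * v * d + (4026800666117 / 400000000) * u ^ 4 * d +
      (1393347249 / 400000) * v ^ 3 * d ^ 2 + (4135161767 / 400000) * u * v ^ 2 * d ^ 2 +
      (4095606687 / 400000) * u ^ 2 * v * d ^ 2 + (1354352169 / 400000) * u ^ 3 * d ^ 2 +
      (39807 / 500) * v * d ^ 3 + (39237 / 500) * u * d ^ 3 + (3) * d ^ 4 := by
  positivity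

private lemma r2_l5 (h1 : -1 < x) (h2 : x < 1) (ha : 1 / 2 ≤ x) (hb : x ≤ 7 / 10)
    (hL : (859 / 625 + (-19 / 200) * x) ≤ A) :
    0 < F2 x A + 2 * A * (1 - x ^ 2) * (7 / 30 * (1 + x) * (1 - 3 * x)) := by
  have k := q2_l5 (x - 1 / 2) (7 / 10 - x) (A - (859 / 625 + (-19 / 200) * x)) 1 (by linarith) (by linarith)
    (by linarith) (by linarith)
  unfold F2
  linarith [k]

private lemma q2_l6 (u v d w : ℝ) (hu : 0 ≤ u) (hv : 0 ≤ v) (hd : 0 ≤ d) (hw : 0 ≤ w) :
    0 ≤ (1778401251354243 / 1048576000000) * v ^ 5 +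
      (6358530567981179 / 1048576000000) * u * v ^ 4 +
      (915112988090627 / 98304000000) * u ^ 2 * v ^ 3 +
      (3311956214990291 / 393216000000) * u ^ 3 * v ^ 2 +
      (307907755482417 / 65536000000) * u ^ 4 * v + (79796870055963 / 65536000000) * u ^ 5 +
      (4026800666117 / 163840000) * v ^ 4 * d + (9345785143373 / 98304000) * u * v ^ 3 * d +
      (11335253289241 / 81920000) * u ^ 2 * v ^ 2 * d +
      (3679569176237 / 40960000) * u ^ 3 * v * d + (449619959733 / 20480000) * u ^ 4 * d +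
      (1354352169 / 204800) * v ^ 3 * d ^ 2 + (3936962013 / 204800) * u * v ^ 2 * d ^ 2 +
      (95453477 / 5120) * u ^ 2 * v * d ^ 2 + (308953989 / 51200) * u ^ 3 * d ^ 2 +
      (39237 / 400) * v * d ^ 3 + (18753 / 200) * u * d ^ 3 + (3) * d ^ 4 := by
  positivity

private lemma r2_l6 (h1 : -1 < x) (h2 : x < 1) (ha : 7 / 10 ≤ x) (hb : x ≤ 43 / 50)
    (hL : (124827 / 80000 + (-577 / 1600) * x) ≤ A) :
    0 < F2 x A + 2 * A * (1 - x ^ 2) * (7 / 30 * (1 + x) * (1 - 3 * x)) := by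
  have k := q2_l6 (x - 7 / 10) (43 / 50 - x) (A - (124827 / 80000 + (-577 / 1600) * x)) 1 (by linarith) (by linarith)
    (by linarith) (by linarith)
  unfold F2
  linarith [k]

private lemma q2_l7 (u v d w : ℝ) (hu : 0 ≤ u) (hv : 0 ≤ v) (hd : 0 ≤ d) (hw : 0 ≤ w) :
    0 ≤ (80328124293709 / 4802000000) * w * v ^ 4 +
      (221468835223429 / 4802000000) * w * u * v ^ 3 +
      (214387044119 / 5042100) * w * u ^ 2 * v ^ 2 + (1339202125 / 100842) * w * u ^ 3 * v +
      (7375000 / 50421) * w * u ^ 4 + (64231422819 / 1715000) * v ^ 4 * d +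
      (1453828315753 / 12005000) * u * v ^ 3 * d + (350673249 / 2401) * u ^ 2 * v ^ 2 * d +
      (562037500 / 7203) * u ^ 3 * v * d + (37500000 / 2401) * u ^ 4 * d +
      (308953989 / 34300) * v ^ 3 * d ^ 2 + (790292009 / 34300) * u * v ^ 2 * d ^ 2 +
      (6687900 / 343) * u ^ 2 * v * d ^ 2 + (1875000 / 343) * u ^ 3 * d ^ 2 +
      (2679 / 25) * v * d ^ 3 + (600 / 7) * u * d ^ 3 + (3) * d ^ 4 := by
  positivity

private lemma r2_l7 (h1 : -1 < x) (h2 : x < 1) (ha : 43 / 50 ≤ x) (hb : x ≤ 1)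
    (hL : (1951 / 700 + (-1251 / 700) * x) ≤ A) :
    0 < F2 x A + 2 * A * (1 - x ^ 2) * (7 / 30 * (1 + x) * (1 - 3 * x)) := by
  have k := q2_l7 (x - 43 / 50) (1 - x) (A - (1951 / 700 + (-1251 / 700) * x)) (1 - x) (by linarith) (by linarith)
    (by linarith) (by linarith)
  unfold F2
  linarith [k]

private lemma q3_l1 (u v d w : ℝ) (hu : 0 ≤ u) (hv : 0 ≤ v) (hd : 0 ≤ d) (hw : 0 ≤ w) :
    0 ≤ (103100 / 243) * w * v ^ 4 + (1271263 / 1080) * w * u * v ^ 3 +
      (21160587497 / 19440000) * w * u ^ 2 * v ^ 2 +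
      (2200187557787 / 6480000000) * w * u ^ 3 * v + (23070539987 / 6480000000) * w * u ^ 4 +
      (20000 / 81) * v ^ 4 * d + (123370 / 81) * u * v ^ 3 * d +
      (31180967 / 10800) * u ^ 2 * v ^ 2 * d + (18075506371 / 8100000) * u ^ 3 * v * d +
      (1670440307 / 2700000) * u ^ 4 * d + (7000 / 27) * v ^ 3 * d ^ 2 +
      (1793 / 2) * u * v ^ 2 * d ^ 2 + (3009827 / 3000) * u ^ 2 * v * d ^ 2 +
      (9920743 / 27000) * u ^ 3 * d ^ 2 + (70 / 3) * v * d ^ 3 + (647 / 25) * u * d ^ 3 +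
      (2) * d ^ 4 := by
  positivity

private lemma r3_l1 (h1 : -1 < x) (h2 : x < 1) (ha : (-1) ≤ x) (hb : x ≤ (-7 / 10))
    (hL : (791 / 600 + (191 / 600) * x) ≤ A) :
    0 < F3 x A := by
  have k := q3_l1 (x - (-1)) ((-7 / 10) - x) (A - (791 / 600 + (191 / 600) * x)) (1 + x) (by linarith) (by linarith)
    (by linarith) (by linarith)
  unfold F3
  linarith [k]

private lemma q3_l2 (u v d w : ℝ) (hu : 0 ≤ u) (hv : 0 ≤ v) (hd : 0 ≤ d) (hw : 0 ≤ w) :
    0 ≤ (869211619961 / 2560000000) * v ^ 5 + (25426223646481 / 12800000000) * u * v ^ 4 +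
      (359014290334879 / 96000000000) * u ^ 2 * v ^ 3 +
      (463545612396873 / 160000000000) * u ^ 3 * v ^ 2 +
      (3911066513513063 / 4800000000000) * u ^ 4 * v + (16413024142441 / 1600000000000) * u ^ 5 +
      (5011320921 / 1600000) * v ^ 4 * d + (26567462583 / 2000000) * u * v ^ 3 * d +
      (1249963416877 / 60000000) * u ^ 2 * v ^ 2 * d +
      (2158512761113 / 150000000) * u ^ 3 * v * d + (741406955069 / 200000000) * u ^ 4 * d +
      (9920743 / 8000) * v ^ 3 * d ^ 2 + (157110409 / 40000) * u * v ^ 2 * d ^ 2 +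
      (824531533 / 200000) * u ^ 2 * v * d ^ 2 + (287278063 / 200000) * u ^ 3 * d ^ 2 +
      (1941 / 50) * v * d ^ 3 + (10289 / 250) * u * d ^ 3 + (2) * d ^ 4 := by
  positivity

private lemma r3_l2 (h1 : -1 < x) (h2 : x < 1) (ha : (-7 / 10) ≤ x) (hb : x ≤ (-1 / 2))
    (hL : (12999 / 10000 + (73 / 250) * x) ≤ A) :
    0 < F3 x A := by
  have k := q3_l2 (x - (-7 / 10)) ((-1 / 2) - x) (A - (12999 / 10000 + (73 / 250) * x)) 1 (by linarith) (by linarith)
    (by linarith) (by linarith)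
  unfold F3
  linarith [k]

private lemma q3_l3 (u v d w : ℝ) (hu : 0 ≤ u) (hv : 0 ≤ v) (hd : 0 ≤ d) (hw : 0 ≤ w) :
    0 ≤ (3216413024142441 / 156250000000000) * v ^ 5 +
      (36708549599654419 / 468750000000000) * u * v ^ 4 +
      (5247313153864321 / 58593750000000) * u ^ 2 * v ^ 3 +
      (234502167432439 / 7324218750000) * u ^ 3 * v ^ 2 +
      (1270193084603 / 1220703125000) * u ^ 4 * v + (1334991870113 / 1831054687500) * u ^ 5 +
      (741406955069 / 7812500000) * v ^ 4 * d + (1864770954661 / 4687500000) * u * v ^ 3 * d +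
      (7100340454661 / 11718750000) * u ^ 2 * v ^ 2 * d +
      (303350109929 / 732421875) * u ^ 3 * v * d + (79880926297 / 732421875) * u ^ 4 * d +
      (287278063 / 3125000) * v ^ 3 * d ^ 2 + (938607851 / 3125000) * u * v ^ 2 * d ^ 2 +
      (50138813 / 156250) * u ^ 2 * v * d ^ 2 + (44477684 / 390625) * u ^ 3 * d ^ 2 +
      (10289 / 625) * v * d ^ 3 + (11482 / 625) * u * d ^ 3 + (2) * d ^ 4 := by
  positivity

private lemma r3_l3 (h1 : -1 < x) (h2 : x < 1) (ha : (-1 / 2) ≤ x) (hb : x ≤ 0)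
    (hL : (3183 / 2500 + (1193 / 5000) * x) ≤ A) :
    0 < F3 x A := by
  have k := q3_l3 (x - (-1 / 2)) (0 - x) (A - (3183 / 2500 + (1193 / 5000) * x)) 1 (by linarith) (by linarith)
    (by linarith) (by linarith)
  unfold F3
  linarith [k]

private lemma q3_l4a (u v d w : ℝ) (hu : 0 ≤ u) (hv : 0 ≤ v) (hd : 0 ≤ d) (hw : 0 ≤ w) :
    0 ≤ (250517153979153 / 19531250000000) * v ^ 5 +
      (11912121050121 / 2441406250000) * u * v ^ 4 +
      (26198149609953 / 3906250000000) * u ^ 2 * v ^ 3 +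
      (410812379959857 / 3125000000000) * u ^ 3 * v ^ 2 +
      (471920794579623 / 2500000000000) * u ^ 4 * v + (108216677065669 / 1500000000000) * u ^ 5 +
      (2156785010019 / 3906250000) * v ^ 4 * d + (4262185192617 / 1953125000) * u * v ^ 3 * d +
      (10205932469187 / 3125000000) * u ^ 2 * v ^ 2 * d +
      (1378353841673 / 625000000) * u ^ 3 * v * d + (35441895787 / 62500000) * u ^ 4 * d +
      (300224367 / 781250) * v ^ 3 * d ^ 2 + (3646556163 / 3125000) * u * v ^ 2 * d ^ 2 +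
      (1474437033 / 1250000) * u ^ 2 * v * d ^ 2 + (99584711 / 250000) * u ^ 3 * d ^ 2 +
      (17223 / 625) * v * d ^ 3 + (3552 / 125) * u * d ^ 3 + (2) * d ^ 4 := by
  positivity

private lemma r3_l4a (h1 : -1 < x) (h2 : x < 1) (ha : 0 ≤ x) (hb : x ≤ 1 / 3)
    (hL : (3183 / 2500 + (537 / 5000) * x) ≤ A) :
    0 < F3 x A := by
  have k := q3_l4a (x - 0) (1 / 3 - x) (A - (3183 / 2500 + (537 / 5000) * x)) 1 (by linarith) (by linarith)
    (by linarith) (by linarith)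
  unfold F3
  linarith [k]

private lemma q3_l4b (u v d w : ℝ) (hu : 0 ≤ u) (hv : 0 ≤ v) (hd : 0 ≤ d) (hw : 0 ≤ w) :
    0 ≤ (2511677065669 / 46875000000) * v ^ 5 + (15961066031051 / 78125000000) * u * v ^ 4 +
      (801202822156899 / 781250000000) * u ^ 2 * v ^ 3 +
      (9471139326325053 / 3906250000000) * u ^ 3 * v ^ 2 +
      (362138753664163323 / 156250000000000) * u ^ 4 * v +
      (120035816011419003 / 156250000000000) * u ^ 5 + (35441895787 / 3906250) * v ^ 4 * d +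
      (2846673652767 / 78125000) * u * v ^ 3 * d +
      (21516564109401 / 390625000) * u ^ 2 * v ^ 2 * d +
      (290354085654399 / 7812500000) * u ^ 3 * v * d +
      (73797789044079 / 7812500000) * u ^ 4 * d + (99584711 / 31250) * v ^ 3 * d ^ 2 +
      (1503437481 / 156250) * u * v ^ 2 * d ^ 2 + (30279681261 / 3125000) * u ^ 2 * v * d ^ 2 +
      (10173777741 / 3125000) * u ^ 3 * d ^ 2 + (7104 / 125) * v * d ^ 3 +
      (36057 / 625) * u * d ^ 3 + (2) * d ^ 4 := by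
  positivity

private lemma r3_l4b (h1 : -1 < x) (h2 : x < 1) (ha : 1 / 3 ≤ x) (hb : x ≤ 1 / 2)
    (hL : (3183 / 2500 + (537 / 5000) * x) ≤ A) :
    0 < F3 x A + 2 * A * (1 - x ^ 2) * (7 / 30 * (1 + x) * (1 - 3 * x)) := by
  have k := q3_l4b (x - 1 / 3) (1 / 2 - x) (A - (3183 / 2500 + (537 / 5000) * x)) 1 (by linarith) (by linarith)
    (by linarith) (by linarith)
  unfold F3
  linarith [k]

private lemma q3_l5 (u v d w : ℝ) (hu : 0 ≤ u) (hv : 0 ≤ v) (hd : 0 ≤ d) (hw : 0 ≤ w) :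
    0 ≤ (93974551487321 / 1600000000000) * v ^ 5 + (34030725652753 / 320000000000) * u * v ^ 4 +
      (10450812129489 / 32000000000) * u ^ 2 * v ^ 3 +
      (145477696358997 / 160000000000) * u ^ 3 * v ^ 2 +
      (927297526031027 / 960000000000) * u ^ 4 * v + (538060125493081 / 1600000000000) * u ^ 5 +
      (911083815359 / 200000000) * v ^ 4 * d + (1781732130333 / 100000000) * u * v ^ 3 * d +
      (657749693443 / 25000000) * u ^ 2 * v ^ 2 * d +
      (1739980517763 / 100000000) * u ^ 3 * v * d + (870010733289 / 200000000) * u ^ 4 * d +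
      (376806583 / 200000) * v ^ 3 * d ^ 2 + (1111968089 / 200000) * u * v ^ 2 * d ^ 2 +
      (1095124729 / 200000) * u ^ 2 * v * d ^ 2 + (360243223 / 200000) * u ^ 3 * d ^ 2 +
      (12019 / 250) * v * d ^ 3 + (11829 / 250) * u * d ^ 3 + (2) * d ^ 4 := by
  positivity

private lemma r3_l5 (h1 : -1 < x) (h2 : x < 1) (ha : 1 / 2 ≤ x) (hb : x ≤ 7 / 10)
    (hL : (859 / 625 + (-19 / 200) * x) ≤ A) :
    0 < F3 x A + 2 * A * (1 - x ^ 2) * (7 / 30 * (1 + x) * (1 - 3 * x)) := by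
  have k := q3_l5 (x - 1 / 2) (7 / 10 - x) (A - (859 / 625 + (-19 / 200) * x)) 1 (by linarith) (by linarith)
    (by linarith) (by linarith)
  unfold F3
  linarith [k]

private lemma q3_l6 (u v d w : ℝ) (hu : 0 ≤ u) (hv : 0 ≤ v) (hd : 0 ≤ d) (hw : 0 ≤ w) :
    0 ≤ (188060125493081 / 524288000000) * v ^ 5 +
      (1131378544415179 / 1572864000000) * u * v ^ 4 +
      (22012821242787 / 65536000000) * u ^ 2 * v ^ 3 +
      (8321252174779 / 65536000000) * u ^ 3 * v ^ 2 +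
      (10759181542129 / 32768000000) * u ^ 4 * v + (5826139142481 / 32768000000) * u ^ 5 +
      (870010733289 / 81920000) * v ^ 4 * d + (665401016297 / 16384000) * u * v ^ 3 * d +
      (299953091409 / 5120000) * u ^ 2 * v ^ 2 * d + (774263790999 / 20480000) * u ^ 3 * v * d +
      (47162665183 / 5120000) * u ^ 4 * d + (360243223 / 102400) * v ^ 3 * d ^ 2 +
      (1039049671 / 102400) * u * v ^ 2 * d ^ 2 + (49993303 / 5120) * u ^ 2 * v * d ^ 2 +
      (80300743 / 25600) * u ^ 3 * d ^ 2 + (11829 / 200) * v * d ^ 3 + (2813 / 50) * u * d ^ 3 +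
      (2) * d ^ 4 := by
  positivity

private lemma r3_l6 (h1 : -1 < x) (h2 : x < 1) (ha : 7 / 10 ≤ x) (hb : x ≤ 43 / 50)
    (hL : (124827 / 80000 + (-577 / 1600) * x) ≤ A) :
    0 < F3 x A + 2 * A * (1 - x ^ 2) * (7 / 30 * (1 + x) * (1 - 3 * x)) := by
  have k := q3_l6 (x - 7 / 10) (43 / 50 - x) (A - (124827 / 80000 + (-577 / 1600) * x)) 1 (by linarith) (by linarith)
    (by linarith) (by linarith)
  unfold F3
  linarith [k]

private lemma q3_l7 (u v d w : ℝ) (hu : 0 ≤ u) (hv : 0 ≤ v) (hd : 0 ≤ d) (hw : 0 ≤ w) :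
    0 ≤ (15832305591783 / 2401000000) * w * v ^ 4 +
      (285321819797001 / 16807000000) * w * u * v ^ 3 +
      (96946155637 / 6722800) * w * u ^ 2 * v ^ 2 + (136656175 / 33614) * w * u ^ 3 * v +
      (1000000 / 50421) * w * u ^ 4 + (47162665183 / 3001250) * v ^ 4 * d +
      (41216322643 / 857500) * u * v ^ 3 * d + (524410781 / 9604) * u ^ 2 * v ^ 2 * d +
      (65942500 / 2401) * u ^ 3 * v * d + (12500000 / 2401) * u ^ 4 * d +
      (80300743 / 17150) * v ^ 3 * d ^ 2 + (199263503 / 17150) * u * v ^ 2 * d ^ 2 +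
      (464825 / 49) * u ^ 2 * v * d ^ 2 + (125000 / 49) * u ^ 3 * d ^ 2 +
      (11252 / 175) * v * d ^ 3 + (50) * u * d ^ 3 + (2) * d ^ 4 := by
  positivity

private lemma r3_l7 (h1 : -1 < x) (h2 : x < 1) (ha : 43 / 50 ≤ x) (hb : x ≤ 1)
    (hL : (1951 / 700 + (-1251 / 700) * x) ≤ A) :
    0 < F3 x A + 2 * A * (1 - x ^ 2) * (7 / 30 * (1 + x) * (1 - 3 * x)) := by
  have k := q3_l7 (x - 43 / 50) (1 - x) (A - (1951 / 700 + (-1251 / 700) * x)) (1 - x) (by linarith) (by linarith)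
    (by linarith) (by linarith)
  unfold F3
  linarith [k]

private lemma q4_l1 (u v d w : ℝ) (hu : 0 ≤ u) (hv : 0 ≤ v) (hd : 0 ≤ d) (hw : 0 ≤ w) :
    0 ≤ (21100 / 81) * w * v ^ 4 + (6897853 / 9720) * w * u * v ^ 3 +
      (1386323471 / 2160000) * w * u ^ 2 * v ^ 2 +
      (3799521357361 / 19440000000) * w * u ^ 3 * v + (16272853987 / 6480000000) * w * u ^ 4 +
      (20000 / 27) * v ^ 4 * d + (282830 / 81) * u * v ^ 3 * d +
      (63501929 / 10800) * u ^ 2 * v ^ 2 * d + (34693749371 / 8100000) * u ^ 3 * v * d +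
      (9334842421 / 8100000) * u ^ 4 * d + (13000 / 27) * v ^ 3 * d ^ 2 +
      (28519 / 18) * u * v ^ 2 * d ^ 2 + (15411481 / 9000) * u ^ 2 * v * d ^ 2 +
      (16493743 / 27000) * u ^ 3 * d ^ 2 + (30) * v * d ^ 3 + (2441 / 75) * u * d ^ 3 +
      (2) * d ^ 4 := by
  positivity

private lemma r4_l1 (h1 : -1 < x) (h2 : x < 1) (ha : (-1) ≤ x) (hb : x ≤ (-7 / 10))
    (hL : (791 / 600 + (191 / 600) * x) ≤ A) :
    0 < F4 x A := by
  have k := q4_l1 (x - (-1)) ((-7 / 10) - x) (A - (791 / 600 + (191 / 600) * x)) (1 + x) (by linarith) (by linarith)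
    (by linarith) (by linarith)
  unfold F4
  linarith [k]

private lemma q4_l2 (u v d w : ℝ) (hu : 0 ≤ u) (hv : 0 ≤ v) (hd : 0 ≤ d) (hw : 0 ≤ w) :
    0 ≤ (608818561961 / 2560000000) * v ^ 5 + (15802495420481 / 12800000000) * u * v ^ 4 +
      (205901955568879 / 96000000000) * u ^ 2 * v ^ 3 +
      (249942350970873 / 160000000000) * u ^ 3 * v ^ 2 +
      (2083172822603063 / 4800000000000) * u ^ 4 * v + (31495862332441 / 1600000000000) * u ^ 5 +
      (9334842421 / 1600000) * v ^ 4 * d + (48661728083 / 2000000) * u * v ^ 3 * d +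
      (2270962350377 / 60000000) * u ^ 2 * v ^ 2 * d +
      (3912918253613 / 150000000) * u ^ 3 * v * d + (1346270862569 / 200000000) * u ^ 4 * d +
      (16493743 / 8000) * v ^ 3 * d ^ 2 + (257457409 / 40000) * u * v ^ 2 * d ^ 2 +
      (1335026533 / 200000) * u ^ 2 * v * d ^ 2 + (460363063 / 200000) * u ^ 3 * d ^ 2 +
      (2441 / 50) * v * d ^ 3 + (12789 / 250) * u * d ^ 3 + (2) * d ^ 4 := by
  positivity

private lemma r4_l2 (h1 : -1 < x) (h2 : x < 1) (ha : (-7 / 10) ≤ x) (hb : x ≤ (-1 / 2))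
    (hL : (12999 / 10000 + (73 / 250) * x) ≤ A) :
    0 < F4 x A := by
  have k := q4_l2 (x - (-7 / 10)) ((-1 / 2) - x) (A - (12999 / 10000 + (73 / 250) * x)) 1 (by linarith) (by linarith)
    (by linarith) (by linarith)
  unfold F4
  linarith [k]

private lemma q4_l3 (u v d w : ℝ) (hu : 0 ≤ u) (hv : 0 ≤ v) (hd : 0 ≤ d) (hw : 0 ≤ w) :
    0 ≤ (1381495862332441 / 156250000000000) * v ^ 5 +
      (12382148872274419 / 468750000000000) * u * v ^ 4 +
      (953303186835571 / 58593750000000) * u ^ 2 * v ^ 3 +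
      (1936930458407 / 3662109375000) * u ^ 3 * v ^ 2 +
      (12781118845853 / 1220703125000) * u ^ 4 * v + (15592713022613 / 1831054687500) * u ^ 5 +
      (1346270862569 / 7812500000) * v ^ 4 * d + (3409088575661 / 4687500000) * u * v ^ 3 * d +
      (13370583995911 / 11718750000) * u ^ 2 * v ^ 2 * d +
      (588688445554 / 732421875) * u ^ 3 * v * d + (157922677547 / 732421875) * u ^ 4 * d +
      (460363063 / 3125000) * v ^ 3 * d ^ 2 + (1475757851 / 3125000) * u * v ^ 2 * d ^ 2 +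
      (77891063 / 156250) * u ^ 2 * v * d ^ 2 + (68350184 / 390625) * u ^ 3 * d ^ 2 +
      (12789 / 625) * v * d ^ 3 + (13982 / 625) * u * d ^ 3 + (2) * d ^ 4 := by
  positivity

private lemma r4_l3 (h1 : -1 < x) (h2 : x < 1) (ha : (-1 / 2) ≤ x) (hb : x ≤ 0)
    (hL : (3183 / 2500 + (1193 / 5000) * x) ≤ A) :
    0 < F4 x A := by
  have k := q4_l3 (x - (-1 / 2)) (0 - x) (A - (3183 / 2500 + (1193 / 5000) * x)) 1 (by linarith) (by linarith)
    (by linarith) (by linarith)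
  unfold F4
  linarith [k]

private lemma q4_l4a (u v d w : ℝ) (hu : 0 ≤ u) (hv : 0 ≤ v) (hd : 0 ≤ d) (hw : 0 ≤ w) :
    0 ≤ (29025379831653 / 19531250000000) * v ^ 5 +
      (261381162018609 / 9765625000000) * u * v ^ 4 +
      (218954297499957 / 976562500000) * u ^ 2 * v ^ 3 +
      (1681264681217607 / 3125000000000) * u ^ 3 * v ^ 2 +
      (1240241116583623 / 2500000000000) * u ^ 4 * v +
      (235805569606669 / 1500000000000) * u ^ 5 + (4263912293769 / 3906250000) * v ^ 4 * d +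
      (2153047588623 / 488281250) * u * v ^ 3 * d +
      (21003692774937 / 3125000000) * u ^ 2 * v ^ 2 * d +
      (2868264470173 / 625000000) * u ^ 3 * v * d + (36981940581 / 31250000) * u ^ 4 * d +
      (230681871 / 390625) * v ^ 3 * d ^ 2 + (5598352413 / 3125000) * u * v ^ 2 * d ^ 2 +
      (2262405033 / 1250000) * u ^ 2 * v * d ^ 2 + (152599211 / 250000) * u ^ 3 * d ^ 2 +
      (20973 / 625) * v * d ^ 3 + (4302 / 125) * u * d ^ 3 + (2) * d ^ 4 := by
  positivity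

private lemma r4_l4a (h1 : -1 < x) (h2 : x < 1) (ha : 0 ≤ x) (hb : x ≤ 1 / 3)
    (hL : (3183 / 2500 + (537 / 5000) * x) ≤ A) :
    0 < F4 x A := by
  have k := q4_l4a (x - 0) (1 / 3 - x) (A - (3183 / 2500 + (537 / 5000) * x)) 1 (by linarith) (by linarith)
    (by linarith) (by linarith)
  unfold F4
  linarith [k]

private lemma q4_l4b (u v d w : ℝ) (hu : 0 ≤ u) (hv : 0 ≤ v) (hd : 0 ≤ d) (hw : 0 ≤ w) :
    0 ≤ (2525569606669 / 46875000000) * v ^ 5 + (163537061791551 / 78125000000) * u * v ^ 4 +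
      (6875832467427399 / 781250000000) * u ^ 2 * v ^ 3 +
      (56466168316576803 / 3906250000000) * u ^ 3 * v ^ 2 +
      (1658120734456003323 / 156250000000000) * u ^ 4 * v +
      (456036883196289003 / 156250000000000) * u ^ 5 + (36981940581 / 1953125) * v ^ 4 * d +
      (5979401269267 / 78125000) * u * v ^ 3 * d +
      (11349283844319 / 97656250) * u ^ 2 * v ^ 2 * d +
      (613890784419399 / 7812500000) * u ^ 3 * v * d +
      (155951853351579 / 7812500000) * u ^ 4 * d + (152599211 / 31250) * v ^ 3 * d ^ 2 +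
      (2302279731 / 156250) * u * v ^ 2 * d ^ 2 + (46329021261 / 3125000) * u ^ 2 * v * d ^ 2 +
      (15547722741 / 3125000) * u ^ 3 * d ^ 2 + (8604 / 125) * v * d ^ 3 +
      (43557 / 625) * u * d ^ 3 + (2) * d ^ 4 := by
  positivity

private lemma r4_l4b (h1 : -1 < x) (h2 : x < 1) (ha : 1 / 3 ≤ x) (hb : x ≤ 1 / 2)
    (hL : (3183 / 2500 + (537 / 5000) * x) ≤ A) :
    0 < F4 x A + 2 * A * (1 - x ^ 2) * (7 / 30 * (1 + x) * (1 - 3 * x)) := by
  have k := q4_l4b (x - 1 / 3) (1 / 2 - x) (A - (3183 / 2500 + (537 / 5000) * x)) 1 (by linarith) (by linarith)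
    (by linarith) (by linarith)
  unfold F4
  linarith [k]

private lemma q4_l5 (u v d w : ℝ) (hu : 0 ≤ u) (hv : 0 ≤ v) (hd : 0 ≤ d) (hw : 0 ≤ w) :
    0 ≤ (376694992577321 / 1600000000000) * v ^ 5 +
      (367579515202753 / 320000000000) * u * v ^ 4 +
      (278451338814467 / 96000000000) * u ^ 2 * v ^ 3 +
      (2008236985786991 / 480000000000) * u ^ 3 * v ^ 2 +
      (2960875791421027 / 960000000000) * u ^ 4 * v +
      (1421302445883081 / 1600000000000) * u ^ 5 + (1925331522859 / 200000000) * v ^ 4 * d +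
      (3807569220333 / 100000000) * u * v ^ 3 * d +
      (1062200430551 / 18750000) * u ^ 2 * v ^ 2 * d +
      (11275915123289 / 300000000) * u ^ 3 * v * d + (1876612540789 / 200000000) * u ^ 4 * d +
      (575841583 / 200000) * v ^ 3 * d ^ 2 + (1706223089 / 200000) * u * v ^ 2 * d ^ 2 +
      (1686529729 / 200000) * u ^ 2 * v * d ^ 2 + (556428223 / 200000) * u ^ 3 * d ^ 2 +
      (14519 / 250) * v * d ^ 3 + (14329 / 250) * u * d ^ 3 + (2) * d ^ 4 := by
  positivity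

private lemma r4_l5 (h1 : -1 < x) (h2 : x < 1) (ha : 1 / 2 ≤ x) (hb : x ≤ 7 / 10)
    (hL : (859 / 625 + (-19 / 200) * x) ≤ A) :
    0 < F4 x A + 2 * A * (1 - x ^ 2) * (7 / 30 * (1 + x) * (1 - 3 * x)) := by
  have k := q4_l5 (x - 1 / 2) (7 / 10 - x) (A - (859 / 625 + (-19 / 200) * x)) 1 (by linarith) (by linarith)
    (by linarith) (by linarith)
  unfold F4
  linarith [k]

private lemma q4_l6 (u v d w : ℝ) (hu : 0 ≤ u) (hv : 0 ≤ v) (hd : 0 ≤ d) (hw : 0 ≤ w) :
    0 ≤ (921302445883081 / 524288000000) * v ^ 5 +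
      (9460938915135179 / 1572864000000) * u * v ^ 4 +
      (545599890841537 / 65536000000) * u ^ 2 * v ^ 3 +
      (1259352980011837 / 196608000000) * u ^ 3 * v ^ 2 +
      (102093536344629 / 32768000000) * u ^ 4 * v + (25517628797481 / 32768000000) * u ^ 5 +
      (1876612540789 / 81920000) * v ^ 4 * d + (4356784139891 / 49152000) * u * v ^ 3 * d +
      (7921636780033 / 61440000) * u ^ 2 * v ^ 2 * d +
      (1711486223499 / 20480000) * u ^ 3 * v * d + (52133108529 / 2560000) * u ^ 4 * d +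
      (556428223 / 102400) * v ^ 3 * d ^ 2 + (1618949671 / 102400) * u * v ^ 2 * d ^ 2 +
      (78555553 / 5120) * u ^ 2 * v * d ^ 2 + (127183243 / 25600) * u ^ 3 * d ^ 2 +
      (14329 / 200) * v * d ^ 3 + (1719 / 25) * u * d ^ 3 + (2) * d ^ 4 := by
  positivity

private lemma r4_l6 (h1 : -1 < x) (h2 : x < 1) (ha : 7 / 10 ≤ x) (hb : x ≤ 43 / 50)
    (hL : (124827 / 80000 + (-577 / 1600) * x) ≤ A) :
    0 < F4 x A + 2 * A * (1 - x ^ 2) * (7 / 30 * (1 + x) * (1 - 3 * x)) := by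
  have k := q4_l6 (x - 7 / 10) (43 / 50 - x) (A - (124827 / 80000 + (-577 / 1600) * x)) 1 (by linarith) (by linarith)
    (by linarith) (by linarith)
  unfold F4
  linarith [k]

private lemma q4_l7 (u v d w : ℝ) (hu : 0 ≤ u) (hv : 0 ≤ v) (hd : 0 ≤ d) (hw : 0 ≤ w) :
    0 ≤ (38109661256783 / 2401000000) * w * v ^ 4 +
      (750715250707001 / 16807000000) * w * u * v ^ 3 +
      (849318086417 / 20168400) * w * u ^ 2 * v ^ 2 + (1358404975 / 100842) * w * u ^ 3 * v +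
      (7375000 / 50421) * w * u ^ 4 + (52133108529 / 1500625) * v ^ 4 * d +
      (688217616001 / 6002500) * u * v ^ 3 * d + (4065994361 / 28812) * u ^ 2 * v ^ 2 * d +
      (553422500 / 7203) * u ^ 3 * v * d + (37500000 / 2401) * u ^ 4 * d +
      (127183243 / 17150) * v ^ 3 * d ^ 2 + (330528503 / 17150) * u * v ^ 2 * d ^ 2 +
      (5691425 / 343) * u ^ 2 * v * d ^ 2 + (1625000 / 343) * u ^ 3 * d ^ 2 +
      (13752 / 175) * v * d ^ 3 + (450 / 7) * u * d ^ 3 + (2) * d ^ 4 := by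
  positivity

private lemma r4_l7 (h1 : -1 < x) (h2 : x < 1) (ha : 43 / 50 ≤ x) (hb : x ≤ 1)
    (hL : (1951 / 700 + (-1251 / 700) * x) ≤ A) :
    0 < F4 x A + 2 * A * (1 - x ^ 2) * (7 / 30 * (1 + x) * (1 - 3 * x)) := by
  have k := q4_l7 (x - 43 / 50) (1 - x) (A - (1951 / 700 + (-1251 / 700) * x)) (1 - x) (by linarith) (by linarith)
    (by linarith) (by linarith)
  unfold F4
  linarith [k]

private lemma qt_l1 (u v d w : ℝ) (hu : 0 ≤ u) (hv : 0 ≤ v) (hd : 0 ≤ d) (hw : 0 ≤ w) :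
    0 ≤ (191 / 27) * u * v ^ 2 + (1228481 / 108000) * u ^ 2 * v + (57209 / 12000) * u ^ 3 +
      (20 / 3) * v * d + (2191 / 300) * u * d + (1) * d ^ 2 := by
  positivity

private lemma rt_l1 (h1 : -1 < x) (h2 : x < 1) (ha : (-1) ≤ x) (hb : x ≤ (-7 / 10))
    (hL : (791 / 600 + (191 / 600) * x) ≤ A) :
    2 * (7 / 30 * (1 + x)) * (1 - x ^ 2) ≤ A ^ 2 - 1 := by
  have k := qt_l1 (x - (-1)) ((-7 / 10) - x) (A - (791 / 600 + (191 / 600) * x)) 1 (by linarith) (by linarith)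
    (by linarith) (by linarith)
  linarith [k]

private lemma qy_l1 (u v d w : ℝ) (hu : 0 ≤ u) (hv : 0 ≤ v) (hd : 0 ≤ d) (hw : 0 ≤ w) :
    0 ≤ (100 / 9) * v ^ 3 + (194 / 9) * u * v ^ 2 + (209767 / 18000) * u ^ 2 * v +
      (1900811 / 1200000) * u ^ 3 + (400 / 9) * v ^ 2 * d + (3701 / 45) * u * v * d +
      (116263 / 3000) * u ^ 2 * d + (20 / 3) * v * d ^ 2 + (179 / 30) * u * d ^ 2 := by
  positivity

private lemma ry_l1 (h1 : -1 < x) (h2 : x < 1) (ha : (-1) ≤ x) (hb : x ≤ (-7 / 10))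
    (hL : (791 / 600 + (191 / 600) * x) ≤ A) :
    0 < 2 * A ^ 2 + 7 / 30 * (1 + x) * (6 * x - 2) * A -
      7 / 30 * (1 + x) * (3 * A ^ 2 - 1) := by
  have k := qy_l1 (x - (-1)) ((-7 / 10) - x) (A - (791 / 600 + (191 / 600) * x)) 1 (by linarith) (by linarith)
    (by linarith) (by linarith)
  linarith [k]

private lemma qt_l2 (u v d w : ℝ) (hu : 0 ≤ u) (hv : 0 ≤ v) (hd : 0 ≤ d) (hw : 0 ≤ w) :
    0 ≤ (514881 / 32000) * v ^ 3 + (8546303 / 160000) * u * v ^ 2 +
      (135404033 / 2400000) * u ^ 2 * v + (15648521 / 800000) * u ^ 3 + (2191 / 200) * v * d +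
      (11539 / 1000) * u * d + (1) * d ^ 2 := by
  positivity

private lemma rt_l2 (h1 : -1 < x) (h2 : x < 1) (ha : (-7 / 10) ≤ x) (hb : x ≤ (-1 / 2))
    (hL : (12999 / 10000 + (73 / 250) * x) ≤ A) :
    2 * (7 / 30 * (1 + x)) * (1 - x ^ 2) ≤ A ^ 2 - 1 := by
  have k := qt_l2 (x - (-7 / 10)) ((-1 / 2) - x) (A - (12999 / 10000 + (73 / 250) * x)) 1 (by linarith) (by linarith)
    (by linarith) (by linarith)
  linarith [k]

private lemma qy_l2 (u v d w : ℝ) (hu : 0 ≤ u) (hv : 0 ≤ v) (hd : 0 ≤ d) (hw : 0 ≤ w) :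
    0 ≤ (57107299 / 3200000) * v ^ 3 + (571409367 / 16000000) * u * v ^ 2 +
      (5419573327 / 240000000) * u ^ 2 * v + (243053579 / 48000000) * u ^ 3 +
      (348789 / 4000) * v ^ 2 * d + (625573 / 3750) * u * v * d + (967361 / 12000) * u ^ 2 * d +
      (179 / 20) * v * d ^ 2 + (33 / 4) * u * d ^ 2 := by
  positivity

private lemma ry_l2 (h1 : -1 < x) (h2 : x < 1) (ha : (-7 / 10) ≤ x) (hb : x ≤ (-1 / 2))
    (hL : (12999 / 10000 + (73 / 250) * x) ≤ A) :
    0 < 2 * A ^ 2 + 7 / 30 * (1 + x) * (6 * x - 2) * A -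
      7 / 30 * (1 + x) * (3 * A ^ 2 - 1) := by
  have k := qy_l2 (x - (-7 / 10)) ((-1 / 2) - x) (A - (12999 / 10000 + (73 / 250) * x)) 1 (by linarith) (by linarith)
    (by linarith) (by linarith)
  linarith [k]

private lemma qt_l3 (u v d w : ℝ) (hu : 0 ≤ u) (hv : 0 ≤ v) (hd : 0 ≤ d) (hw : 0 ≤ w) :
    0 ≤ (15648521 / 12500000) * v ^ 3 + (135932851 / 37500000) * u * v ^ 2 +
      (2944969 / 937500) * u ^ 2 * v + (2894467 / 2343750) * u ^ 3 + (11539 / 2500) * v * d +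
      (3183 / 625) * u * d + (1) * d ^ 2 := by
  positivity

private lemma rt_l3 (h1 : -1 < x) (h2 : x < 1) (ha : (-1 / 2) ≤ x) (hb : x ≤ 0)
    (hL : (3183 / 2500 + (1193 / 5000) * x) ≤ A) :
    2 * (7 / 30 * (1 + x)) * (1 - x ^ 2) ≤ A ^ 2 - 1 := by
  have k := qt_l3 (x - (-1 / 2)) (0 - x) (A - (3183 / 2500 + (1193 / 5000) * x)) 1 (by linarith) (by linarith)
    (by linarith) (by linarith)
  linarith [k]

private lemma qy_l3 (u v d w : ℝ) (hu : 0 ≤ u) (hv : 0 ≤ v) (hd : 0 ≤ d) (hw : 0 ≤ w) :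
    0 ≤ (843053579 / 750000000) * v ^ 3 + (562852571 / 375000000) * u * v ^ 2 +
      (48160877 / 23437500) * u ^ 2 * v + (46223071 / 23437500) * u ^ 3 +
      (967361 / 75000) * v ^ 2 * d + (58017 / 2500) * u * v * d + (106637 / 9375) * u ^ 2 * d +
      (33 / 10) * v * d ^ 2 + (13 / 5) * u * d ^ 2 := by
  positivity

private lemma ry_l3 (h1 : -1 < x) (h2 : x < 1) (ha : (-1 / 2) ≤ x) (hb : x ≤ 0)
    (hL : (3183 / 2500 + (1193 / 5000) * x) ≤ A) :
    0 < 2 * A ^ 2 + 7 / 30 * (1 + x) * (6 * x - 2) * A -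
      7 / 30 * (1 + x) * (3 * A ^ 2 - 1) := by
  have k := qy_l3 (x - (-1 / 2)) (0 - x) (A - (3183 / 2500 + (1193 / 5000) * x)) 1 (by linarith) (by linarith)
    (by linarith) (by linarith)
  linarith [k]

private lemma qt_l4a (u v d w : ℝ) (hu : 0 ≤ u) (hv : 0 ≤ v) (hd : 0 ≤ d) (hw : 0 ≤ w) :
    0 ≤ (26050203 / 6250000) * v ^ 3 + (4205253 / 390625) * u * v ^ 2 +
      (52307011 / 5000000) * u ^ 2 * v + (12991961 / 3000000) * u ^ 3 + (9549 / 1250) * v * d +
      (3927 / 500) * u * d + (1) * d ^ 2 := by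
  positivity

private lemma rt_l4a (h1 : -1 < x) (h2 : x < 1) (ha : 0 ≤ x) (hb : x ≤ 1 / 3)
    (hL : (3183 / 2500 + (537 / 5000) * x) ≤ A) :
    2 * (7 / 30 * (1 + x)) * (1 - x ^ 2) ≤ A ^ 2 - 1 := by
  have k := qt_l4a (x - 0) (1 / 3 - x) (A - (3183 / 2500 + (537 / 5000) * x)) 1 (by linarith) (by linarith)
    (by linarith) (by linarith)
  linarith [k]

private lemma qy_l4a (u v d w : ℝ) (hu : 0 ≤ u) (hv : 0 ≤ v) (hd : 0 ≤ d) (hw : 0 ≤ w) :
    0 ≤ (78507639 / 62500000) * v ^ 3 + (568711317 / 62500000) * u * v ^ 2 +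
      (977461299 / 50000000) * u ^ 2 * v + (3702579 / 312500) * u ^ 3 +
      (319911 / 12500) * v ^ 2 * d + (1236901 / 25000) * u * v * d + (15708 / 625) * u ^ 2 * d +
      (39 / 10) * v * d ^ 2 + (16 / 5) * u * d ^ 2 := by
  positivity

private lemma ry_l4a (h1 : -1 < x) (h2 : x < 1) (ha : 0 ≤ x) (hb : x ≤ 1 / 3)
    (hL : (3183 / 2500 + (537 / 5000) * x) ≤ A) :
    0 < 2 * A ^ 2 + 7 / 30 * (1 + x) * (6 * x - 2) * A -
      7 / 30 * (1 + x) * (3 * A ^ 2 - 1) := by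
  have k := qy_l4a (x - 0) (1 / 3 - x) (A - (3183 / 2500 + (537 / 5000) * x)) 1 (by linarith) (by linarith)
    (by linarith) (by linarith)
  linarith [k]

private lemma qt_l4b (u v d w : ℝ) (hu : 0 ≤ u) (hv : 0 ≤ v) (hd : 0 ≤ d) (hw : 0 ≤ w) :
    0 ≤ (12991961 / 375000) * v ^ 3 + (35643101 / 312500) * u * v ^ 2 +
      (1623117087 / 12500000) * u ^ 2 * v + (636291747 / 12500000) * u ^ 3 +
      (3927 / 250) * v * d + (39807 / 2500) * u * d + (1) * d ^ 2 := by
  positivity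

private lemma rt_l4b (h1 : -1 < x) (h2 : x < 1) (ha : 1 / 3 ≤ x) (hb : x ≤ 1 / 2)
    (hL : (3183 / 2500 + (537 / 5000) * x) ≤ A) :
    2 * (7 / 30 * (1 + x)) * (1 - x ^ 2) ≤ A ^ 2 - 1 := by
  have k := qt_l4b (x - 1 / 3) (1 / 2 - x) (A - (3183 / 2500 + (537 / 5000) * x)) 1 (by linarith) (by linarith)
    (by linarith) (by linarith)
  linarith [k]

private lemma qy_l4b (u v d w : ℝ) (hu : 0 ≤ u) (hv : 0 ≤ v) (hd : 0 ≤ d) (hw : 0 ≤ w) :
    0 ≤ (655158 / 78125) * v ^ 3 + (1114252461 / 12500000) * u * v ^ 2 +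
      (10263356349 / 62500000) * u ^ 2 * v + (20900453193 / 250000000) * u ^ 3 +
      (62832 / 625) * v ^ 2 * d + (2533019 / 12500) * u * v * d + (2583999 / 25000) * u ^ 2 * d +
      (32 / 5) * v * d ^ 2 + (57 / 10) * u * d ^ 2 := by
  positivity

private lemma ry_l4b (h1 : -1 < x) (h2 : x < 1) (ha : 1 / 3 ≤ x) (hb : x ≤ 1 / 2)
    (hL : (3183 / 2500 + (537 / 5000) * x) ≤ A) :
    0 < 2 * A ^ 2 + 7 / 30 * (1 + x) * (6 * x - 2) * A -
      7 / 30 * (1 + x) * (3 * A ^ 2 - 1) := by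
  have k := qy_l4b (x - 1 / 3) (1 / 2 - x) (A - (3183 / 2500 + (537 / 5000) * x)) 1 (by linarith) (by linarith)
    (by linarith) (by linarith)
  linarith [k]

private lemma qt_l5 (u v d w : ℝ) (hu : 0 ≤ u) (hv : 0 ≤ v) (hd : 0 ≤ d) (hw : 0 ≤ w) :
    0 ≤ (23566361 / 800000) * v ^ 3 + (72656863 / 800000) * u * v ^ 2 +
      (237952229 / 2400000) * u ^ 2 * v + (30600241 / 800000) * u ^ 3 + (13269 / 1000) * v * d +
      (13079 / 1000) * u * d + (1) * d ^ 2 := by
  positivity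

private lemma rt_l5 (h1 : -1 < x) (h2 : x < 1) (ha : 1 / 2 ≤ x) (hb : x ≤ 7 / 10)
    (hL : (859 / 625 + (-19 / 200) * x) ≤ A) :
    2 * (7 / 30 * (1 + x)) * (1 - x ^ 2) ≤ A ^ 2 - 1 := by
  have k := qt_l5 (x - 1 / 2) (7 / 10 - x) (A - (859 / 625 + (-19 / 200) * x)) 1 (by linarith) (by linarith)
    (by linarith) (by linarith)
  linarith [k]

private lemma qy_l5 (u v d w : ℝ) (hu : 0 ≤ u) (hv : 0 ≤ v) (hd : 0 ≤ d) (hw : 0 ≤ w) :
    0 ≤ (174090859 / 16000000) * v ^ 3 + (18779368793 / 240000000) * u * v ^ 2 +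
      (31909902671 / 240000000) * u ^ 2 * v + (5236153521 / 80000000) * u ^ 3 +
      (287111 / 4000) * v ^ 2 * d + (4350941 / 30000) * u * v * d +
      (4487197 / 60000) * u ^ 2 * d + (19 / 4) * v * d ^ 2 + (81 / 20) * u * d ^ 2 := by
  positivity

private lemma ry_l5 (h1 : -1 < x) (h2 : x < 1) (ha : 1 / 2 ≤ x) (hb : x ≤ 7 / 10)
    (hL : (859 / 625 + (-19 / 200) * x) ≤ A) :
    0 < 2 * A ^ 2 + 7 / 30 * (1 + x) * (6 * x - 2) * A -
      7 / 30 * (1 + x) * (3 * A ^ 2 - 1) := by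
  have k := qy_l5 (x - 1 / 2) (7 / 10 - x) (A - (859 / 625 + (-19 / 200) * x)) 1 (by linarith) (by linarith)
    (by linarith) (by linarith)
  linarith [k]

private lemma qt_l6 (u v d w : ℝ) (hu : 0 ≤ u) (hv : 0 ≤ v) (hd : 0 ≤ d) (hw : 0 ≤ w) :
    0 ≤ (30600241 / 409600) * v ^ 3 + (272010671 / 1228800) * u * v ^ 2 +
      (2339403 / 10240) * u ^ 2 * v + (8424321 / 102400) * u ^ 3 + (13079 / 800) * v * d +
      (6251 / 400) * u * d + (1) * d ^ 2 := by
  positivity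

private lemma rt_l6 (h1 : -1 < x) (h2 : x < 1) (ha : 7 / 10 ≤ x) (hb : x ≤ 43 / 50)
    (hL : (124827 / 80000 + (-577 / 1600) * x) ≤ A) :
    2 * (7 / 30 * (1 + x)) * (1 - x ^ 2) ≤ A ^ 2 - 1 := by
  have k := qt_l6 (x - 7 / 10) (43 / 50 - x) (A - (124827 / 80000 + (-577 / 1600) * x)) 1 (by linarith) (by linarith)
    (by linarith) (by linarith)
  linarith [k]

private lemma qy_l6 (u v d w : ℝ) (hu : 0 ≤ u) (hv : 0 ≤ v) (hd : 0 ≤ d) (hw : 0 ≤ w) :
    0 ≤ (236153521 / 40960000) * v ^ 3 + (52418237267 / 614400000) * u * v ^ 2 +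
      (12521788639 / 76800000) * u ^ 2 * v + (4244353949 / 51200000) * u ^ 3 +
      (4487197 / 38400) * v ^ 2 * d + (45445643 / 192000) * u * v * d +
      (3895899 / 32000) * u ^ 2 * d + (81 / 16) * v * d ^ 2 + (349 / 80) * u * d ^ 2 := by
  positivity

private lemma ry_l6 (h1 : -1 < x) (h2 : x < 1) (ha : 7 / 10 ≤ x) (hb : x ≤ 43 / 50)
    (hL : (124827 / 80000 + (-577 / 1600) * x) ≤ A) :
    0 < 2 * A ^ 2 + 7 / 30 * (1 + x) * (6 * x - 2) * A -
      7 / 30 * (1 + x) * (3 * A ^ 2 - 1) := by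
  have k := qy_l6 (x - 7 / 10) (43 / 50 - x) (A - (124827 / 80000 + (-577 / 1600) * x)) 1 (by linarith) (by linarith)
    (by linarith) (by linarith)
  linarith [k]

private lemma qt_l7 (u v d w : ℝ) (hu : 0 ≤ u) (hv : 0 ≤ v) (hd : 0 ≤ d) (hw : 0 ≤ w) :
    0 ≤ (8424321 / 68600) * v ^ 3 + (14433001 / 68600) * u * v ^ 2 + (89650 / 1029) * u ^ 2 * v +
      (893 / 50) * v * d + (100 / 7) * u * d + (1) * d ^ 2 := by
  positivity

private lemma rt_l7 (h1 : -1 < x) (h2 : x < 1) (ha : 43 / 50 ≤ x) (hb : x ≤ 1)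
    (hL : (1951 / 700 + (-1251 / 700) * x) ≤ A) :
    2 * (7 / 30 * (1 + x)) * (1 - x ^ 2) ≤ A ^ 2 - 1 := by
  have k := qt_l7 (x - 43 / 50) (1 - x) (A - (1951 / 700 + (-1251 / 700) * x)) 1 (by linarith) (by linarith)
    (by linarith) (by linarith)
  linarith [k]

private lemma qy_l7 (u v d w : ℝ) (hu : 0 ≤ u) (hv : 0 ≤ v) (hd : 0 ≤ d) (hw : 0 ≤ w) :
    0 ≤ (4244353949 / 34300000) * v ^ 3 + (263685509 / 1029000) * u * v ^ 2 +
      (153730 / 1029) * u ^ 2 * v + (12500 / 1029) * u ^ 3 + (556557 / 3500) * v ^ 2 * d +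
      (229009 / 735) * u * v * d + (23000 / 147) * u ^ 2 * d + (349 / 70) * v * d ^ 2 +
      (30 / 7) * u * d ^ 2 := by
  positivity

private lemma ry_l7 (h1 : -1 < x) (h2 : x < 1) (ha : 43 / 50 ≤ x) (hb : x ≤ 1)
    (hL : (1951 / 700 + (-1251 / 700) * x) ≤ A) :
    0 < 2 * A ^ 2 + 7 / 30 * (1 + x) * (6 * x - 2) * A -
      7 / 30 * (1 + x) * (3 * A ^ 2 - 1) := by
  have k := qy_l7 (x - 43 / 50) (1 - x) (A - (1951 / 700 + (-1251 / 700) * x)) 1 (by linarith) (by linarith)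
    (by linarith) (by linarith)
  linarith [k]

private lemma both1 (h1 : -1 < x) (h2 : x < 1) (hA : 0 < A) (h : Enc x A) :
    0 < F1 x A ∧ 0 < F1 x A + 2 * A * (1 - x ^ 2) * (7 / 30 * (1 + x) * (1 - 3 * x)) := by
  have hD : 0 < 1 - x ^ 2 := by nlinarith
  have hx0 : 0 < 1 + x := by linarith
  have hc : 0 < 2 * A * (1 - x ^ 2) := by positivity
  by_cases hx : x ≤ 1 / 3
  · have h3 : 0 ≤ 1 - 3 * x := by linarith
    have hp : 0 ≤ 2 * A * (1 - x ^ 2) * (7 / 30 * (1 + x) * (1 - 3 * x)) := by positivity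
    have hF : 0 < F1 x A := by
      rcases le_total x (-7 / 10) with c1 | c1
      · exact r1_l1 h1 h2 h1.le c1 (by have := h.l1 c1; linarith)
      rcases le_total x (-1 / 2) with c2 | c2
      · exact r1_l2 h1 h2 c1 c2 (by have := h.l2 c1 c2; linarith)
      rcases le_total x 0 with c3 | c3
      · exact r1_l3 h1 h2 c2 c3 (by have := h.l3 c2 c3; linarith)
      · exact r1_l4a h1 h2 c3 hx (by have := h.l4 c3 (by linarith); linarith)
    exact ⟨hF, by linarith⟩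
  · push Not at hx
    have h3 : 0 ≤ 7 / 30 * (1 + x) * (3 * x - 1) :=
      mul_nonneg (by positivity) (by linarith)
    have h4 : 0 ≤ 2 * A * (1 - x ^ 2) * (7 / 30 * (1 + x) * (3 * x - 1)) := mul_nonneg hc.le h3
    have hp : 2 * A * (1 - x ^ 2) * (7 / 30 * (1 + x) * (1 - 3 * x)) ≤ 0 := by linarith
    have hF : 0 < F1 x A + 2 * A * (1 - x ^ 2) * (7 / 30 * (1 + x) * (1 - 3 * x)) := by
      rcases le_total x (1 / 2) with c1 | c1
      · exact r1_l4b h1 h2 hx.le c1 (by have := h.l4 (by linarith) c1; linarith)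
      rcases le_total x (7 / 10) with c2 | c2
      · exact r1_l5 h1 h2 c1 c2 (by have := h.l5 c1 c2; linarith)
      rcases le_total x (86 / 100) with c3 | c3
      · exact r1_l6 h1 h2 c2 (by linarith) (by have := h.l6 c2 c3; linarith)
      · exact r1_l7 h1 h2 (by linarith) h2.le (by have := h.l7 c3; linarith)
    exact ⟨by linarith, hF⟩

private lemma both2 (h1 : -1 < x) (h2 : x < 1) (hA : 0 < A) (h : Enc x A) :
    0 < F2 x A ∧ 0 < F2 x A + 2 * A * (1 - x ^ 2) * (7 / 30 * (1 + x) * (1 - 3 * x)) := by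
  have hD : 0 < 1 - x ^ 2 := by nlinarith
  have hx0 : 0 < 1 + x := by linarith
  have hc : 0 < 2 * A * (1 - x ^ 2) := by positivity
  by_cases hx : x ≤ 1 / 3
  · have h3 : 0 ≤ 1 - 3 * x := by linarith
    have hp : 0 ≤ 2 * A * (1 - x ^ 2) * (7 / 30 * (1 + x) * (1 - 3 * x)) := by positivity
    have hF : 0 < F2 x A := by
      rcases le_total x (-7 / 10) with c1 | c1
      · exact r2_l1 h1 h2 h1.le c1 (by have := h.l1 c1; linarith)
      rcases le_total x (-1 / 2) with c2 | c2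
      · exact r2_l2 h1 h2 c1 c2 (by have := h.l2 c1 c2; linarith)
      rcases le_total x 0 with c3 | c3
      · exact r2_l3 h1 h2 c2 c3 (by have := h.l3 c2 c3; linarith)
      · exact r2_l4a h1 h2 c3 hx (by have := h.l4 c3 (by linarith); linarith)
    exact ⟨hF, by linarith⟩
  · push Not at hx
    have h3 : 0 ≤ 7 / 30 * (1 + x) * (3 * x - 1) :=
      mul_nonneg (by positivity) (by linarith)
    have h4 : 0 ≤ 2 * A * (1 - x ^ 2) * (7 / 30 * (1 + x) * (3 * x - 1)) := mul_nonneg hc.le h3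
    have hp : 2 * A * (1 - x ^ 2) * (7 / 30 * (1 + x) * (1 - 3 * x)) ≤ 0 := by linarith
    have hF : 0 < F2 x A + 2 * A * (1 - x ^ 2) * (7 / 30 * (1 + x) * (1 - 3 * x)) := by
      rcases le_total x (1 / 2) with c1 | c1
      · exact r2_l4b h1 h2 hx.le c1 (by have := h.l4 (by linarith) c1; linarith)
      rcases le_total x (7 / 10) with c2 | c2
      · exact r2_l5 h1 h2 c1 c2 (by have := h.l5 c1 c2; linarith)
      rcases le_total x (86 / 100) with c3 | c3
      · exact r2_l6 h1 h2 c2 (by linarith) (by have := h.l6 c2 c3; linarith)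
      · exact r2_l7 h1 h2 (by linarith) h2.le (by have := h.l7 c3; linarith)
    exact ⟨by linarith, hF⟩

private lemma both3 (h1 : -1 < x) (h2 : x < 1) (hA : 0 < A) (h : Enc x A) :
    0 < F3 x A ∧ 0 < F3 x A + 2 * A * (1 - x ^ 2) * (7 / 30 * (1 + x) * (1 - 3 * x)) := by
  have hD : 0 < 1 - x ^ 2 := by nlinarith
  have hx0 : 0 < 1 + x := by linarith
  have hc : 0 < 2 * A * (1 - x ^ 2) := by positivity
  by_cases hx : x ≤ 1 / 3
  · have h3 : 0 ≤ 1 - 3 * x := by linarith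
    have hp : 0 ≤ 2 * A * (1 - x ^ 2) * (7 / 30 * (1 + x) * (1 - 3 * x)) := by positivity
    have hF : 0 < F3 x A := by
      rcases le_total x (-7 / 10) with c1 | c1
      · exact r3_l1 h1 h2 h1.le c1 (by have := h.l1 c1; linarith)
      rcases le_total x (-1 / 2) with c2 | c2
      · exact r3_l2 h1 h2 c1 c2 (by have := h.l2 c1 c2; linarith)
      rcases le_total x 0 with c3 | c3
      · exact r3_l3 h1 h2 c2 c3 (by have := h.l3 c2 c3; linarith)
      · exact r3_l4a h1 h2 c3 hx (by have := h.l4 c3 (by linarith); linarith)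
    exact ⟨hF, by linarith⟩
  · push Not at hx
    have h3 : 0 ≤ 7 / 30 * (1 + x) * (3 * x - 1) :=
      mul_nonneg (by positivity) (by linarith)
    have h4 : 0 ≤ 2 * A * (1 - x ^ 2) * (7 / 30 * (1 + x) * (3 * x - 1)) := mul_nonneg hc.le h3
    have hp : 2 * A * (1 - x ^ 2) * (7 / 30 * (1 + x) * (1 - 3 * x)) ≤ 0 := by linarith
    have hF : 0 < F3 x A + 2 * A * (1 - x ^ 2) * (7 / 30 * (1 + x) * (1 - 3 * x)) := by
      rcases le_total x (1 / 2) with c1 | c1
      · exact r3_l4b h1 h2 hx.le c1 (by have := h.l4 (by linarith) c1; linarith)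
      rcases le_total x (7 / 10) with c2 | c2
      · exact r3_l5 h1 h2 c1 c2 (by have := h.l5 c1 c2; linarith)
      rcases le_total x (86 / 100) with c3 | c3
      · exact r3_l6 h1 h2 c2 (by linarith) (by have := h.l6 c2 c3; linarith)
      · exact r3_l7 h1 h2 (by linarith) h2.le (by have := h.l7 c3; linarith)
    exact ⟨by linarith, hF⟩

private lemma both4 (h1 : -1 < x) (h2 : x < 1) (hA : 0 < A) (h : Enc x A) :
    0 < F4 x A ∧ 0 < F4 x A + 2 * A * (1 - x ^ 2) * (7 / 30 * (1 + x) * (1 - 3 * x)) := by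
  have hD : 0 < 1 - x ^ 2 := by nlinarith
  have hx0 : 0 < 1 + x := by linarith
  have hc : 0 < 2 * A * (1 - x ^ 2) := by positivity
  by_cases hx : x ≤ 1 / 3
  · have h3 : 0 ≤ 1 - 3 * x := by linarith
    have hp : 0 ≤ 2 * A * (1 - x ^ 2) * (7 / 30 * (1 + x) * (1 - 3 * x)) := by positivity
    have hF : 0 < F4 x A := by
      rcases le_total x (-7 / 10) with c1 | c1
      · exact r4_l1 h1 h2 h1.le c1 (by have := h.l1 c1; linarith)
      rcases le_total x (-1 / 2) with c2 | c2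
      · exact r4_l2 h1 h2 c1 c2 (by have := h.l2 c1 c2; linarith)
      rcases le_total x 0 with c3 | c3
      · exact r4_l3 h1 h2 c2 c3 (by have := h.l3 c2 c3; linarith)
      · exact r4_l4a h1 h2 c3 hx (by have := h.l4 c3 (by linarith); linarith)
    exact ⟨hF, by linarith⟩
  · push Not at hx
    have h3 : 0 ≤ 7 / 30 * (1 + x) * (3 * x - 1) :=
      mul_nonneg (by positivity) (by linarith)
    have h4 : 0 ≤ 2 * A * (1 - x ^ 2) * (7 / 30 * (1 + x) * (3 * x - 1)) := mul_nonneg hc.le h3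
    have hp : 2 * A * (1 - x ^ 2) * (7 / 30 * (1 + x) * (1 - 3 * x)) ≤ 0 := by linarith
    have hF : 0 < F4 x A + 2 * A * (1 - x ^ 2) * (7 / 30 * (1 + x) * (1 - 3 * x)) := by
      rcases le_total x (1 / 2) with c1 | c1
      · exact r4_l4b h1 h2 hx.le c1 (by have := h.l4 (by linarith) c1; linarith)
      rcases le_total x (7 / 10) with c2 | c2
      · exact r4_l5 h1 h2 c1 c2 (by have := h.l5 c1 c2; linarith)
      rcases le_total x (86 / 100) with c3 | c3
      · exact r4_l6 h1 h2 c2 (by linarith) (by have := h.l6 c2 c3; linarith)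
      · exact r4_l7 h1 h2 (by linarith) h2.le (by have := h.l7 c3; linarith)
    exact ⟨by linarith, hF⟩

private lemma fin_aux (hc : 0 < 2 * A * (1 - x ^ 2)) {E F : ℝ}
    (rel : 2 * A * (1 - x ^ 2) * E = F)
    (hF : 0 < F ∧ 0 < F + 2 * A * (1 - x ^ 2) * (7 / 30 * (1 + x) * (1 - 3 * x))) :
    0 < E ∧ 0 < E + 7 / 30 * (1 + x) * (1 - 3 * x) := by
  constructor
  · rw [← rel] at hF
    exact (mul_pos_iff_of_pos_left hc).1 hF.1
  · rw [← rel] at hF
    refine (mul_pos_iff_of_pos_left hc).1 ?_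
    have h2 := hF.2
    linarith

theorem yd_oneA (h1 : -1 < x) (h2 : x < 1) (h : Enc x A) : 1 ≤ A := by
  rcases le_total x (-7 / 10) with c1 | c1
  · have := h.l1 c1; linarith
  rcases le_total x (-1 / 2) with c2 | c2
  · have := h.l2 c1 c2; linarith
  rcases le_total x 0 with c3 | c3
  · have := h.l3 c2 c3; linarith
  rcases le_total x (1 / 2) with c4 | c4
  · have := h.l4 c3 c4; linarith
  rcases le_total x (7 / 10) with c5 | c5
  · have := h.l5 c4 c5; linarith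
  rcases le_total x (86 / 100) with c6 | c6
  · have := h.l6 c5 c6; linarith
  · have := h.l7 c6; linarith

theorem yd_T (h1 : -1 < x) (h2 : x < 1) (h : Enc x A) :
    2 * (7 / 30 * (1 + x)) * (1 - x ^ 2) ≤ A ^ 2 - 1 := by
  rcases le_total x (-7 / 10) with c1 | c1
  · exact rt_l1 h1 h2 h1.le c1 (by have := h.l1 c1; linarith)
  rcases le_total x (-1 / 2) with c2 | c2
  · exact rt_l2 h1 h2 c1 c2 (by have := h.l2 c1 c2; linarith)
  rcases le_total x 0 with c3 | c3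
  · exact rt_l3 h1 h2 c2 c3 (by have := h.l3 c2 c3; linarith)
  rcases le_total x (1 / 3) with c3' | c3'
  · exact rt_l4a h1 h2 c3 c3' (by have := h.l4 c3 (by linarith); linarith)
  rcases le_total x (1 / 2) with c4 | c4
  · exact rt_l4b h1 h2 c3' c4 (by have := h.l4 c3 c4; linarith)
  rcases le_total x (7 / 10) with c5 | c5
  · exact rt_l5 h1 h2 c4 c5 (by have := h.l5 c4 c5; linarith)
  rcases le_total x (86 / 100) with c6 | c6
  · exact rt_l6 h1 h2 c5 (by linarith) (by have := h.l6 c5 c6; linarith)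
  · exact rt_l7 h1 h2 (by linarith) h2.le (by have := h.l7 c6; linarith)

theorem yd_Y0 (h1 : -1 < x) (h2 : x < 1) (h : Enc x A) :
    0 < 2 * A + 7 / 30 * (1 + x) * (6 * x - 2) - 7 / 30 * (1 + x) * (3 * A ^ 2 - 1) / A := by
  have hA : 0 < A := by linarith [yd_oneA h1 h2 h]
  have key : 0 < 2 * A ^ 2 + 7 / 30 * (1 + x) * (6 * x - 2) * A -
      7 / 30 * (1 + x) * (3 * A ^ 2 - 1) := by
    rcases le_total x (-7 / 10) with c1 | c1
    · exact ry_l1 h1 h2 h1.le c1 (by have := h.l1 c1; linarith)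
    rcases le_total x (-1 / 2) with c2 | c2
    · exact ry_l2 h1 h2 c1 c2 (by have := h.l2 c1 c2; linarith)
    rcases le_total x 0 with c3 | c3
    · exact ry_l3 h1 h2 c2 c3 (by have := h.l3 c2 c3; linarith)
    rcases le_total x (1 / 3) with c3' | c3'
    · exact ry_l4a h1 h2 c3 c3' (by have := h.l4 c3 (by linarith); linarith)
    rcases le_total x (1 / 2) with c4 | c4
    · exact ry_l4b h1 h2 c3' c4 (by have := h.l4 c3 c4; linarith)
    rcases le_total x (7 / 10) with c5 | c5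
    · exact ry_l5 h1 h2 c4 c5 (by have := h.l5 c4 c5; linarith)
    rcases le_total x (86 / 100) with c6 | c6
    · exact ry_l6 h1 h2 c5 (by linarith) (by have := h.l6 c5 c6; linarith)
    · exact ry_l7 h1 h2 (by linarith) h2.le (by have := h.l7 c6; linarith)
  have rel : A * (2 * A + 7 / 30 * (1 + x) * (6 * x - 2) -
      7 / 30 * (1 + x) * (3 * A ^ 2 - 1) / A) = 2 * A ^ 2 + 7 / 30 * (1 + x) * (6 * x - 2) * A -
      7 / 30 * (1 + x) * (3 * A ^ 2 - 1) := by
    field_simp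
  rw [← rel] at key
  exact (mul_pos_iff_of_pos_left hA).1 key

/-- The four values of `k` are `± (2 λ - Z)`, `± (2 λ - Z / A)`. Multiply with `2 A (1 - x²)`: the
inequalities become polynomial in `x`, `A`, they are increasing in `A`; treat the pieces `l1`, ...,
`l7` one by one (margins: at least 0.06, smallest near `x = -0.18`; on the first and the last piece
divide by `1 + x`, `1 - x` first). -/
theorem yd_D (h1 : -1 < x) (h2 : x < 1) (h : Enc x A) {k : ℝ}
    (hk : k = 2 * (7 / 30 * (1 + x)) - ZZ x A ∨ k = -(2 * (7 / 30 * (1 + x)) - ZZ x A) ∨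
      k = 2 * (7 / 30 * (1 + x)) - ZZ x A / A ∨ k = -(2 * (7 / 30 * (1 + x)) - ZZ x A / A)) :
    0 < Dl x A - k / 2 ∧ 0 < Dl x A - k / 2 + 7 / 30 * (1 + x) * (1 - 3 * x) := by
  have hA : 0 < A := by linarith [yd_oneA h1 h2 h]
  have hD : 0 < 1 - x ^ 2 := by nlinarith
  have hc : 0 < 2 * A * (1 - x ^ 2) := by positivity
  have hA0 : A ≠ 0 := hA.ne'
  have hD0 : 1 - x ^ 2 ≠ 0 := hD.ne'
  rcases hk with rfl | rfl | rfl | rfl
  · refine fin_aux hc ?_ (both1 h1 h2 hA h)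
    unfold Dl ZZ F1
    field_simp
    ring
  · refine fin_aux hc ?_ (both2 h1 h2 hA h)
    unfold Dl ZZ F2
    field_simp
    ring
  · refine fin_aux hc ?_ (both3 h1 h2 hA h)
    unfold Dl ZZ F3
    field_simp
    ring
  · refine fin_aux hc ?_ (both4 h1 h2 hA h)
    unfold Dl ZZ F4
    field_simp
    ring

end Pool.Agent.MobConv.T3
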