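import Pool.Agent.Lib.MP_4b1e7e_an.T3.Defs

/-!
# Block T3: one variable inequalities, part B (those with `Yl`)
-/

set_option autoImplicit false

namespace Pool.Agent.MobConv.T3

open Metric ComplexConjugate

variable {x A : ℝ}

/-- The part of `Yl` without `A`. -/
private noncomputable def bs (x : ℝ) : ℝ :=
  7 / 30 * (1 + x) * (6 * x - 2) -
    (1 - x ^ 2) * (7 / 30 * (259 / 100) + 7 / 30 * (1 - x) / 2 + 7 / 30)

private noncomputable def f1 (x u r : ℝ) : ℝ :=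
  (4 - x ^ 2 - 7 / 10 * (1 + x)) * u - u ^ 3 + 7 / 30 * (1 + x) * (2 - x ^ 2) * r + bs x -
    7 / 15 * (1 + x) * (1 - x ^ 2) * (1 - x)

private noncomputable def f2 (x l r : ℝ) : ℝ :=
  (x ^ 2 - 7 / 10 * (1 + x)) * l + l ^ 3 + 7 / 30 * (1 + x) * (2 - x ^ 2) * r + bs x +
    7 / 15 * (1 + x) * (1 - x ^ 2) * (1 - x)

private noncomputable def f3 (x u r v : ℝ) : ℝ :=
  (2 - 7 / 10 * (1 + x)) * u - u ^ 2 + (2 - x ^ 2) + 7 / 30 * (1 + x) * (2 - x ^ 2) * r +
    7 / 15 * (1 + x) * (1 - x ^ 2) * v + bs x - 7 / 15 * (1 + x) * (1 - x ^ 2)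

private noncomputable def f4 (x l r v : ℝ) : ℝ :=
  (2 - 7 / 10 * (1 + x)) * l + l ^ 2 - (2 - x ^ 2) + 7 / 30 * (1 + x) * (2 - x ^ 2) * r -
    7 / 15 * (1 + x) * (1 - x ^ 2) * v + bs x + 7 / 15 * (1 + x) * (1 - x ^ 2)

private noncomputable def gH (x r s : ℝ) : ℝ :=
  (1 - x ^ 2) * (7 / 15 - 14 / 15 * (1 + x) * s - 7 / 15 * (1 + x) * r)

/-- The eight values in terms of `f1`, `f2`, `f3`, `f4`, `gH`. -/
private lemma ident (h1 : -1 < x) (h2 : x < 1) (hA : 1 ≤ A) :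
    Yl x A - (1 - x ^ 2) * (2 * (7 / 30 * (1 + x)) - ZZ x A) = f1 x A (1 / A) ∧
    Yl x A - (1 - x ^ 2) * (-(2 * (7 / 30 * (1 + x)) - ZZ x A)) = f2 x A (1 / A) ∧
    Yl x A - (1 - x ^ 2) * (2 * (7 / 30 * (1 + x)) - ZZ x A / A) =
      f3 x A (1 / A) (x * (1 / A)) ∧
    Yl x A - (1 - x ^ 2) * (-(2 * (7 / 30 * (1 + x)) - ZZ x A / A)) =
      f4 x A (1 / A) (x * (1 / A)) ∧
    -(2 * (1 - x ^ 2) * (2 * (7 / 30 * (1 + x)) / (A + 1) + 7 / 30 * (1 + x) / A - 7 / 30)) =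
      gH x (1 / A) (1 / (A + 1)) := by
  have hD : (1 - x ^ 2) ≠ 0 := by nlinarith
  have hA0 : A ≠ 0 := by linarith
  have hA1 : A + 1 ≠ 0 := by linarith
  refine ⟨?_, ?_, ?_, ?_, ?_⟩
  · unfold Yl ZZ f1 bs
    field_simp
    ring
  · unfold Yl ZZ f2 bs
    field_simp
    ring
  · unfold Yl ZZ f3 bs
    field_simp
    ring
  · unfold Yl ZZ f4 bs
    field_simp
    ring
  · unfold gH
    field_simp
    ring

/-- Monotonicity: bounds for `A`, `1 / A`, `1 / (A + 1)` may be inserted. -/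
private lemma fin (h1 : -1 < x) (h2 : x < 1) {l u r0 r1 s1 v0 v1 : ℝ} (hl1 : 1 ≤ l)
    (hl : l ≤ A) (hu : A ≤ u) (hr0 : r0 * A ≤ 1) (hr1 : 1 ≤ r1 * A)
    (hs1 : 1 ≤ s1 * (A + 1)) (hc : 4 - x ^ 2 - 7 / 10 * (1 + x) ≤ 3 * l ^ 2)
    (hv0 : v0 * A ≤ x) (hv1 : x ≤ v1 * A)
    (e1 : 0 < f1 x u r0) (e2 : 0 < f2 x l r0) (e3 : 0 < f3 x u r0 v0) (e4 : 0 < f4 x l r0 v1)
    (d1 : 0 < f1 x u r0 + gH x r1 s1) (d2 : 0 < f2 x l r0 + gH x r1 s1)
    (d3 : 0 < f3 x u r0 v0 + gH x r1 s1) (d4 : 0 < f4 x l r0 v1 + gH x r1 s1) {k : ℝ}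
    (hk : k = 2 * (7 / 30 * (1 + x)) - ZZ x A ∨ k = -(2 * (7 / 30 * (1 + x)) - ZZ x A) ∨
      k = 2 * (7 / 30 * (1 + x)) - ZZ x A / A ∨ k = -(2 * (7 / 30 * (1 + x)) - ZZ x A / A)) :
    0 < Yl x A - (1 - x ^ 2) * k ∧
      0 < Yl x A - (1 - x ^ 2) * k - 2 * (1 - x ^ 2) *
        (2 * (7 / 30 * (1 + x)) / (A + 1) + 7 / 30 * (1 + x) / A - 7 / 30) := by
  have hA : 1 ≤ A := hl1.trans hl
  have hA0 : 0 < A := by linarith
  obtain ⟨i1, i2, i3, i4, i5⟩ := ident h1 h2 hA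
  have hD : 0 < 1 - x ^ 2 := by nlinarith
  have hx1 : 0 < 1 + x := by linarith
  have ht : 0 < 2 - x ^ 2 := by nlinarith
  set r := 1 / A with hr
  set s := 1 / (A + 1) with hs
  have hr0' : 0 ≤ r - r0 := by rw [hr, sub_nonneg, le_div_iff₀ hA0]; exact hr0
  have hr1' : 0 ≤ r1 - r := by rw [hr, sub_nonneg, div_le_iff₀ hA0]; exact hr1
  have hs1' : 0 ≤ s1 - s := by rw [hs, sub_nonneg, div_le_iff₀ (by linarith)]; exact hs1
  have hv0' : 0 ≤ x * r - v0 := by
    rw [hr, mul_one_div, sub_nonneg, le_div_iff₀ hA0]; exact hv0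
  have hv1' : 0 ≤ v1 - x * r := by
    rw [hr, mul_one_div, sub_nonneg, div_le_iff₀ hA0]; exact hv1
  have hxt : 0 ≤ (1 + x) * (2 - x ^ 2) * (r - r0) := by positivity
  have hxD : 0 ≤ (1 + x) * (1 - x ^ 2) := by positivity
  have g1 : f1 x u r0 ≤ f1 x A r := by
    have : 0 ≤ (u - A) * (u ^ 2 + u * A + A ^ 2 - (4 - x ^ 2 - 7 / 10 * (1 + x))) := by
      refine mul_nonneg (by linarith) ?_
      have a1 : l ^ 2 ≤ A ^ 2 := by nlinarith
      have a2 : l ^ 2 ≤ u ^ 2 := by nlinarith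
      have a3 : l ^ 2 ≤ u * A := by nlinarith
      linarith
    unfold f1
    linarith
  have g2 : f2 x l r0 ≤ f2 x A r := by
    have : 0 ≤ (A - l) * (A ^ 2 + A * l + l ^ 2 + (x ^ 2 - 7 / 10 * (1 + x))) := by
      refine mul_nonneg (by linarith) ?_
      have a1 : 1 ≤ A ^ 2 := by nlinarith
      have a2 : 1 ≤ l ^ 2 := by nlinarith
      have a3 : 1 ≤ A * l := by nlinarith
      nlinarith
    unfold f2
    linarith
  have g3 : f3 x u r0 v0 ≤ f3 x A r (x * r) := by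
    have : 0 ≤ (u - A) * (u + A - (2 - 7 / 10 * (1 + x))) :=
      mul_nonneg (by linarith) (by linarith)
    have := mul_nonneg hxD hv0'
    unfold f3
    linarith
  have g4 : f4 x l r0 v1 ≤ f4 x A r (x * r) := by
    have : 0 ≤ (A - l) * (A + l + (2 - 7 / 10 * (1 + x))) :=
      mul_nonneg (by linarith) (by linarith)
    have := mul_nonneg hxD hv1'
    unfold f4
    linarith
  have g5 : gH x r1 s1 ≤ gH x r s := by
    have := mul_nonneg hxD hr1'
    have := mul_nonneg hxD hs1'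
    unfold gH
    linarith
  rcases hk with rfl | rfl | rfl | rfl
  · exact ⟨by linarith, by linarith⟩
  · exact ⟨by linarith, by linarith⟩
  · exact ⟨by linarith, by linarith⟩
  · exact ⟨by linarith, by linarith⟩

/-- The Bernstein basis of degree four. -/
private lemma bb {p q : ℝ} (hp : 0 ≤ p) (hq : 0 ≤ q) :
    0 ≤ q ^ 4 ∧ 0 ≤ p * q ^ 3 ∧ 0 ≤ p ^ 2 * q ^ 2 ∧ 0 ≤ p ^ 3 * q ∧ 0 ≤ p ^ 4 := by
  refine ⟨?_, ?_, ?_, ?_, ?_⟩ <;> positivity

/-- The four values of `k` are `± (2 λ - Z)`, `± (2 λ - Z / A)`; note `(1 - x²) k` is a polynomial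
in `x`, `A`, `1 / A`. Smallest value: 0.16 near `x = 0.13`. -/
theorem yd_Y (h1 : -1 < x) (h2 : x < 1) (h : Enc x A) {k : ℝ}
    (hk : k = 2 * (7 / 30 * (1 + x)) - ZZ x A ∨ k = -(2 * (7 / 30 * (1 + x)) - ZZ x A) ∨
      k = 2 * (7 / 30 * (1 + x)) - ZZ x A / A ∨ k = -(2 * (7 / 30 * (1 + x)) - ZZ x A / A)) :
    0 < Yl x A - (1 - x ^ 2) * k ∧
      0 < Yl x A - (1 - x ^ 2) * k - 2 * (1 - x ^ 2) *
        (2 * (7 / 30 * (1 + x)) / (A + 1) + 7 / 30 * (1 + x) / A - 7 / 30) := by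
  rcases le_total x (-7 / 10) with c1 | c1
  · obtain ⟨m0, m1, m2, m3, m4⟩ := bb (p := x + 1) (q := -7 / 10 - x) (by linarith) (by linarith)
    have hl := h.l1 c1
    have hu := h.u0
    refine fin h1 h2 (l := 1 + 955 / 3000 * (1 + x)) (u := 1 + (1 + x) / 3) (r0 := 9 / 10)
      (r1 := 1) (s1 := 1 / 2) (v0 := x * 1) (v1 := x * (9 / 10)) (by linarith) hl hu
      (by linarith) (by linarith) (by linarith) (by nlinarith) (by nlinarith) (by nlinarith)
      ?_ ?_ ?_ ?_ ?_ ?_ ?_ ?_ hk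
    all_goals (first | unfold f1 | unfold f2 | unfold f3 | unfold f4)
    all_goals (try unfold gH)
    all_goals (unfold bs; linarith)
  rcases le_total x (-1 / 2) with c2 | c2
  · obtain ⟨m0, m1, m2, m3, m4⟩ := bb (p := x + 7 / 10) (q := -1 / 2 - x) (by linarith)
      (by linarith)
    have hl := h.l2 c1 c2
    have hu := h.u0
    refine fin h1 h2 (l := 10955 / 10000 + 292 / 1000 * (x + 7 / 10)) (u := 1 + (1 + x) / 3)
      (r0 := 17 / 20) (r1 := 23 / 25) (s1 := 12 / 25) (v0 := x * (23 / 25))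
      (v1 := x * (17 / 20)) (by linarith) hl hu
      (by linarith) (by linarith) (by linarith) (by nlinarith) (by nlinarith) (by nlinarith)
      ?_ ?_ ?_ ?_ ?_ ?_ ?_ ?_ hk
    all_goals (first | unfold f1 | unfold f2 | unfold f3 | unfold f4)
    all_goals (try unfold gH)
    all_goals (unfold bs; linarith)
  rcases le_total x 0 with c3 | c3
  · obtain ⟨m0, m1, m2, m3, m4⟩ := bb (p := x + 1 / 2) (q := -x) (by linarith) (by linarith)
    have hl := h.l3 c2 c3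
    have hu := h.u1
    refine fin h1 h2 (l := 11539 / 10000 + 2386 / 10000 * (x + 1 / 2))
      (u := 12734 / 10000 + 1895 / 10000 * x) (r0 := 39 / 50) (r1 := 87 / 100)
      (s1 := 93 / 200) (v0 := x * (87 / 100)) (v1 := x * (39 / 50)) (by linarith) hl hu
      (by linarith) (by linarith) (by linarith) (by nlinarith) (by nlinarith) (by nlinarith)
      ?_ ?_ ?_ ?_ ?_ ?_ ?_ ?_ hk
    all_goals (first | unfold f1 | unfold f2 | unfold f3 | unfold f4)
    all_goals (try unfold gH)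
    all_goals (unfold bs; linarith)
  rcases le_total x (1 / 2) with c4 | c4
  · have hl := h.l4 c3 c4
    rcases le_total x (3 / 10) with c5 | c5
    · obtain ⟨m0, m1, m2, m3, m4⟩ := bb (p := x) (q := 3 / 10 - x) (by linarith) (by linarith)
      have hu := h.u1
      refine fin h1 h2 (l := 12732 / 10000 + 1074 / 10000 * x)
        (u := 12734 / 10000 + 1895 / 10000 * x) (r0 := 3 / 4) (r1 := 79 / 100)
        (s1 := 11 / 25) (v0 := x * (3 / 4)) (v1 := x * (79 / 100)) (by linarith) hl hu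
        (by linarith) (by linarith) (by linarith) (by nlinarith) (by nlinarith) (by nlinarith)
        ?_ ?_ ?_ ?_ ?_ ?_ ?_ ?_ hk
      all_goals (first | unfold f1 | unfold f2 | unfold f3 | unfold f4)
      all_goals (try unfold gH)
      all_goals (unfold bs; linarith)
    · obtain ⟨m0, m1, m2, m3, m4⟩ := bb (p := x - 3 / 10) (q := 1 / 2 - x) (by linarith)
        (by linarith)
      have hu := h.u2
      refine fin h1 h2 (l := 12732 / 10000 + 1074 / 10000 * x)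
        (u := 13307 / 10000 - 72 / 10000 * x) (r0 := 3 / 4) (r1 := 77 / 100)
        (s1 := 11 / 25) (v0 := x * (3 / 4)) (v1 := x * (77 / 100)) (by linarith) hl hu
        (by linarith) (by linarith) (by linarith) (by nlinarith) (by nlinarith) (by nlinarith)
        ?_ ?_ ?_ ?_ ?_ ?_ ?_ ?_ hk
      all_goals (first | unfold f1 | unfold f2 | unfold f3 | unfold f4)
      all_goals (try unfold gH)
      all_goals (unfold bs; linarith)
  have hu := h.u2
  rcases le_total x (7 / 10) with c5 | c5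
  · obtain ⟨m0, m1, m2, m3, m4⟩ := bb (p := x - 1 / 2) (q := 7 / 10 - x) (by linarith)
      (by linarith)
    have hl := h.l5 c4 c5
    refine fin h1 h2 (l := 13269 / 10000 - 95 / 1000 * (x - 1 / 2))
      (u := 13307 / 10000 - 72 / 10000 * x) (r0 := 3 / 4) (r1 := 77 / 100)
      (s1 := 11 / 25) (v0 := x * (3 / 4)) (v1 := x * (77 / 100)) (by linarith) hl hu
      (by linarith) (by linarith) (by linarith) (by nlinarith) (by nlinarith) (by nlinarith)
      ?_ ?_ ?_ ?_ ?_ ?_ ?_ ?_ hk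
    all_goals (first | unfold f1 | unfold f2 | unfold f3 | unfold f4)
    all_goals (try unfold gH)
    all_goals (unfold bs; linarith)
  rcases le_total x (86 / 100) with c6 | c6
  · obtain ⟨m0, m1, m2, m3, m4⟩ := bb (p := x - 7 / 10) (q := 86 / 100 - x) (by linarith)
      (by linarith)
    have hl := h.l6 c5 c6
    refine fin h1 h2 (l := 13079 / 10000 - 577 / 1600 * (x - 7 / 10))
      (u := 13307 / 10000 - 72 / 10000 * x) (r0 := 3 / 4) (r1 := 4 / 5)
      (s1 := 9 / 20) (v0 := x * (3 / 4)) (v1 := x * (4 / 5)) (by linarith) hl hu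
      (by linarith) (by linarith) (by linarith) (by nlinarith) (by nlinarith) (by nlinarith)
      ?_ ?_ ?_ ?_ ?_ ?_ ?_ ?_ hk
    all_goals (first | unfold f1 | unfold f2 | unfold f3 | unfold f4)
    all_goals (try unfold gH)
    all_goals (unfold bs; linarith)
  · obtain ⟨m0, m1, m2, m3, m4⟩ := bb (p := x - 86 / 100) (q := 1 - x) (by linarith)
      (by linarith)
    have hl := h.l7 c6
    refine fin h1 h2 (l := 1 + 1251 / 700 * (1 - x))
      (u := 13307 / 10000 - 72 / 10000 * x) (r0 := 3 / 4) (r1 := 1)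
      (s1 := 1 / 2) (v0 := x * (3 / 4)) (v1 := x * 1) (by linarith) hl hu
      (by linarith) (by linarith) (by linarith) (by nlinarith) (by nlinarith) (by nlinarith)
      ?_ ?_ ?_ ?_ ?_ ?_ ?_ ?_ hk
    all_goals (first | unfold f1 | unfold f2 | unfold f3 | unfold f4)
    all_goals (try unfold gH)
    all_goals (unfold bs; linarith)

end Pool.Agent.MobConv.T3
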