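import Pool.Agent.Lib.MP_4b1e7e_an.T3.Defs

/-!
# Block T3: one variable inequalities, part C (those for `a > A`)
-/

set_option autoImplicit false

namespace Pool.Agent.MobConv.T3

open Metric ComplexConjugate

variable {x A : ℝ}

private theorem cub {a B : ℝ} (h1 : 1 ≤ a) (h : a ≤ B) : a * (a ^ 2 - 1) ≤ B * (B ^ 2 - 1) := by
  nlinarith [mul_nonneg (sub_nonneg.2 h) (sub_nonneg.2 h1), mul_nonneg (sub_nonneg.2 h)
    (mul_nonneg (sub_nonneg.2 h1) (sub_nonneg.2 h1)), mul_nonneg (sub_nonneg.2 h)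
    (mul_nonneg (sub_nonneg.2 (h1.trans h)) (sub_nonneg.2 h1)), mul_nonneg (sub_nonneg.2 h)
    (mul_nonneg (sub_nonneg.2 (h1.trans h)) (sub_nonneg.2 (h1.trans h)))]

private theorem cub2 {B : ℝ} (h : 1 ≤ B) : 2 * (B - 1) ≤ B * (B ^ 2 - 1) := by
  nlinarith [mul_nonneg (sub_nonneg.2 h) (sub_nonneg.2 h), mul_nonneg (sub_nonneg.2 h)
    (mul_nonneg (sub_nonneg.2 h) (sub_nonneg.2 h))]

/-- The conclusions on a piece. -/
private def Six (x A W : ℝ) : Prop :=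
  (0 < 3 / 2 * A + W / 2 - 49 / 30 * (1 - x ^ 2) ∧
    0 < 3 / 2 * A + W / 2 - 49 / 30 * (1 - x ^ 2) + 7 / 30 * (1 + x) * (1 - 3 * x)) ∧
  (0 < A / 2 + 3 / 2 * W - 7 / 6 * (1 - x ^ 2) ∧
    0 < A / 2 + 3 / 2 * W - 7 / 6 * (1 - x ^ 2) + 7 / 30 * (1 + x) * (1 - 3 * x)) ∧
  (0 < A + W - 7 / 5 * (1 - x ^ 2) - 7 / 30 * (1 + x) ∧
    0 < A + W - 7 / 5 * (1 - x ^ 2) - 7 / 30 * (1 + x) + 7 / 30 * (1 + x) * (1 - 3 * x)) ∧
  0 < 2 * A + 7 / 30 * (1 + x) * (6 * x - 2) -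
    (1 - x ^ 2) * (7 / 30 * (259 / 100) + 7 / 30 * (1 - x) / 2 + 7 / 30) -
    (1 - x ^ 2) * (7 / 15 * (1 + x)) ∧
  0 < A * (4 - (1 - x ^ 2)) - 2 + 7 / 30 * (1 + x) * (6 * x - 2) -
    (1 - x ^ 2) * (7 / 30 * (259 / 100) + 7 / 30 * (1 - x) / 2 + 7 / 30) +
    7 / 15 * (1 - x ^ 2) ^ 2

private theorem six_of {u v p q w W : ℝ} (hu : u ≤ x) (hv : x ≤ v) (hA : p + q * x ≤ A)
    (hW : w ≤ W)
    (H : ∀ y : ℝ, u ≤ y → y ≤ v → Six y (p + q * y) w) : Six x A W := by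
  obtain ⟨⟨a1, a2⟩, ⟨a3, a4⟩, ⟨a5, a6⟩, a7, a8⟩ := H x hu hv
  refine ⟨⟨by linarith, by linarith⟩, ⟨by linarith, by linarith⟩, ⟨by linarith, by linarith⟩,
    by linarith, ?_⟩
  nlinarith [mul_nonneg (sub_nonneg.2 hA) (sq_nonneg x)]

private theorem p1 (y : ℝ) (h1 : -1 ≤ y) (h2 : y ≤ -7 / 10) :
    Six y (1 + 955 / 3000 + 955 / 3000 * y) (318 / 1000) := by
  have e := mul_nonneg (sub_nonneg.2 h1) (sub_nonneg.2 h2)
  refine ⟨⟨by nlinarith, by nlinarith⟩, ⟨by nlinarith, by nlinarith⟩, ⟨by nlinarith,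
    by nlinarith⟩, by nlinarith, by nlinarith⟩

private theorem p2 (y : ℝ) (h1 : -7 / 10 ≤ y) (h2 : y ≤ -1 / 2) :
    Six y (12999 / 10000 + 292 / 1000 * y) (292 / 1000) := by
  have e := mul_nonneg (sub_nonneg.2 h1) (sub_nonneg.2 h2)
  refine ⟨⟨by nlinarith, by nlinarith⟩, ⟨by nlinarith, by nlinarith⟩, ⟨by nlinarith,
    by nlinarith⟩, by nlinarith, by nlinarith⟩

private theorem p3 (y : ℝ) (h1 : -1 / 2 ≤ y) (h2 : y ≤ -1 / 4) :
    Six y (12732 / 10000 + 2386 / 10000 * y) (40 / 100) := by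
  have e := mul_nonneg (sub_nonneg.2 h1) (sub_nonneg.2 h2)
  refine ⟨⟨by nlinarith, by nlinarith⟩, ⟨by nlinarith, by nlinarith⟩, ⟨by nlinarith,
    by nlinarith⟩, by nlinarith, by nlinarith⟩

private theorem p4 (y : ℝ) (h1 : -1 / 4 ≤ y) (h2 : y ≤ 0) :
    Six y (12732 / 10000 + 2386 / 10000 * y) (57 / 100) := by
  have e := mul_nonneg (sub_nonneg.2 h1) (sub_nonneg.2 h2)
  refine ⟨⟨by nlinarith, by nlinarith⟩, ⟨by nlinarith, by nlinarith⟩, ⟨by nlinarith,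
    by nlinarith⟩, by nlinarith, by nlinarith⟩

private theorem p5 (y : ℝ) (h1 : 0 ≤ y) (h2 : y ≤ 1 / 2) :
    Six y (12732 / 10000 + 1074 / 10000 * y) (79 / 100) := by
  have e := mul_nonneg (sub_nonneg.2 h1) (sub_nonneg.2 h2)
  refine ⟨⟨by nlinarith, by nlinarith⟩, ⟨by nlinarith, by nlinarith⟩, ⟨by nlinarith,
    by nlinarith⟩, by nlinarith, by nlinarith⟩

private theorem p6 (y : ℝ) (h1 : 1 / 2 ≤ y) (h2 : y ≤ 7 / 10) :
    Six y (13744 / 10000 + (-95 / 1000) * y) (12 / 10) := by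
  have e := mul_nonneg (sub_nonneg.2 h1) (sub_nonneg.2 h2)
  refine ⟨⟨by nlinarith, by nlinarith⟩, ⟨by nlinarith, by nlinarith⟩, ⟨by nlinarith,
    by nlinarith⟩, by nlinarith, by nlinarith⟩

private theorem p7 (y : ℝ) (h1 : 7 / 10 ≤ y) (h2 : y ≤ 86 / 100) :
    Six y (13079 / 10000 + 577 / 1600 * (7 / 10) + (-577 / 1600) * y) (13 / 10) := by
  have e := mul_nonneg (sub_nonneg.2 h1) (sub_nonneg.2 h2)
  refine ⟨⟨by nlinarith, by nlinarith⟩, ⟨by nlinarith, by nlinarith⟩, ⟨by nlinarith,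
    by nlinarith⟩, by nlinarith, by nlinarith⟩

private theorem p8 (y : ℝ) (h1 : 86 / 100 ≤ y) (h2 : y ≤ 1) :
    Six y (1 + 1251 / 700 + (-1251 / 700) * y) (178 / 100) := by
  have e := mul_nonneg (sub_nonneg.2 h1) (sub_nonneg.2 h2)
  refine ⟨⟨by nlinarith, by nlinarith⟩, ⟨by nlinarith, by nlinarith⟩, ⟨by nlinarith,
    by nlinarith⟩, by nlinarith, by nlinarith⟩

private theorem one_le (h1 : -1 < x) (h2 : x < 1) (h : Enc x A) : 1 ≤ A := by
  rcases le_total x (-7 / 10) with c | c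
  · linarith [h.l1 c]
  rcases le_total x (-1 / 2) with d | d
  · linarith [h.l2 c d]
  rcases le_total x 0 with e | e
  · linarith [h.l3 d e]
  rcases le_total x (1 / 2) with f | f
  · linarith [h.l4 e f]
  rcases le_total x (7 / 10) with g | g
  · linarith [h.l5 f g]
  rcases le_total x (86 / 100) with i | i
  · linarith [h.l6 g i]
  · linarith [h.l7 i]

private theorem six {W : ℝ} (h1 : -1 < x) (h2 : x < 1) (h : Enc x A)
    (hW : W = A * (A ^ 2 - 1) / (1 - x ^ 2)) : Six x A W := by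
  have h0 := one_le h1 h2 h
  have hD : 0 < 1 - x ^ 2 := by nlinarith
  have hw : ∀ w : ℝ, w * (1 - x ^ 2) ≤ A * (A ^ 2 - 1) → w ≤ W := by
    intro w hw
    rw [hW, le_div_iff₀ hD]
    exact hw
  rcases le_total x (-7 / 10) with c | c
  · have hA := h.l1 c
    refine six_of h1.le c (by linarith) (hw _ ?_) p1
    have := cub2 h0
    nlinarith
  rcases le_total x (-1 / 2) with d | d
  · have hA := h.l2 c d
    refine six_of c d (by linarith) (hw _ ?_) p2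
    have := cub (a := 10955 / 10000) (B := A) (by norm_num) (by linarith)
    nlinarith
  rcases le_total x 0 with e | e
  · have hA := h.l3 d e
    rcases le_total x (-1 / 4) with d' | d'
    · refine six_of d d' (by linarith) (hw _ ?_) p3
      have := cub (a := 11539 / 10000) (B := A) (by norm_num) (by linarith)
      nlinarith
    · refine six_of d' e (by linarith) (hw _ ?_) p4
      have := cub (a := 12135 / 10000) (B := A) (by norm_num) (by linarith)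
      nlinarith
  rcases le_total x (1 / 2) with f | f
  · have hA := h.l4 e f
    refine six_of e f (by linarith) (hw _ ?_) p5
    have := cub (a := 12732 / 10000) (B := A) (by norm_num) (by linarith)
    nlinarith
  rcases le_total x (7 / 10) with g | g
  · have hA := h.l5 f g
    refine six_of f g (by linarith) (hw _ ?_) p6
    have := cub (a := 13079 / 10000) (B := A) (by norm_num) (by linarith)
    nlinarith
  rcases le_total x (86 / 100) with i | i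
  · have hA := h.l6 g i
    refine six_of g i (by linarith) (hw _ ?_) p7
    have := cub (a := 1250 / 1000) (B := A) (by norm_num) (by linarith)
    nlinarith
  · have hA := h.l7 i
    refine six_of i h2.le (by linarith) (hw _ ?_) p8
    have := cub2 h0
    nlinarith

private theorem third (h1 : -1 < x) (h2 : x < 1) (h : Enc x A) :
    0 < 2 * A + 7 / 30 * (1 + x) * (6 * x - 2) -
      (1 - x ^ 2) * (7 / 30 * (259 / 100) + 7 / 30 * (1 - x) / 2 + 7 / 30) -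
      A * (A ^ 2 - 1) + A * (1 - x ^ 2) - 7 / 15 * (1 - x ^ 2) ^ 2 := by
  have h0 := one_le h1 h2 h
  obtain ⟨t, rfl⟩ : ∃ t, A = 1 + t := ⟨A - 1, by ring⟩
  have t0 : 0 ≤ t := by linarith
  have hD : 0 < 1 - x ^ 2 := by nlinarith
  have b1 : t ≤ (1 + x) / 3 := by linarith [h.u0]
  have b2 : t ≤ 338 / 1000 := by linarith [h.u2]
  have e1 : (1 + t) * ((1 + t) ^ 2 - 1) - 2 * (1 + t) = 3 * t ^ 2 + t ^ 3 - 2 := by ring
  have e2 : 0 ≤ t * (1 - x ^ 2) := by positivity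
  rcases le_total x 0 with c | c
  · have b3 : t ^ 2 ≤ ((1 + x) / 3) ^ 2 := pow_le_pow_left₀ t0 b1 2
    have b4 : t ^ 3 ≤ 1 / 3 * t ^ 2 := by nlinarith [sq_nonneg t]
    nlinarith [mul_nonneg (sub_nonneg.2 h1.le) (sub_nonneg.2 c), sq_nonneg x,
      mul_nonneg (sq_nonneg x) hD.le]
  · have b3 : t ^ 2 ≤ (338 / 1000) ^ 2 := pow_le_pow_left₀ t0 b2 2
    have b4 : t ^ 3 ≤ (338 / 1000) ^ 3 := pow_le_pow_left₀ t0 b2 3
    nlinarith [mul_nonneg (sub_nonneg.2 h2.le) c, sq_nonneg x,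
      mul_nonneg (sq_nonneg x) hD.le]

/-- Margins at least 0.3. -/
theorem yd_C (h1 : -1 < x) (h2 : x < 1) (h : Enc x A) {k : ℝ}
    (hk : k = 2 * (7 / 30 * (1 + x)) - ZZ x A ∨ k = -(2 * (7 / 30 * (1 + x)) - ZZ x A) ∨
      k = 2 * (7 / 30 * (1 + x))) :
    0 < A * ((A ^ 2 - x ^ 2) / (1 - x ^ 2)) - 6 * (7 / 30) * (1 - x ^ 2) - k / 2 ∧
      0 < A * ((A ^ 2 - x ^ 2) / (1 - x ^ 2)) - 6 * (7 / 30) * (1 - x ^ 2) - k / 2 +
        7 / 30 * (1 + x) * (1 - 3 * x) ∧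
      0 < 2 * A + 7 / 30 * (1 + x) * (6 * x - 2) -
        (1 - x ^ 2) * (7 / 30 * (259 / 100) + 7 / 30 * (1 - x) / 2 + 7 / 30) -
        (1 - x ^ 2) * k := by
  have hD : 0 < 1 - x ^ 2 := by nlinarith
  obtain ⟨W, hW⟩ : ∃ W : ℝ, W = A * (A ^ 2 - 1) / (1 - x ^ 2) := ⟨_, rfl⟩
  obtain ⟨⟨a1, a2⟩, ⟨a3, a4⟩, ⟨a5, a6⟩, a7, a8⟩ := six h1 h2 h hW
  have a9 := third h1 h2 h
  have h0 := cub2 (one_le h1 h2 h)
  have hH : A * ((A ^ 2 - x ^ 2) / (1 - x ^ 2)) = A + W := by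
    rw [hW]
    field_simp
    ring
  have hDW : (1 - x ^ 2) * W = A * (A ^ 2 - 1) := by
    rw [hW]
    field_simp
  have hZ : 2 * (7 / 30 * (1 + x)) - ZZ x A = W - A + 7 / 15 * (1 - x ^ 2) := by
    have e : A * (2 - (A ^ 2 - x ^ 2) / (1 - x ^ 2)) = 2 * A - (A + W) := by
      rw [← hH]
      ring
    rw [ZZ, e]
    ring
  rw [hH]
  rcases hk with hk | hk | hk
  · rw [hZ] at hk
    have e : (1 - x ^ 2) * k = A * (A ^ 2 - 1) - A * (1 - x ^ 2) + 7 / 15 * (1 - x ^ 2) ^ 2 := by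
      rw [hk]
      linear_combination hDW
    refine ⟨by linarith, by linarith, ?_⟩
    rw [e]
    linarith
  · rw [hZ] at hk
    have e : (1 - x ^ 2) * k =
        -(A * (A ^ 2 - 1) - A * (1 - x ^ 2) + 7 / 15 * (1 - x ^ 2) ^ 2) := by
      rw [hk]
      linear_combination -hDW
    refine ⟨by linarith, by linarith, ?_⟩
    rw [e]
    linarith
  · refine ⟨by linarith, by linarith, ?_⟩
    rw [hk]
    linarith

end Pool.Agent.MobConv.T3
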