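import Pool.Agent.Lib.MP_4b1e7e_an.T3.AxNum
import Pool.Agent.Lib.MP_4b1e7e_an.T3.YdA
import Pool.Agent.Lib.MP_4b1e7e_an.T3.YdB
import Pool.Agent.Lib.MP_4b1e7e_an.T3.YdC

/-!
# Block T3: the conditions `YD` hold for `A = AA x`
-/

set_option autoImplicit false

namespace Pool.Agent.MobConv.T3

open Metric ComplexConjugate

theorem yd {x : ℝ} (h1 : -1 < x) (h2 : x < 1) : YD x (AA x) := by
  have he := enc (x := x) ⟨h1.le, h2.le⟩
  have hl : 0 ≤ 2 * (7 / 30 * (1 + x)) := by linarith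
  obtain ⟨p, hp⟩ : ∃ p, p = 2 * (7 / 30 * (1 + x)) - ZZ x (AA x) := ⟨_, rfl⟩
  obtain ⟨q, hq⟩ : ∃ q, q = 2 * (7 / 30 * (1 + x)) - ZZ x (AA x) / AA x := ⟨_, rfl⟩
  refine ⟨yd_oneA h1 h2 he, yd_T h1 h2 he, yd_Y0 h1 h2 he, ?_, ?_⟩
  · refine ⟨max |p| |q|, ?_, ?_, ?_⟩
    · rw [← hp]; exact le_max_left _ _
    · rw [← hq]; exact le_max_right _ _
    · have hk : max |p| |q| = p ∨ max |p| |q| = -p ∨ max |p| |q| = q ∨ max |p| |q| = -q := by
        rcases max_choice |p| |q| with h | h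
        · rw [h]
          rcases abs_choice p with h' | h'
          · exact Or.inl h'
          · exact Or.inr (Or.inl h')
        · rw [h]
          rcases abs_choice q with h' | h'
          · exact Or.inr (Or.inr (Or.inl h'))
          · exact Or.inr (Or.inr (Or.inr h'))
      rw [hp, hq] at hk ⊢
      obtain ⟨a1, a2⟩ := yd_D h1 h2 he hk
      obtain ⟨a3, a4⟩ := yd_Y h1 h2 he hk
      exact ⟨a1, a2, a3, a4⟩
  · refine ⟨max |p| (2 * (7 / 30 * (1 + x))), ?_, le_max_right _ _, ?_⟩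
    · rw [← hp]; exact le_max_left _ _
    · have hk : max |p| (2 * (7 / 30 * (1 + x))) = p ∨ max |p| (2 * (7 / 30 * (1 + x))) = -p ∨
          max |p| (2 * (7 / 30 * (1 + x))) = 2 * (7 / 30 * (1 + x)) := by
        rcases max_choice |p| (2 * (7 / 30 * (1 + x))) with h | h
        · rw [h]
          rcases abs_choice p with h' | h'
          · exact Or.inl h'
          · exact Or.inr (Or.inl h')
        · rw [h]
          exact Or.inr (Or.inr rfl)
      rw [hp] at hk ⊢
      exact yd_C h1 h2 he hk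

end Pool.Agent.MobConv.T3
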