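import Pool.Agent.Lib.MP_4b1e7e_an.T3.Der
import Pool.Agent.Lib.MP_4b1e7e_an.T3.Ineq
import Pool.Agent.Lib.MP_4b1e7e_an.T3.Yd
import Pool.Agent.Lib.MP_4b1e7e_an.T3.SchurB

/-!
# Block T3: `Phi` has positive derivative where it is positive
-/

set_option autoImplicit false

namespace Pool.Agent.MobConv.T3

open Metric ComplexConjugate

theorem pos_deriv {F : ℂ → ℂ} {w : ℂ} (hF : IsConvexMap F) (hw : w ∉ F '' ball (0 : ℂ) 1) {α : ℝ}
    (hα : 0 < α) (ha : aa F w 0 = (α : ℂ)) (hm : ‖mm F 0‖ < 1) (hPhi : 0 < Phi F w 0) :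
    ∃ G : ℝ, 0 < G ∧ HasDerivAt (fun t : ℝ => Phi F w (t : ℂ)) G 0 := by
  refine ⟨_, ?_, hasDerivAt_Phi hF hw hα ha hm⟩
  obtain ⟨s1, s2⟩ := second hF hm
  have hn : ‖mm F 0‖ ^ 2 = (mm F 0).re ^ 2 + (mm F 0).im ^ 2 := by
    rw [← Complex.normSq_eq_norm_sq, Complex.normSq_apply]; ring
  have hns : ‖sg F 0‖ ^ 2 = (sg F 0).re ^ 2 + (sg F 0).im ^ 2 := by
    rw [← Complex.normSq_eq_norm_sq, Complex.normSq_apply]; ring
  have hm2 : ‖mm F 0‖ ^ 2 < 1 := by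
    have := norm_nonneg (mm F 0)
    nlinarith
  have hx : |(mm F 0).re| < 1 := lt_of_le_of_lt (Complex.abs_re_le_norm _) hm
  obtain ⟨hxa, hxb⟩ := abs_lt.1 hx
  have hN : ‖aa F w 0‖ = α := by
    rw [ha, Complex.norm_real, Real.norm_eq_abs, abs_of_pos hα]
  have hxx : xx F w 0 = (mm F 0).re := by
    rw [xx, hN, ha, Complex.conj_ofReal, Complex.re_mul_ofReal]
    field_simp
  have hSr : Sr F w 0 = (sg F 0).re := by
    rw [Sr, hN, ha, Complex.conj_ofReal, ← Complex.ofReal_pow, Complex.re_mul_ofReal]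
    field_simp
  have hP' : 1 - ‖mm F 0‖ ^ 2 = 1 - (mm F 0).re ^ 2 - (mm F 0).im ^ 2 := by rw [hn]; ring
  have hPp : 0 < 1 - (mm F 0).re ^ 2 - (mm F 0).im ^ 2 := by linarith
  rw [Phi, hN, hxx, hSr] at hPhi
  apply main_ineq hxa hxb (yd hxa hxb) hPp _ hα (by linarith) _
  · rw [← hns, ← hP']
    exact pow_le_pow_left₀ (norm_nonneg _) s1 2
  · have h5 := (abs_le.1 ((Complex.abs_re_le_norm _).trans s2)).1
    have h6 : (deriv (SS F) 0 / 4 - mm F 0 * sg F 0 +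
        conj (mm F 0) * sg F 0 ^ 2 / ((1 - ‖mm F 0‖ ^ 2 : ℝ) : ℂ)).re =
        (deriv (SS F) 0).re / 4 - ((mm F 0).re * (sg F 0).re - (mm F 0).im * (sg F 0).im) +
        ((mm F 0).re * ((sg F 0).re ^ 2 - (sg F 0).im ^ 2) +
          (mm F 0).im * (2 * (sg F 0).re * (sg F 0).im)) / (1 - ‖mm F 0‖ ^ 2) := by
      rw [Complex.add_re, Complex.sub_re, Complex.div_ofReal_re, Complex.mul_re, Complex.mul_re,
        pow_two (sg F 0), Complex.mul_re, Complex.mul_im, Complex.conj_re, Complex.conj_im]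
      have : (deriv (SS F) 0 / 4).re = (deriv (SS F) 0).re / 4 := by
        simp
      rw [this]
      ring
    rw [h6, hP', hns] at h5
    have h8 : 2 / (1 - (mm F 0).re ^ 2 - (mm F 0).im ^ 2) * ((1 - (mm F 0).re) *
        (sg F 0).re ^ 2 + (1 + (mm F 0).re) * (sg F 0).im ^ 2 -
        2 * (mm F 0).im * (sg F 0).re * (sg F 0).im) =
        2 * (((sg F 0).re ^ 2 + (sg F 0).im ^ 2) / (1 - (mm F 0).re ^ 2 - (mm F 0).im ^ 2)) -
        2 * (((mm F 0).re * ((sg F 0).re ^ 2 - (sg F 0).im ^ 2) +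
          (mm F 0).im * (2 * (sg F 0).re * (sg F 0).im)) /
          (1 - (mm F 0).re ^ 2 - (mm F 0).im ^ 2)) := by
      field_simp
      ring
    rw [h8]
    linarith

end Pool.Agent.MobConv.T3
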