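import Pool.Agent.Lib.MP_4b1e7e_an.T3.Defs
import Pool.Agent.Lib.MP_4b1e7e_an.Coeff
import Pool.Agent.Lib.MP_4b1e7e_an.T3.AxDer

/-!
# Block T3: the third coefficient for the strip maps
-/

set_option autoImplicit false

namespace Pool.Agent.MobConv.T3

open Metric ComplexConjugate

/-- By `hat_props` and `AA_cos`. -/
theorem strip3 {ξ : ℝ} (h0 : 0 < ξ) (h1 : ξ < Real.pi) :
    tcoeff (fun z => strip ξ z / (1 - strip ξ z / ((ξ / (2 * Real.sin ξ) : ℝ) : ℂ))) 3 =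
      ((b3 (-Real.cos ξ) : ℝ) : ℂ) := by
  obtain ⟨r, hr0, hr, hc⟩ := hat_props h0 h1
  have hs : 0 < Real.sin ξ := Real.sin_pos_of_pos_of_lt_pi h0 h1
  have e1 := hr 0
  have e2 := hr 1
  have e3 := hr 2
  norm_num [Finset.sum_range_succ, hr0] at e1 e2 e3
  rw [hc 3 (by norm_num), e3, e2, e1, b3, AA_cos h0 h1.le]
  have hx : (ξ : ℂ) ≠ 0 := by exact_mod_cast h0.ne'
  have hsC : Complex.sin (ξ : ℂ) ≠ 0 := by
    rw [← Complex.ofReal_sin]; exact_mod_cast hs.ne'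
  have hcs : Complex.sin (ξ : ℂ) ^ 2 = 1 - Complex.cos (ξ : ℂ) ^ 2 := by
    rw [Complex.cos_sq']; ring
  push_cast
  rw [Complex.sin_two_mul, Complex.sin_three_mul]
  field_simp
  rw [hcs]
  ring

end Pool.Agent.MobConv.T3
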