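import Pool.Agent.Lib.MP_4b1e7e_an.T3.AxNum

/-!
# Block T3: from `Phi ≤ 0` to the third coefficient
-/

set_option autoImplicit false

namespace Pool.Agent.MobConv.T3

open Metric ComplexConjugate

/-- Enclosures of `t = cos (7 π / 24)` and of `AA t`. -/
private theorem tangent_point : ∃ t : ℝ, 608761 / 1000000 < t ∧ t < 608762 / 1000000 ∧
    1321792 / 1000000 < AA t ∧ AA t < 1321795 / 1000000 := by
  have hpi := Real.pi_pos
  have hp1 := Real.pi_gt_d6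
  have hp2 := Real.pi_lt_d6
  set t := Real.cos (7 * Real.pi / 24) with ht
  set u := Real.sin (7 * Real.pi / 24) with hu
  set q := Real.cos (7 * Real.pi / 12) with hq
  have ht0 : 0 < t := Real.cos_pos_of_mem_Ioo ⟨by linarith, by linarith⟩
  have hu0 : 0 < u := Real.sin_pos_of_pos_of_lt_pi (by linarith) (by linarith)
  have hq0 : q < 0 := Real.cos_neg_of_pi_div_two_lt_of_lt (by linarith) (by linarith)
  have h3 : (17320508 : ℝ) / 10000000 < √3 := (Real.lt_sqrt (by norm_num)).2 (by norm_num)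
  have h3' : √3 < (17320509 : ℝ) / 10000000 :=
    (Real.sqrt_lt' (by norm_num)).2 (by norm_num)
  have hq2 : q ^ 2 = (2 - √3) / 4 := by
    have e : 2 * (7 * Real.pi / 12) = Real.pi / 6 + Real.pi := by ring
    rw [hq, Real.cos_sq, e, Real.cos_add_pi, Real.cos_pi_div_six]
    ring
  have ht2 : t ^ 2 = 1 / 2 + q / 2 := by
    have e : 2 * (7 * Real.pi / 24) = 7 * Real.pi / 12 := by ring
    rw [ht, Real.cos_sq, e]
  have hu2 : u ^ 2 = 1 - t ^ 2 := by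
    have := Real.sin_sq_add_cos_sq (7 * Real.pi / 24)
    linarith
  have q1 : q < -(2588189 / 10000000) := by
    by_contra hc
    nlinarith
  have q2 : -(2588191 / 10000000) < q := by
    by_contra hc
    nlinarith
  have t1 : 608761 / 1000000 < t := by
    by_contra hc
    nlinarith
  have t2 : t < 608762 / 1000000 := by
    by_contra hc
    nlinarith
  have u1 : 793353 / 1000000 < u := by
    by_contra hc
    nlinarith
  have u2 : u < 793354 / 1000000 := by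
    by_contra hc
    nlinarith
  have hA : AA t = 48 * u / (17 * Real.pi) + t := by
    have e : Real.cos (Real.pi - 7 * Real.pi / 24) = -t := Real.cos_pi_sub _
    have e' : Real.sin (Real.pi - 7 * Real.pi / 24) = u := Real.sin_pi_sub _
    have e2 := AA_cos (ξ := Real.pi - 7 * Real.pi / 24) (by linarith) (by linarith)
    rw [e, e', neg_neg] at e2
    rw [e2, sub_neg_eq_add]
    have e3 : Real.pi - 7 * Real.pi / 24 = 17 * Real.pi / 24 := by ring
    rw [e3]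
    field_simp
    ring
  have b1 : 713031 / 1000000 < 48 * u / (17 * Real.pi) := by
    rw [lt_div_iff₀ (by positivity)]
    linarith
  have b2 : 48 * u / (17 * Real.pi) < 713033 / 1000000 := by
    rw [div_lt_iff₀ (by positivity)]
    linarith
  exact ⟨t, t1, t2, by rw [hA]; linarith, by rw [hA]; linarith⟩

/-- `AA (cos (7 π / 24)) = cos (7 π / 24) + 2 sin (7 π / 24) / (17 π / 24)`, the abscissa is
`0.608761...`. Used for a tangent (`AA_tangent`). -/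
theorem AA_upper {x : ℝ} (hx : x ∈ Set.Icc (-1 : ℝ) 1) :
    AA x ≤ 13219 / 10000 - 9360 / 100000 * (x - 6087 / 10000) := by
  obtain ⟨t, t1, t2, a1, a2⟩ := tangent_point
  have h := AA_tangent (t := t) (by linarith) (by linarith) hx
  obtain ⟨hx1, hx2⟩ := hx
  set A := AA t with hA
  set s := (2 - A ^ 2 - t ^ 2) / (2 * (1 - t ^ 2)) with hs
  have hp : 0 < 1 - t ^ 2 := by nlinarith
  have hs2 : s * (2 * (1 - t ^ 2)) = 2 - A ^ 2 - t ^ 2 :=
    div_mul_cancel₀ _ (by positivity)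
  have e1 : A - s * (1 + t) ≤ 147247432 / 100000000 := by
    have k : 0 < 2 * (1 - t) := by linarith
    refine le_of_mul_le_mul_left ?_ k
    have e : 2 * (1 - t) * (A - s * (1 + t)) = 2 * (1 - t) * A - (2 - A ^ 2 - t ^ 2) := by
      rw [← hs2]
      ring
    rw [e]
    nlinarith [mul_pos (sub_pos.2 t1) (sub_pos.2 a1), mul_pos (sub_pos.2 t2) (sub_pos.2 a1),
      mul_pos (sub_pos.2 t1) (sub_pos.2 a2), mul_pos (sub_pos.2 t2) (sub_pos.2 a2),
      mul_pos (sub_pos.2 a1) (sub_pos.2 a2), mul_pos (sub_pos.2 t1) (sub_pos.2 t2)]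
  have e2 : A + s * (1 - t) ≤ 128527432 / 100000000 := by
    have k : 0 < 2 * (1 + t) := by linarith
    refine le_of_mul_le_mul_left ?_ k
    have e : 2 * (1 + t) * (A + s * (1 - t)) = 2 * (1 + t) * A + (2 - A ^ 2 - t ^ 2) := by
      rw [← hs2]
      ring
    rw [e]
    nlinarith [mul_pos (sub_pos.2 t1) (sub_pos.2 a1), mul_pos (sub_pos.2 t2) (sub_pos.2 a1),
      mul_pos (sub_pos.2 t1) (sub_pos.2 a2), mul_pos (sub_pos.2 t2) (sub_pos.2 a2),
      mul_pos (sub_pos.2 a1) (sub_pos.2 a2), mul_pos (sub_pos.2 t1) (sub_pos.2 t2)]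
  have f1 := mul_le_mul_of_nonneg_left e1 (by linarith : 0 ≤ (1 - x) / 2)
  have f2 := mul_le_mul_of_nonneg_left e2 (by linarith : 0 ≤ (1 + x) / 2)
  have f3 : A + s * (x - t) = (1 - x) / 2 * (A - s * (1 + t)) +
      (1 + x) / 2 * (A + s * (1 - t)) := by ring
  rw [f3] at h
  linarith

private theorem poly1 {x U l : ℝ} (h0 : 0 ≤ x) (h1 : x ≤ 3 / 10)
    (hU : U = 12734 / 10000 + 1895 / 10000 * x) (hl : l = 7 / 30 * (1 + x)) :
    (U ^ 2 * (2 / 3 - 2 * l) + 2 * l * (1 - x ^ 2) / 3) ^ 2 ≤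
      4 * (l * (2 / 3 - l)) * ((15423 / 10000) ^ 2 - (U ^ 2 - (1 - x ^ 2) / 3) ^ 2) := by
  have ha : 0 ≤ x := by linarith
  have hb : 0 ≤ 3 / 10 - x := by linarith
  subst hU hl
  rw [← sub_nonneg]
  have e : 0 ≤
      767010395639011 / 9226406250000 * (3 / 10 - x) ^ 6 +
      560139037714943 / 1025156250000 * x ^ 1 * (3 / 10 - x) ^ 5 +
      34216199503639151 / 24603750000000 * x ^ 2 * (3 / 10 - x) ^ 4 +
      51671653948220653 / 29524500000000 * x ^ 3 * (3 / 10 - x) ^ 3 +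
      3923403919516717 / 3499200000000 * x ^ 4 * (3 / 10 - x) ^ 2 +
      1012189661860777 / 3149280000000 * x ^ 5 * (3 / 10 - x) ^ 1 +
      3457756533871 / 151165440000 * x ^ 6 := by positivity
  refine e.trans_eq ?_
  ring

private theorem poly2 {x U l : ℝ} (h0 : 3 / 10 ≤ x) (h1 : x ≤ 11 / 20)
    (hU : U = 13307 / 10000 - 72 / 10000 * x) (hl : l = 7 / 30 * (1 + x)) :
    (U ^ 2 * (2 / 3 - 2 * l) + 2 * l * (1 - x ^ 2) / 3) ^ 2 ≤
      4 * (l * (2 / 3 - l)) * ((15423 / 10000) ^ 2 - (U ^ 2 - (1 - x ^ 2) / 3) ^ 2) := by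
  have ha : 0 ≤ x - 3 / 10 := by linarith
  have hb : 0 ≤ 11 / 20 - x := by linarith
  subst hU hl
  rw [← sub_nonneg]
  have e : 0 ≤
      2873203030274863831 / 30899047851562500 * (11 / 20 - x) ^ 6 +
      12527403696118893953 / 15449523925781250 * (x - 3 / 10) ^ 1 * (11 / 20 - x) ^ 5 +
      4947045357918549331 / 2059936523437500 * (x - 3 / 10) ^ 2 * (11 / 20 - x) ^ 4 +
      5150800805918924146 / 1544952392578125 * (x - 3 / 10) ^ 3 * (11 / 20 - x) ^ 3 +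
      14236099392807338113 / 6179809570312500 * (x - 3 / 10) ^ 4 * (11 / 20 - x) ^ 2 +
      3682050336288314281 / 5149841308593750 * (x - 3 / 10) ^ 5 * (11 / 20 - x) ^ 1 +
      211527240584040239 / 3433227539062500 * (x - 3 / 10) ^ 6 := by positivity
  refine e.trans_eq ?_
  ring

private theorem poly3 {x U l : ℝ} (h0 : 11 / 20 ≤ x) (h1 : x ≤ 5 / 8)
    (hU : U = 13219 / 10000 - 9360 / 100000 * (x - 6087 / 10000)) (hl : l = 7 / 30 * (1 + x)) :
    (U ^ 2 * (2 / 3 - 2 * l) + 2 * l * (1 - x ^ 2) / 3) ^ 2 ≤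
      4 * (l * (2 / 3 - l)) * ((15423 / 10000) ^ 2 - (U ^ 2 - (1 - x ^ 2) / 3) ^ 2) := by
  have ha : 0 ≤ x - 11 / 20 := by linarith
  have hb : 0 ≤ 5 / 8 - x := by linarith
  subst hU hl
  rw [← sub_nonneg]
  have e : 0 ≤
      698331984877340269846408319 / 9776651859283447265625 * (5 / 8 - x) ^ 6 +
      4067516074234830534813563914 / 9776651859283447265625 * (x - 11 / 20) ^ 1 * (5 / 8 - x) ^ 5 +
      1889227344903036488017201457 / 1955330371856689453125 * (x - 11 / 20) ^ 2 * (5 / 8 - x) ^ 4 +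
      2213111471747351124474967526 / 1955330371856689453125 * (x - 11 / 20) ^ 3 * (5 / 8 - x) ^ 3 +
      1343932647167502272987721707 / 1955330371856689453125 * (x - 11 / 20) ^ 4 * (5 / 8 - x) ^ 2 +
      1879603582525927546622988664 / 9776651859283447265625 * (x - 11 / 20) ^ 5 * (5 / 8 - x) ^ 1 +
      148545070267479628940366069 / 9776651859283447265625 * (x - 11 / 20) ^ 6 := by positivity
  refine e.trans_eq ?_
  ring

private theorem poly4 {x U l : ℝ} (h0 : -1 ≤ x) (h1 : x ≤ 0)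
    (hU : U = 12734 / 10000 + 1895 / 10000 * x) (hl : l = 7 / 30 * (1 + x)) :
    U ^ 2 - 2 * l * (1 - x ^ 2) + (1 - x ^ 2) / 3 ≤
      15423 / 10000 := by
  have ha : 0 ≤ x + 1 := by linarith
  have hb : 0 ≤ -x := by linarith
  subst hU hl
  rw [← sub_nonneg]
  have e : 0 ≤
      36746079 / 100000000 * (-x) ^ 3 +
      7475281 / 300000000 * (x + 1) ^ 1 * (-x) ^ 2 +
      6682847 / 37500000 * (x + 1) ^ 2 * (-x) ^ 1 +
      4056433 / 75000000 * (x + 1) ^ 3 := by positivity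
  refine e.trans_eq ?_
  ring

private theorem poly5 {x U l : ℝ} (h0 : -1 ≤ x) (h1 : x ≤ 0)
    (hU : U = 12734 / 10000 + 1895 / 10000 * x) (hl : l = 7 / 30 * (1 + x)) :
    4 * (l * (2 / 3 - l)) * (1 - x ^ 2) ≤
      U ^ 2 * (2 / 3 - 2 * l) + 2 * l * (1 - x ^ 2) / 3 := by
  have ha : 0 ≤ x + 1 := by linarith
  have hb : 0 ≤ -x := by linarith
  subst hU hl
  rw [← sub_nonneg]
  have e : 0 ≤
      39161307 / 50000000 * (-x) ^ 4 +
      1429255831 / 500000000 * (x + 1) ^ 1 * (-x) ^ 3 +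
      4162618799 / 1500000000 * (x + 1) ^ 2 * (-x) ^ 2 +
      139639511 / 140625000 * (x + 1) ^ 3 * (-x) ^ 1 +
      84848201 / 1125000000 * (x + 1) ^ 4 := by positivity
  refine e.trans_eq ?_
  ring

/-- The left side of `target` is at most the value at the largest `N`. -/
private theorem mono_step {S τ N A U l D : ℝ} (hD : 0 ≤ D) (hN3 : D / 3 ≤ N) (hA : 0 ≤ A)
    (hU : A ≤ U) (hNle : N ≤ A ^ 2 - l * (D + S)) (hS : S ^ 2 + τ ^ 2 ≤ D ^ 2) :
    (N + S / 3) ^ 2 + (τ / 3) ^ 2 ≤ (U ^ 2 - D / 3) ^ 2 +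
      (U ^ 2 * (2 / 3 - 2 * l) + 2 * l * D / 3) * (D + S) - l * (2 / 3 - l) * (D + S) ^ 2 := by
  have hU2 : A ^ 2 ≤ U ^ 2 := by nlinarith
  have hS1 : -D ≤ S := (abs_le.1 (abs_le_of_sq_le_sq (by nlinarith [sq_nonneg τ]) hD)).1
  have h1 : N ≤ U ^ 2 - l * (D + S) := by linarith
  have h2 : 0 ≤ (U ^ 2 - l * (D + S) - N) * (U ^ 2 - l * (D + S) + N + 2 * S / 3) :=
    mul_nonneg (by linarith) (by linarith)
  have h3 : (N + S / 3) ^ 2 + (τ / 3) ^ 2 = N ^ 2 + 2 * N * S / 3 + (S ^ 2 + τ ^ 2) / 9 := by ring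
  rw [h3]
  have h4 : (U ^ 2 - D / 3) ^ 2 +
      (U ^ 2 * (2 / 3 - 2 * l) + 2 * l * D / 3) * (D + S) - l * (2 / 3 - l) * (D + S) ^ 2 =
      (U ^ 2 - l * (D + S) - N) * (U ^ 2 - l * (D + S) + N + 2 * S / 3) +
      (N ^ 2 + 2 * N * S / 3 + D ^ 2 / 9) := by ring
  rw [h4]
  linarith


private theorem b3_bdd : BddAbove (b3 '' Set.Icc (-1) 1) := by
  refine IsCompact.bddAbove_image isCompact_Icc (Continuous.continuousOn ?_)
  unfold b3
  exact (AA_cont.pow 2).sub (by fun_prop)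

private theorem sSup_upper {x : ℝ} (hx : x ∈ Set.Icc (-1 : ℝ) 1) :
    AA x ^ 2 - (1 - x ^ 2) / 3 ≤ sSup (b3 '' Set.Icc (-1) 1) :=
  le_csSup b3_bdd ⟨x, hx, rfl⟩

private theorem sSup_lower : 15423 / 10000 ≤ sSup (b3 '' Set.Icc (-1) 1) := by
  have hpi := Real.pi_pos
  have hp2 := Real.pi_lt_d6
  have h2 : (1414213 : ℝ) / 1000000 < √2 := (Real.lt_sqrt (by norm_num)).2 (by norm_num)
  have h2' : √2 < (1414214 : ℝ) / 1000000 := (Real.sqrt_lt' (by norm_num)).2 (by norm_num)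
  have hsq : √2 ^ 2 = 2 := Real.sq_sqrt (by norm_num)
  have hA : AA (√2 / 2) = 4 * √2 / (3 * Real.pi) + √2 / 2 := by
    have e : Real.cos (Real.pi - Real.pi / 4) = -(√2 / 2) := by
      rw [Real.cos_pi_sub, Real.cos_pi_div_four]
    have e' : Real.sin (Real.pi - Real.pi / 4) = √2 / 2 := by
      rw [Real.sin_pi_sub, Real.sin_pi_div_four]
    have e2 := AA_cos (ξ := Real.pi - Real.pi / 4) (by linarith) (by linarith)
    rw [e, e', neg_neg] at e2
    rw [e2, sub_neg_eq_add]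
    have e3 : Real.pi - Real.pi / 4 = 3 * Real.pi / 4 := by ring
    rw [e3]
    field_simp
  have b1 : 6002 / 10000 < 4 * √2 / (3 * Real.pi) := by
    rw [lt_div_iff₀ (by positivity)]
    linarith
  have hx : √2 / 2 ∈ Set.Icc (-1 : ℝ) 1 := ⟨by linarith, by linarith⟩
  refine le_trans ?_ (sSup_upper hx)
  have hA1 : 13073 / 10000 < AA (√2 / 2) := by rw [hA]; linarith
  nlinarith

/-- Proof. Let `A = AA x`, `D = 1 - x²`, `λ = 7 (1 + x) / 30`, `R = D + S ∈ [0, 2 D]`, `M = sSup`.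
`(N + S / 3)² + (τ / 3)² ≤ N² + 2 N S / 3 + D² / 9`. If `N ≤ D / 3` this is `≤ 1`, and
`M ≥ b3 1 = 1`. Otherwise it increases with `N`, so it is at most
`F = (A² - λ R)² + 2 (A² - λ R) (R - D) / 3 + D² / 9 = b3(x)² + F₁ R - λ (2 / 3 - λ) R²`,
`F₁ = A² (2 / 3 - 2 λ) + 2 λ D / 3`. If `F₁ ≤ 0` use `b3 x ≤ M`; this is the case for `x ≥ 5 / 8`
(lower bounds `Enc.l5`, ...). For `x ≤ 5 / 8` use the upper bounds of `A` (`enc`, `AA_upper`) and
`M ≥ b3 (√2/2) ≥ 1.5423`; the margin for `F ≤ M²` is at least 0.006 (near `x = 5 / 8`). -/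
theorem target {x S τ N : ℝ} (hx : x ∈ Set.Icc (-1 : ℝ) 1) (hN : 0 ≤ N)
    (hNle : N ≤ AA x ^ 2 - 7 / 30 * (1 + x) * (1 - x ^ 2 + S))
    (hS : S ^ 2 + τ ^ 2 ≤ (1 - x ^ 2) ^ 2) :
    (N + S / 3) ^ 2 + (τ / 3) ^ 2 ≤ (sSup (b3 '' Set.Icc (-1) 1)) ^ 2 := by
  have hM := sSup_lower
  have hMb := sSup_upper hx
  set M := sSup (b3 '' Set.Icc (-1) 1) with hMdef
  have hE := enc hx
  have hA5 := AA_upper hx
  obtain ⟨hx1, hx2⟩ := hx
  have hD : 0 ≤ 1 - x ^ 2 := by nlinarith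
  have hD1 : 1 - x ^ 2 ≤ 1 := by nlinarith [sq_nonneg x]
  have hl0 : 0 ≤ 7 / 30 * (1 + x) := by linarith
  have hS2 : |S| ≤ 1 - x ^ 2 := abs_le_of_sq_le_sq (by nlinarith [sq_nonneg τ]) hD
  have hSa := (abs_le.1 hS2).1
  have hSb := (abs_le.1 hS2).2
  have hM2 : (15423 / 10000 : ℝ) ^ 2 ≤ M ^ 2 := by nlinarith
  rcases le_total N ((1 - x ^ 2) / 3) with hc | hc
  · -- small `N`
    have h1 : (N + S / 3) ^ 2 + (τ / 3) ^ 2 ≤ (N + (1 - x ^ 2) / 3) ^ 2 := by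
      nlinarith [mul_nonneg hN (sub_nonneg.2 hSb)]
    have h2 : (N + (1 - x ^ 2) / 3) ^ 2 ≤ 1 := by
      nlinarith
    linarith
  have hA1 : 1 ≤ AA x := by
    rcases le_total x (-7 / 10) with h | h
    · linarith [hE.l1 h]
    rcases le_total x (-1 / 2) with h' | h'
    · linarith [hE.l2 h h']
    rcases le_total x 0 with h | h
    · linarith [hE.l3 h' h]
    rcases le_total x (1 / 2) with h' | h'
    · linarith [hE.l4 h h']
    rcases le_total x (7 / 10) with h | h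
    · linarith [hE.l5 h' h]
    rcases le_total x (86 / 100) with h' | h'
    · linarith [hE.l6 h h']
    · linarith [hE.l7 h']
  have hA0 : 0 ≤ AA x := by linarith
  rcases le_total x 0 with hx0 | hx0
  · -- `x ≤ 0`
    obtain ⟨l, hl⟩ : ∃ l : ℝ, l = 7 / 30 * (1 + x) := ⟨_, rfl⟩
    obtain ⟨U, hU⟩ : ∃ U : ℝ, U = 12734 / 10000 + 1895 / 10000 * x := ⟨_, rfl⟩
    rw [← hl] at hNle hl0
    have h1 := mono_step hD hc hA0 (hE.u1.trans_eq hU.symm) hNle hS
    have p4 := poly4 hx1 hx0 hU hl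
    have p5 := poly5 hx1 hx0 hU hl
    have hl3 : l ≤ 7 / 30 := by rw [hl]; linarith
    have hκ : 0 ≤ l * (2 / 3 - l) := mul_nonneg hl0 (by linarith)
    have h2 : (U ^ 2 - (1 - x ^ 2) / 3) ^ 2 +
        (U ^ 2 * (2 / 3 - 2 * l) + 2 * l * (1 - x ^ 2) / 3) * (1 - x ^ 2 + S) -
        l * (2 / 3 - l) * (1 - x ^ 2 + S) ^ 2 ≤
        (U ^ 2 - 2 * l * (1 - x ^ 2) + (1 - x ^ 2) / 3) ^ 2 := by
      have h3 : l * (2 / 3 - l) * (2 * (1 - x ^ 2) + (1 - x ^ 2 + S)) ≤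
          4 * (l * (2 / 3 - l)) * (1 - x ^ 2) := by
        have := mul_nonneg hκ (sub_nonneg.2 hSb)
        linarith
      have h4 : 0 ≤ ((1 - x ^ 2) - S) * ((U ^ 2 * (2 / 3 - 2 * l) + 2 * l * (1 - x ^ 2) / 3) -
          l * (2 / 3 - l) * (2 * (1 - x ^ 2) + (1 - x ^ 2 + S))) :=
        mul_nonneg (by linarith) (by linarith)
      refine le_of_sub_nonneg (h4.trans_eq ?_)
      ring
    have h5 : 0 ≤ U ^ 2 - 2 * l * (1 - x ^ 2) + (1 - x ^ 2) / 3 := by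
      have h7 : 1 ≤ U := by rw [hU]; linarith
      have h8 : 1 ≤ U ^ 2 := one_le_pow₀ h7
      have h9 : l * (1 - x ^ 2) ≤ 7 / 30 * 1 := mul_le_mul hl3 hD1 hD (by norm_num)
      linarith
    have h6 : (U ^ 2 - 2 * l * (1 - x ^ 2) + (1 - x ^ 2) / 3) ^ 2 ≤ (15423 / 10000) ^ 2 :=
      pow_le_pow_left₀ h5 p4 2
    linarith
  have key : ∀ U l : ℝ, l = 7 / 30 * (1 + x) → AA x ≤ U →
      (U ^ 2 * (2 / 3 - 2 * l) + 2 * l * (1 - x ^ 2) / 3) ^ 2 ≤
        4 * (l * (2 / 3 - l)) * ((15423 / 10000) ^ 2 - (U ^ 2 - (1 - x ^ 2) / 3) ^ 2) →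
      (N + S / 3) ^ 2 + (τ / 3) ^ 2 ≤ M ^ 2 := by
    intro U l hl hU hp
    rw [← hl] at hNle
    have h1 := mono_step hD hc hA0 hU hNle hS
    have hl1 : 7 / 30 ≤ l := by rw [hl]; linarith
    have hl2 : l ≤ 7 / 15 := by rw [hl]; linarith
    have hκ : 0 < l * (2 / 3 - l) := mul_pos (by linarith) (by linarith)
    set κ := l * (2 / 3 - l) with hκd
    set G := U ^ 2 * (2 / 3 - 2 * l) + 2 * l * (1 - x ^ 2) / 3 with hG
    have h2 : G * (1 - x ^ 2 + S) - κ * (1 - x ^ 2 + S) ^ 2 ≤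
        (15423 / 10000) ^ 2 - (U ^ 2 - (1 - x ^ 2) / 3) ^ 2 := by
      refine le_of_mul_le_mul_left ?_ (by positivity : 0 < 4 * κ)
      refine le_trans ?_ hp
      refine le_of_sub_nonneg ((sq_nonneg (G - 2 * κ * (1 - x ^ 2 + S))).trans_eq ?_)
      ring
    linarith
  rcases le_total x (3 / 10) with h3 | h3
  · exact key _ _ rfl hE.u1 (poly1 hx0 h3 rfl rfl)
  rcases le_total x (11 / 20) with h4 | h4
  · exact key _ _ rfl hE.u2 (poly2 h3 h4 rfl rfl)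
  rcases le_total x (5 / 8) with h5 | h5
  · exact key _ _ rfl hA5 (poly3 h4 h5 rfl rfl)
  -- `x ≥ 5 / 8`
  have h1 := mono_step hD hc hA0 le_rfl hNle hS
  have hκ : 0 ≤ 7 / 30 * (1 + x) * (2 / 3 - 7 / 30 * (1 + x)) :=
    mul_nonneg hl0 (by linarith)
  have hG : AA x ^ 2 * (2 / 3 - 2 * (7 / 30 * (1 + x))) +
      2 * (7 / 30 * (1 + x)) * (1 - x ^ 2) / 3 ≤ 0 := by
    have key2 : ∀ a : ℝ, 0 ≤ a → a ≤ AA x → 7 * (1 + x) ^ 2 * (1 - x) ≤
        3 * a ^ 2 * (7 * x - 3) → AA x ^ 2 * (2 / 3 - 2 * (7 / 30 * (1 + x))) +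
      2 * (7 / 30 * (1 + x)) * (1 - x ^ 2) / 3 ≤ 0 := by
      intro a ha0 ha hp
      have : a ^ 2 ≤ AA x ^ 2 := pow_le_pow_left₀ ha0 ha 2
      nlinarith [mul_le_mul_of_nonneg_right this (by linarith : 0 ≤ 7 * x - 3)]
    rcases le_total x (7 / 10) with h | h
    · refine key2 (13079 / 10000) (by norm_num) (by linarith [hE.l5 (by linarith) h]) ?_
      nlinarith [mul_nonneg (sub_nonneg.2 h5) (sub_nonneg.2 h),
        mul_nonneg (mul_nonneg (sub_nonneg.2 h5) (sub_nonneg.2 h)) (by linarith : 0 ≤ 1 + x)]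
    rcases le_total x (86 / 100) with h' | h'
    · refine key2 (125 / 100) (by norm_num) (by linarith [hE.l6 h h']) ?_
      nlinarith [mul_nonneg (sub_nonneg.2 h) (sub_nonneg.2 h'),
        mul_nonneg (mul_nonneg (sub_nonneg.2 h) (sub_nonneg.2 h')) (by linarith : 0 ≤ 1 + x)]
    · refine key2 1 (by norm_num) hA1 ?_
      nlinarith [mul_nonneg (sub_nonneg.2 h') (sub_nonneg.2 hx2),
        mul_nonneg (mul_nonneg (sub_nonneg.2 h') (sub_nonneg.2 hx2)) (by linarith : 0 ≤ 1 + x)]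
  have hb0 : 0 ≤ AA x ^ 2 - (1 - x ^ 2) / 3 := by nlinarith
  have hbM : (AA x ^ 2 - (1 - x ^ 2) / 3) ^ 2 ≤ M ^ 2 := pow_le_pow_left₀ hb0 hMb 2
  have h6 : 0 ≤ 1 - x ^ 2 + S := by linarith
  have h7 := mul_nonneg (neg_nonneg.2 hG) h6
  have h8 := mul_nonneg hκ (sq_nonneg (1 - x ^ 2 + S))
  linarith

theorem sSup_ge : 15423 / 10000 ≤ sSup (b3 '' Set.Icc (-1) 1) := sSup_lower

end Pool.Agent.MobConv.T3
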